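import Pool.Agent.T9h53.SG.MeasG
import Pool.Agent.T9h27.K.GlK

/-! # The L-functions of the primitive ray class characters of a number field -/

set_option autoImplicit false

open Complex Filter Topology Set NumberField

namespace Pool.Agent.T9h53.SG

open Pool.Agent.T9h27.D
open Pool.Agent.T9h27.K (nK ns_K gl_K)
open Pool.Agent.Y773 (LI)
open Pool.Agent.Y767 (eq_of_LI)

theorem hl_K (K : Type) [Field K] [NumberField K] (𝔣 : Ideal (𝓞 K)) (ψ : Ideal (𝓞 K) →*₀ ℂ)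
    (F : ℂ → ℂ) (htop : 𝔣 ≠ ⊤) (h : Pool.Agent.Y773.G.IsPrimChar K 𝔣 ψ)
    (hdF : Differentiable ℂ F) (hFL : ∀ s : ℂ, 1 < s.re → F s = LI ψ s) :
    ∃ (R : ℝ) (e : (K →+* ℂ) → ℕ) (w : ℂ), HL (nK K) ψ F R e w := by
  have hSig := Pool.Agent.Y772.G.t_sig
  obtain ⟨A, hA, hgl⟩ := gl_K K
  obtain ⟨hg, hnz, -⟩ := hgl 𝔣 ψ F htop h hdF hFL
  have hG := hg (Ideal.absNorm 𝔣 : ℝ) 1 le_rfl le_rfl
  obtain ⟨e, he⟩ := h.isModChar hSig htop
  obtain ⟨G, hFE, hGL⟩ := Pool.Agent.Y773.G.fe_prim h he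
  have hFG : F = G := eq_of_LI hdF hFE.diff (fun s hs => by rw [hFL s hs, hGL s hs])
  rw [← hFG] at hFE
  obtain ⟨w, hw, hfe⟩ := hFE.fe
  have hdN : 0 < Ideal.absNorm (differentIdeal ℤ (𝓞 K)) := by
    apply Nat.pos_of_ne_zero
    rw [Ne, Ideal.absNorm_eq_zero_iff]
    exact differentIdeal_ne_bot
  have hfN : 0 < Ideal.absNorm 𝔣 := by
    apply Nat.pos_of_ne_zero
    rw [Ne, Ideal.absNorm_eq_zero_iff]
    exact h.ne_bot
  have hR : (0 : ℝ) < ((Ideal.absNorm 𝔣 * Ideal.absNorm (differentIdeal ℤ (𝓞 K)) : ℕ) : ℝ) := by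
    exact_mod_cast Nat.mul_pos hfN hdN
  refine ⟨_, Pool.Agent.Y773.G.ex e, w, ⟨hdF, hG.le1, hG.ser, hR, hFE.he, hw, ?_, ?_, hnz⟩⟩
  · intro s hs
    exact func_eq hR hfe hs
  · set n := Module.finrank ℚ K with hn
    set E := Real.exp (Real.log ((Ideal.absNorm 𝔣 : ℝ) * 1 ^ n)) with hE
    have hE0 : 0 < E := Real.exp_pos _
    refine ⟨A * E * 2 ^ n, n + 1, by positivity, by positivity, ?_⟩
    intro s hs1 hs2
    have h1 := hG.gr s (by linarith)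
    have h2 : |s.im| = s.im := abs_of_nonneg (by linarith)
    rw [h2, div_one] at h1
    refine h1.trans ?_
    have h3 : (1 + s.im) ^ n ≤ (2 * s.im) ^ n := pow_le_pow_left₀ (by linarith) (by linarith) n
    have h4 : s.im ^ n ≤ s.im ^ ((n : ℝ) + 1) := by
      rw [← Real.rpow_natCast]
      exact Real.rpow_le_rpow_of_exponent_le hs2 (by linarith)
    calc A * E * (1 + s.im) ^ n ≤ A * E * (2 * s.im) ^ n := by gcongr
      _ = A * E * 2 ^ n * s.im ^ n := by rw [mul_pow]; ring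
      _ ≤ _ := by gcongr

end Pool.Agent.T9h53.SG
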