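import Pool.Agent.T9h53.SG.MeasG

/-! # The exceptional zeros: final form -/

set_option autoImplicit false
set_option linter.unusedSectionVars false

open Complex Filter Topology Set MeasureTheory

namespace Pool.Agent.T9h53.SG

open Pool.Agent.T9h53.SZ
open Pool.Agent.T9h27.D

/-- the exceptional zeros -/
def ExcR (F₁ F₂ : ℂ → ℂ) (r δ : ℝ) : Set ℂ := {ρ : ℂ | F₁ ρ = 0 ∧
  analyticOrderAt F₂ (1 / 2 + (r : ℂ) * (ρ - 1 / 2) + (δ : ℂ) * I) < analyticOrderAt F₁ ρ}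

/-- the heights far from all exceptional zeros -/
def BadR (F₁ F₂ : ℂ → ℂ) (r δ T W : ℝ) : Set ℝ :=
  {t : ℝ | t ∈ Ioc T (2 * T) ∧ ∀ ρ ∈ ExcR F₁ F₂ r δ, W < |ρ.im - t|}

lemma excZ_iff (F₁ F₂ : ℂ → ℂ) {α β : ℝ} (δ : ℝ) (hβ : 0 < β) (z : ℂ) :
    z ∈ ExcZ F₁ F₂ α β δ ↔ 1 / 2 + (β : ℂ) * z ∈ ExcR F₁ F₂ (α / β) δ := by
  have hβ0 : (β : ℂ) ≠ 0 := by exact_mod_cast hβ.ne'
  have e1 : (1 / 2 : ℂ) + ((α / β : ℝ) : ℂ) * (1 / 2 + (β : ℂ) * z - 1 / 2) + (δ : ℂ) * I =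
      1 / 2 + δ * I + α * z := by
    push_cast
    field_simp
    ring
  unfold ExcZ ExcR
  rw [mem_ofPred_eq, mem_ofPred_eq, e1]

lemma badR_eq (F₁ F₂ : ℂ → ℂ) {α β : ℝ} (δ T W : ℝ) (hβ : 0 < β) :
    BadR F₁ F₂ (α / β) δ T W = (β⁻¹ * ·) ⁻¹' BadZ F₁ F₂ α β δ (T / β) (W / β) := by
  have hβ0 : (β : ℂ) ≠ 0 := by exact_mod_cast hβ.ne'
  ext t
  simp only [mem_preimage]
  unfold BadR BadZ
  rw [mem_ofPred_eq, mem_ofPred_eq]
  have key : ∀ y : ℝ, W / β < |y / β - β⁻¹ * t| ↔ W < |y - t| := by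
    intro y
    have : y / β - β⁻¹ * t = (y - t) / β := by field_simp
    rw [this, abs_div, abs_of_pos hβ, div_lt_div_iff_of_pos_right hβ]
  constructor
  · rintro ⟨⟨h1, h2⟩, h3⟩
    refine ⟨?_, ?_, ?_⟩
    · rw [div_eq_inv_mul]
      exact mul_lt_mul_of_pos_left h1 (inv_pos.mpr hβ)
    · rw [div_eq_inv_mul]
      have := mul_le_mul_of_nonneg_left h2 (inv_pos.mpr hβ).le
      linarith
    · intro z hz
      have h4 := h3 _ ((excZ_iff F₁ F₂ δ hβ z).mp hz)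
      rw [← key] at h4
      have e1 : (1 / 2 + (β : ℂ) * z).im / β = z.im := by
        simp only [add_im, div_ofNat_im, one_im, zero_div, zero_add, im_ofReal_mul]
        field_simp
      rwa [e1] at h4
  · rintro ⟨h1, h2, h3⟩
    refine ⟨⟨?_, ?_⟩, ?_⟩
    · rw [div_eq_inv_mul] at h1
      exact lt_of_mul_lt_mul_left h1 (inv_pos.mpr hβ).le
    · rw [div_eq_inv_mul] at h2
      have h5 : β⁻¹ * t ≤ β⁻¹ * (2 * T) := by linarith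
      exact le_of_mul_le_mul_left h5 (inv_pos.mpr hβ)
    · intro ρ hρ
      have e1 : 1 / 2 + (β : ℂ) * ((ρ - 1 / 2) / β) = ρ := by
        field_simp
        ring
      have h4 := h3 ((ρ - 1 / 2) / β) ((excZ_iff F₁ F₂ δ hβ _).mpr (by rw [e1]; exact hρ))
      have e2 : ((ρ - 1 / 2) / (β : ℂ)).im = ρ.im / β := by
        rw [div_ofReal_im]
        simp
      rw [e2, key] at h4
      exact h4

lemma badR_vol (F₁ F₂ : ℂ → ℂ) {α β : ℝ} (δ T W : ℝ) (hβ : 0 < β) :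
    volume.real (BadR F₁ F₂ (α / β) δ T W) =
      β * volume.real (BadZ F₁ F₂ α β δ (T / β) (W / β)) := by
  rw [badR_eq F₁ F₂ δ T W hβ]
  unfold Measure.real
  rw [Real.volume_preimage_mul_left (inv_pos.mpr hβ).ne', inv_inv, abs_of_pos hβ,
    ENNReal.toReal_mul, ENNReal.toReal_ofReal hβ.le]

lemma ev_const_rpow (C : ℝ) {s : ℝ} (hs : 0 < s) : ∀ᶠ T : ℝ in atTop, C ≤ T ^ s :=
  (tendsto_rpow_atTop hs).eventually_ge_atTop C

section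

variable {M₁ : Type} [CommMonoidWithZero M₁] [NormalizationMonoid M₁]
  [UniqueFactorizationMonoid M₁] [Subsingleton M₁ˣ] [Nontrivial M₁] {N₁ : M₁ →*₀ ℕ} {n₁ : ℕ}
  {M₂ : Type} [CommMonoidWithZero M₂] [NormalizationMonoid M₂]
  [UniqueFactorizationMonoid M₂] [Subsingleton M₂ˣ] [Nontrivial M₂] {N₂ : M₂ →*₀ ℕ} {n₂ : ℕ}
  {ι₁ ι₂ : Type} [Fintype ι₁] [Fintype ι₂]
  {χ₁ : M₁ →*₀ ℂ} {χ₂ : M₂ →*₀ ℂ} {F₁ F₂ : ℂ → ℂ} {R₁ R₂ : ℝ} {e₁ : ι₁ → ℕ} {e₂ : ι₂ → ℕ}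
  {w₁ w₂ : ℂ}

theorem bad_R (hN₁ : NS N₁ n₁) (hN₂ : NS N₂ n₂) (hF₁ : HL N₁ χ₁ F₁ R₁ e₁ w₁)
    (hF₂ : HL N₂ χ₂ F₂ R₂ e₂ w₂) (r δ : ℝ) (hr : 0 < r)
    (hr0 : 0 < r * Fintype.card ι₂ - Fintype.card ι₁)
    (hr1 : r * Fintype.card ι₂ - Fintype.card ι₁ < 1)
    (hr2 : r * Fintype.card ι₂ - Fintype.card ι₁ < r) {ε : ℝ} (hε : 0 < ε) :
    ∃ η : ℝ, 0 < η ∧ ∀ᶠ T : ℝ in atTop,
      volume.real (BadR F₁ F₂ r δ T (T ^ ε)) ≤ T ^ (1 - η) := by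
  obtain ⟨α, β, hα, hβ, hrr, hd0, hd1⟩ : ∃ α β : ℝ, 1 ≤ α ∧ 1 ≤ β ∧ r = α / β ∧
      0 < dg ι₁ ι₂ α β ∧ dg ι₁ ι₂ α β < 1 := by
    rcases le_or_gt 1 r with h | h
    · refine ⟨r, 1, h, le_rfl, by rw [div_one], ?_, ?_⟩
      · unfold dg
        linarith
      · unfold dg
        linarith
    · refine ⟨1, 1 / r, le_rfl, by rw [le_div_iff₀ hr]; linarith, by rw [one_div_one_div], ?_, ?_⟩
      · unfold dg
        have : 1 * (Fintype.card ι₂ : ℝ) - 1 / r * Fintype.card ι₁ =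
            (r * Fintype.card ι₂ - Fintype.card ι₁) / r := by field_simp
        rw [this]
        positivity
      · unfold dg
        have : 1 * (Fintype.card ι₂ : ℝ) - 1 / r * Fintype.card ι₁ =
            (r * Fintype.card ι₂ - Fintype.card ι₁) / r := by field_simp
        rw [this, div_lt_one hr]
        exact hr2
  have hβ0 : 0 < β := by linarith
  obtain ⟨η, hη, hm⟩ := meas_G hN₁ hN₂ hF₁ hF₂ δ hα hβ hd0 hd1 (ε := ε / 2) (by linarith)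
  have hm2 := (tendsto_id.atTop_div_const hβ0).eventually hm
  refine ⟨min η 1 / 2, by positivity, ?_⟩
  filter_upwards [hm2, ev_const_rpow β (s := ε / 2) (by linarith),
    ev_const_rpow β (s := min η 1 / 2) (by positivity), eventually_ge_atTop 1,
    eventually_ge_atTop β] with T hT k1 k2 hT1 hTβ
  simp only [id_eq] at hT
  have hT0 : 0 < T := by linarith
  have hTβ1 : 1 ≤ T / β := by rwa [le_div_iff₀ hβ0, one_mul]
  have hTβ2 : T / β ≤ T := div_le_self hT0.le hβ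
  have hwin : (T / β) ^ (ε / 2) ≤ T ^ ε / β := by
    rw [le_div_iff₀ hβ0]
    calc (T / β) ^ (ε / 2) * β ≤ T ^ (ε / 2) * T ^ (ε / 2) := by gcongr
      _ = T ^ ε := by
          rw [← Real.rpow_add hT0]
          congr 1
          ring
  rw [hrr, badR_vol F₁ F₂ δ T _ hβ0]
  have hmin1 : min η 1 ≤ η := min_le_left _ _
  have hmin2 : min η 1 ≤ 1 := min_le_right _ _
  calc β * volume.real (BadZ F₁ F₂ α β δ (T / β) (T ^ ε / β)) ≤ β * (T / β) ^ (1 - η) := by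
        gcongr
        exact (badZ_mono hwin).trans hT
    _ ≤ β * (T / β) ^ (1 - min η 1) := by
        gcongr
    _ ≤ T ^ (min η 1 / 2) * T ^ (1 - min η 1) := by
        have : 0 ≤ 1 - min η 1 := by linarith
        gcongr
    _ = T ^ (1 - min η 1 / 2) := by
        rw [← Real.rpow_add hT0]
        congr 1
        ring

/-- the zeros of `F` in the strip -/
lemma HL_strip (hF₁ : HL N₁ χ₁ F₁ R₁ e₁ w₁) {ρ : ℂ} (h0 : F₁ ρ = 0) (him : ρ.im ≠ 0) :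
    0 < ρ.re ∧ ρ.re < 1 := by
  constructor
  · by_contra h
    push Not at h
    have h1 := hF₁.fe (1 - (starRingEnd ℂ) ρ) (by simpa using him)
    have e1 : 1 - (starRingEnd ℂ) (1 - (starRingEnd ℂ) ρ) = ρ := by simp
    rw [e1, h0, map_zero, mul_zero] at h1
    exact hF₁.nz _ (by simp; exact h) h1
  · by_contra h
    push Not at h
    exact hF₁.nz _ h h0

lemma HL_finite (hF₁ : HL N₁ χ₁ F₁ R₁ e₁ w₁) {T : ℝ} (hT : 0 < T) :
    {ρ : ℂ | F₁ ρ = 0 ∧ T < ρ.im ∧ ρ.im ≤ 2 * T}.Finite := by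
  have hK : IsCompact (Icc (0 : ℝ) 1 ×ℂ Icc T (2 * T)) := isCompact_Icc.reProdIm isCompact_Icc
  have hsub : {ρ : ℂ | F₁ ρ = 0 ∧ T < ρ.im ∧ ρ.im ≤ 2 * T} ⊆
      (Icc (0 : ℝ) 1 ×ℂ Icc T (2 * T)) ∩ F₁ ⁻¹' {0} := by
    rintro ρ ⟨h0, h1, h2⟩
    have h3 := HL_strip hF₁ h0 (by linarith)
    exact ⟨⟨⟨h3.1.le, h3.2.le⟩, ⟨h1.le, h2⟩⟩, h0⟩
  refine Set.Finite.subset ?_ hsub
  have han : AnalyticOnNhd ℂ F₁ univ := fun w _ => hF₁.diff.analyticAt w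
  have hcod := han.preimage_zero_mem_codiscrete (x := (1 : ℂ)) (hF₁.nz 1 (by simp))
  have h2 := (mem_codiscrete'.mp hcod)
  have h3 : IsClosed (F₁ ⁻¹' {0}) := isClosed_singleton.preimage hF₁.diff.continuous
  have h4 : IsCompact ((Icc (0 : ℝ) 1 ×ℂ Icc T (2 * T)) ∩ F₁ ⁻¹' {0}) := hK.inter_right h3
  refine h4.finite ?_
  refine h2.2.mono ?_
  intro x hx
  simpa using hx.2

lemma count_coverG (hF₁ : HL N₁ χ₁ F₁ R₁ e₁ w₁) (r δ : ℝ) {T W : ℝ} (hT : 0 < T) (hW : 0 ≤ W) :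
    T - 2 * W ≤ volume.real (BadR F₁ F₂ r δ T W) +
      ({ρ : ℂ | ρ ∈ ExcR F₁ F₂ r δ ∧ T < ρ.im ∧ ρ.im ≤ 2 * T}.ncard : ℝ) * (2 * W) := by
  classical
  have hfin : {ρ : ℂ | ρ ∈ ExcR F₁ F₂ r δ ∧ T < ρ.im ∧ ρ.im ≤ 2 * T}.Finite := by
    refine (HL_finite hF₁ hT).subset ?_
    rintro ρ ⟨h1, h2, h3⟩
    exact ⟨h1.1, h2, h3⟩
  set E := hfin.toFinset with hE
  have hcard : {ρ : ℂ | ρ ∈ ExcR F₁ F₂ r δ ∧ T < ρ.im ∧ ρ.im ≤ 2 * T}.ncard = E.card :=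
    Set.ncard_eq_toFinset_card _ hfin
  have hcover : Ioc (T + W) (2 * T - W) ⊆
      BadR F₁ F₂ r δ T W ∪ ⋃ ρ ∈ E, Icc (ρ.im - W) (ρ.im + W) := by
    rintro t ⟨ht1, ht2⟩
    by_cases hb : t ∈ BadR F₁ F₂ r δ T W
    · exact Or.inl hb
    · right
      have hb3 : ¬ ∀ ρ ∈ ExcR F₁ F₂ r δ, W < |ρ.im - t| :=
        fun h => hb ⟨⟨by linarith, by linarith⟩, h⟩
      push Not at hb3
      obtain ⟨ρ, hρ, hρ2⟩ := hb3
      rw [abs_le] at hρ2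
      rw [mem_iUnion₂]
      refine ⟨ρ, ?_, ?_, ?_⟩
      · rw [hE, Set.Finite.mem_toFinset]
        exact ⟨hρ, by linarith, by linarith⟩
      · linarith
      · linarith
  have hfin2 : volume (BadR F₁ F₂ r δ T W) ≠ ⊤ := by
    refine (lt_of_le_of_lt (measure_mono (t := Ioc T (2 * T)) ?_) measure_Ioc_lt_top).ne
    rintro t ⟨g1, -⟩
    exact g1
  have hfin3 : volume (⋃ ρ ∈ E, Icc (ρ.im - W) (ρ.im + W)) ≠ ⊤ := by
    refine (lt_of_le_of_lt (measure_biUnion_finset_le _ _) ?_).ne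
    rw [ENNReal.sum_lt_top]
    intro j _
    exact measure_Icc_lt_top
  have h1 : T - 2 * W ≤ volume.real (Ioc (T + W) (2 * T - W)) := by
    rw [Real.volume_real_Ioc]
    refine le_trans (le_of_eq ?_) (le_max_left _ _)
    ring
  have h2 : volume.real (Ioc (T + W) (2 * T - W)) ≤
      volume.real (BadR F₁ F₂ r δ T W ∪ ⋃ ρ ∈ E, Icc (ρ.im - W) (ρ.im + W)) :=
    measureReal_mono hcover (measure_union_ne_top hfin2 hfin3)
  have h3 := measureReal_union_le (μ := volume) (BadR F₁ F₂ r δ T W)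
    (⋃ ρ ∈ E, Icc (ρ.im - W) (ρ.im + W))
  have h4 : volume.real (⋃ ρ ∈ E, Icc (ρ.im - W) (ρ.im + W)) ≤ ∑ ρ ∈ E, 2 * W := by
    refine (measureReal_biUnion_finset_le _ _).trans (Finset.sum_le_sum fun ρ _ => ?_)
    rw [Real.volume_real_Icc]
    apply max_le
    · apply le_of_eq
      ring
    · linarith
  rw [Finset.sum_const, nsmul_eq_mul] at h4
  rw [hcard]
  linarith

theorem count_R (hN₁ : NS N₁ n₁) (hN₂ : NS N₂ n₂) (hF₁ : HL N₁ χ₁ F₁ R₁ e₁ w₁)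
    (hF₂ : HL N₂ χ₂ F₂ R₂ e₂ w₂) (r δ : ℝ) (hr : 0 < r)
    (hr0 : 0 < r * Fintype.card ι₂ - Fintype.card ι₁)
    (hr1 : r * Fintype.card ι₂ - Fintype.card ι₁ < 1)
    (hr2 : r * Fintype.card ι₂ - Fintype.card ι₁ < r) {ε : ℝ} (hε : 0 < ε) :
    ∀ᶠ T : ℝ in atTop, T ^ (1 - ε) ≤
      (({ρ : ℂ | ρ ∈ ExcR F₁ F₂ r δ ∧ T < ρ.im ∧ ρ.im ≤ 2 * T}.ncard : ℕ) : ℝ) := by
  set s : ℝ := min ε 1 / 2 with hs
  have hs0 : 0 < s := by positivity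
  have hs1 : 2 * s ≤ ε := by
    rw [hs]
    linarith [min_le_left ε 1]
  have hs2 : 2 * s ≤ 1 := by
    rw [hs]
    linarith [min_le_right ε 1]
  obtain ⟨η, hη, hb⟩ := bad_R hN₁ hN₂ hF₁ hF₂ r δ hr hr0 hr1 hr2 hs0
  filter_upwards [hb, ev_const_rpow 8 (s := η) hη, ev_const_rpow 8 (s := 1 - s) (by linarith),
    ev_const_rpow 4 (s := s) hs0, eventually_ge_atTop 1] with T hT k1 k2 k3 hT1
  have hT0 : 0 < T := by linarith
  have hW0 : 0 < T ^ s := Real.rpow_pos_of_pos hT0 _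
  have h1 := count_coverG (F₂ := F₂) hF₁ r δ (T := T) (W := T ^ s) hT0 hW0.le
  have h2 : T ^ (1 - η) ≤ T / 8 := by
    rw [Real.rpow_sub hT0, Real.rpow_one]
    exact div_le_div_of_nonneg_left hT0.le (by norm_num) k1
  have h3 : T ^ s ≤ T / 8 := by
    rw [le_div_iff₀ (by norm_num)]
    calc T ^ s * 8 ≤ T ^ s * T ^ (1 - s) := by gcongr
      _ = T := by
          rw [← Real.rpow_add hT0]
          norm_num
  have h4 : T / 2 ≤ ({ρ : ℂ | ρ ∈ ExcR F₁ F₂ r δ ∧ T < ρ.im ∧ ρ.im ≤ 2 * T}.ncard : ℝ) *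
      (2 * T ^ s) := by linarith
  have h5 : T ^ (1 - ε) ≤ T ^ (1 - s) / T ^ s := by
    rw [← Real.rpow_sub hT0]
    exact Real.rpow_le_rpow_of_exponent_le hT1 (by linarith)
  refine h5.trans ?_
  rw [div_le_iff₀ hW0]
  have h6 : T ^ (1 - s) ≤ T / 4 := by
    rw [Real.rpow_sub hT0, Real.rpow_one]
    exact div_le_div_of_nonneg_left hT0.le (by norm_num) k3
  linarith

end

end Pool.Agent.T9h53.SG
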