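import Pool.Agent.T9h53.SZ.Sum
import Pool.Agent.T9h53.SZ.Core3

/-! # The window inequality for general Dirichlet series -/

set_option autoImplicit false

open Complex Filter Topology Set MeasureTheory

namespace Pool.Agent.T9h53.SG

open Pool.Agent.T9h53.SZ

variable {ι : Type} [Countable ι]

omit [Countable ι] in
/-- the dual polynomial -/
noncomputable def PQ (c : ι → ℂ) (ν : ι → ℝ) (lam : ℝ) (S : Finset ι) (u : ℝ) : ℂ :=
  ∑ p ∈ S, (starRingEnd ℂ) (c p) * cexp (((ν p + lam : ℝ) : ℂ) * ⟨0, u⟩)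

omit [Countable ι] in
lemma PQ_cont (c : ι → ℂ) (ν : ι → ℝ) (lam : ℝ) (S : Finset ι) : Continuous (PQ c ν lam S) := by
  unfold PQ
  simp only [mk_eq]
  fun_prop

theorem right_abs {c : ι → ℂ} {ν : ι → ℝ} {S0 lam H Y t κ : ℝ} {i₀ : ι}
    (hsum : Summable fun p => ‖c p‖ * Real.exp (-ν p))
    (hS0 : ∑' p, ‖c p‖ * Real.exp (-ν p) ≤ S0)
    (hH : 2 ≤ H) (hY : H ≤ Y) (hi : ν i₀ = lam) (hκ : 0 ≤ κ)
    (hgap : ∀ p, c p ≠ 0 → p ≠ i₀ → κ ≤ |lam - ν p|)
    (F : ℂ → ℂ)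
    (hF : ∀ v : ℝ, -Y ≤ v → v ≤ Y → F ⟨1, t + v⟩ =
      ∑' p, c p * cexp (((lam - ν p : ℝ) : ℂ) * ⟨1, t + v⟩)) :
    ‖c i₀‖ * (2 * H * Real.exp (-1) - 2 * Real.exp (1 - Y ^ 2 / H ^ 2)) -
      S0 * (Real.exp lam * tau H Y κ) ≤ ‖VV F H Y t 1‖ := by
  classical
  have hH0 : 0 < H := by linarith
  have hY0 : 0 ≤ Y := by linarith
  have hA : Amp (fun _ => (1 : ℂ)) 1 0 H Y t :=
    ⟨fun z _ _ => differentiableAt_const _, fun σ v _ _ => by simp⟩
  have hsum' : Summable fun p => ‖c p‖ * Real.exp (1 * (lam - ν p)) := by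
    have := hsum.mul_right (Real.exp lam)
    refine this.congr fun p => ?_
    rw [mul_assoc, ← Real.exp_add]
    congr 2
    ring
  have h1 := VV_hasSum c (fun p => lam - ν p) hA hY0 (x := 1)
    (by rw [abs_one]; linarith) hsum'
  have h2 : VV (fun z => 1 * ∑' p, c p * cexp (((lam - ν p : ℝ) : ℂ) * z)) H Y t 1 =
      VV F H Y t 1 := by
    apply VV_congr hY0
    intro v hv1 hv2
    rw [hF v hv1 hv2, one_mul]
  rw [h2] at h1
  set f : ι → ℂ := fun p => c p * VV (tm (fun _ => 1) (lam - ν p)) H Y t 1 with hf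
  have h3 : HasSum (fun p => if p = i₀ then f i₀ else 0) (f i₀) := hasSum_ite_eq i₀ (f i₀)
  have h4 := h1.sub h3
  have h5 : HasSum (fun p => (‖c p‖ * Real.exp (-ν p)) * (Real.exp lam * tau H Y κ))
      ((∑' p, ‖c p‖ * Real.exp (-ν p)) * (Real.exp lam * tau H Y κ)) :=
    hsum.hasSum.mul_right _
  have htau : 0 ≤ tau H Y κ := by
    unfold tau
    positivity
  have h6 : ∀ p, ‖f p - (if p = i₀ then f i₀ else 0)‖ ≤
      (‖c p‖ * Real.exp (-ν p)) * (Real.exp lam * tau H Y κ) := by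
    intro p
    by_cases hp : p = i₀
    · rw [hp, if_pos rfl, sub_self, norm_zero]
      positivity
    · rw [if_neg hp, sub_zero]
      by_cases hc : c p = 0
      · simp [hf, hc]
      · have hg := hgap p hc hp
        have e1 := hA.far (lam - ν p) zero_le_one (by linarith) hY0 (s₀ := 1)
          (η := κ) (by rw [abs_one]) hκ (by rw [sub_zero]; exact hg)
        rw [hf]
        simp only [norm_mul]
        have e2 : 1 * Real.exp (1 * (lam - ν p - 0)) = Real.exp (-ν p) * Real.exp lam := by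
          rw [← Real.exp_add, one_mul]
          congr 1
          ring
        rw [e2] at e1
        calc ‖c p‖ * ‖VV (tm (fun _ => 1) (lam - ν p)) H Y t 1‖ ≤
            ‖c p‖ * (Real.exp (-ν p) * Real.exp lam * tau H Y κ) := by
              gcongr
              exact e1
          _ = _ := by ring
  have h7 := HasSum.norm_le_of_bounded h4 h5 h6
  have h8 : (∑' p, ‖c p‖ * Real.exp (-ν p)) * (Real.exp lam * tau H Y κ) ≤
      S0 * (Real.exp lam * tau H Y κ) := by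
    apply mul_le_mul_of_nonneg_right hS0
    positivity
  have h9 : ‖c i₀‖ * (2 * H * Real.exp (-1) - 2 * Real.exp (1 - Y ^ 2 / H ^ 2)) ≤ ‖f i₀‖ := by
    have e1 : lam - ν i₀ = 0 := by rw [hi, sub_self]
    rw [hf]
    simp only [e1]
    rw [norm_mul]
    have e2 := main_term (t := t) (by linarith : 1 ≤ H) hY
    apply mul_le_mul_of_nonneg_left _ (norm_nonneg _)
    exact e2
  have h10 : ‖f i₀‖ ≤ ‖VV F H Y t 1‖ + ‖VV F H Y t 1 - f i₀‖ := by
    calc ‖f i₀‖ = ‖VV F H Y t 1 - (VV F H Y t 1 - f i₀)‖ := by rw [sub_sub_cancel]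
      _ ≤ _ := norm_sub_le _ _
  linarith

theorem left_abs {c : ι → ℂ} {ν : ι → ℝ} {S0 lam H Y t η C E : ℝ} {G : ℂ → ℂ}
    (hsum : Summable fun p => ‖c p‖ * Real.exp (-ν p))
    (hS0 : ∑' p, ‖c p‖ * Real.exp (-ν p) ≤ S0)
    (hH : 2 ≤ H) (hY : 0 ≤ Y) (hC : 0 ≤ C)
    (hη : 0 ≤ η) (hA : Amp G C E H Y t) (S : Finset ι)
    (hS1 : ∀ p ∉ S, c p ≠ 0 → η ≤ |ν p + lam - E|)
    (hS2 : ∀ p ∈ S, |ν p + lam - E| ≤ 1)
    (F : ℂ → ℂ)
    (hF : ∀ v : ℝ, -Y ≤ v → v ≤ Y → F ⟨-1, t + v⟩ =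
      G ⟨-1, t + v⟩ * ∑' p, (starRingEnd ℂ) (c p) *
        cexp (((ν p + lam : ℝ) : ℂ) * ⟨-1, t + v⟩)) :
    ‖VV F H Y t (-1)‖ ≤ C * (∫ v in (-Y)..Y, ‖PQ c ν lam S (t + v)‖ *
      Real.exp (-(v ^ 2 / H ^ 2))) +
      S0 * (C * Real.exp E * Real.exp (-lam) * tau H Y η) := by
  classical
  have hH0 : 0 < H := by linarith
  have hnorm : ∀ p, ‖(starRingEnd ℂ) (c p)‖ = ‖c p‖ := fun p => Complex.norm_conj _
  have hsum' : Summable fun p => ‖(starRingEnd ℂ) (c p)‖ *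
      Real.exp (-1 * (ν p + lam)) := by
    have := hsum.mul_right (Real.exp (-lam))
    refine this.congr fun p => ?_
    rw [hnorm, mul_assoc, ← Real.exp_add]
    congr 2
    ring
  have h1 := VV_hasSum (fun p => (starRingEnd ℂ) (c p)) (fun p => ν p + lam) hA hY (x := -1)
    (by rw [abs_neg, abs_one]; linarith) hsum'
  have h2 : VV (fun z => G z * ∑' p, (starRingEnd ℂ) (c p) *
      cexp (((ν p + lam : ℝ) : ℂ) * z)) H Y t (-1) = VV F H Y t (-1) := by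
    apply VV_congr hY
    intro v hv1 hv2
    rw [hF v hv1 hv2]
  rw [h2] at h1
  set g : ι → ℂ := fun p => (starRingEnd ℂ) (c p) * VV (tm G (ν p + lam)) H Y t 0 with hg
  have h3 : HasSum (fun p => if p ∈ S then g p else 0) (∑ p ∈ S, g p) := by
    have : HasSum (fun p => if p ∈ S then g p else 0) (∑ p ∈ S, (if p ∈ S then g p else 0)) :=
      hasSum_sum_of_ne_finset_zero (fun p hp => if_neg hp)
    have e1 : ∑ p ∈ S, (if p ∈ S then g p else 0) = ∑ p ∈ S, g p :=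
      Finset.sum_congr rfl fun p hp => if_pos hp
    rwa [e1] at this
  have h4 := h1.sub h3
  have htau : 0 ≤ tau H Y η := by
    unfold tau
    positivity
  have h5 : HasSum (fun p => (‖c p‖ * Real.exp (-ν p)) *
      (C * Real.exp E * Real.exp (-lam) * tau H Y η))
      ((∑' p, ‖c p‖ * Real.exp (-ν p)) * (C * Real.exp E * Real.exp (-lam) * tau H Y η)) :=
    hsum.hasSum.mul_right _
  have e2 : ∀ p, C * Real.exp (-1 * (ν p + lam - E)) =
      C * Real.exp E * Real.exp (-lam) * Real.exp (-ν p) := by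
    intro p
    rw [mul_assoc, mul_assoc, ← Real.exp_add, ← Real.exp_add]
    congr 2
    ring
  have hneartau : 2 * Real.exp 1 * Real.exp (1 - Y ^ 2 / H ^ 2) ≤ tau H Y η := by
    unfold tau
    have h10 : Real.exp 1 ≤ 3 := Real.exp_one_lt_three.le
    have h11 : 2 * Real.exp 1 * Real.exp (1 - Y ^ 2 / H ^ 2) ≤
        2 * (H + 1) * Real.exp (1 - Y ^ 2 / H ^ 2) := by
      gcongr
      linarith
    have h12 : 0 ≤ 2 * Real.exp 1 * Y * Real.exp (-((H - 1) * η)) := by positivity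
    linarith
  have h6 : ∀ p, ‖(starRingEnd ℂ) (c p) * VV (tm G (ν p + lam)) H Y t (-1) -
      (if p ∈ S then g p else 0)‖ ≤ (‖c p‖ * Real.exp (-ν p)) *
        (C * Real.exp E * Real.exp (-lam) * tau H Y η) := by
    intro p
    by_cases hp : p ∈ S
    · rw [if_pos hp, hg]
      simp only
      rw [← mul_sub, norm_mul, hnorm]
      have e1 := hA.near (ν p + lam) hC (by linarith) hY (hS2 p hp)
      rw [e2] at e1
      calc ‖c p‖ * ‖VV (tm G (ν p + lam)) H Y t (-1) - VV (tm G (ν p + lam)) H Y t 0‖ ≤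
          ‖c p‖ * (C * Real.exp E * Real.exp (-lam) * Real.exp (-ν p) * tau H Y η) := by
            gcongr
            refine e1.trans ?_
            gcongr
        _ = _ := by ring
    · rw [if_neg hp, sub_zero, norm_mul, hnorm]
      rcases eq_or_ne (c p) 0 with hc | hc
      · rw [hc, norm_zero, zero_mul, zero_mul, zero_mul]
      have e1 := hA.far (ν p + lam) hC (by linarith) hY (s₀ := -1)
          (η := η) (by rw [abs_neg, abs_one]) hη (hS1 p hp hc)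
      rw [e2] at e1
      calc ‖c p‖ * ‖VV (tm G (ν p + lam)) H Y t (-1)‖ ≤
          ‖c p‖ * (C * Real.exp E * Real.exp (-lam) * Real.exp (-ν p) * tau H Y η) := by
            gcongr
            exact e1
        _ = _ := by ring
  have h7 := HasSum.norm_le_of_bounded h4 h5 h6
  have h8 : (∑' p, ‖c p‖ * Real.exp (-ν p)) * (C * Real.exp E * Real.exp (-lam) * tau H Y η) ≤
      S0 * (C * Real.exp E * Real.exp (-lam) * tau H Y η) := by
    apply mul_le_mul_of_nonneg_right hS0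
    positivity
  have h9 : ∑ p ∈ S, g p = ∫ v in (-Y)..Y, G ⟨0, t + v⟩ * PQ c ν lam S (t + v) * ker H 0 v := by
    rw [hg]
    unfold VV PQ tm
    rw [← Finset.sum_congr rfl (fun p _ => intervalIntegral.integral_const_mul _ _),
      ← intervalIntegral.integral_finsetSum]
    · apply intervalIntegral.integral_congr
      intro v _
      simp only
      rw [Finset.mul_sum, Finset.sum_mul]
      refine Finset.sum_congr rfl fun p _ => ?_
      ring
    · intro p _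
      apply ContinuousOn.intervalIntegrable
      rw [uIcc_of_le (by linarith)]
      refine continuousOn_const.mul (ContinuousOn.mul (ContinuousOn.mul
        (hA.contOn (by rw [abs_zero]; linarith)) ?_) (ker_cont H 0).continuousOn)
      simp only [mk_eq]
      fun_prop
  have h10 : ‖∑ p ∈ S, g p‖ ≤ C * (∫ v in (-Y)..Y, ‖PQ c ν lam S (t + v)‖ *
      Real.exp (-(v ^ 2 / H ^ 2))) := by
    rw [h9, ← intervalIntegral.integral_const_mul]
    apply intervalIntegral.norm_integral_le_of_norm_le (by linarith)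
    · refine Filter.Eventually.of_forall fun v hv => ?_
      have hv2 : |v| ≤ Y := abs_le.mpr ⟨hv.1.le, hv.2⟩
      have e1 := hA.bd 0 v (by rw [abs_zero]; linarith) hv2
      rw [zero_mul, neg_zero, Real.exp_zero, mul_one] at e1
      rw [norm_mul, norm_mul, ker_norm]
      have e3 : ((0 : ℝ) ^ 2 - v ^ 2) / H ^ 2 = -(v ^ 2 / H ^ 2) := by ring
      rw [e3, mul_assoc]
      apply mul_le_mul_of_nonneg_right e1
      positivity
    · apply Continuous.intervalIntegrable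
      have := PQ_cont c ν lam S
      fun_prop
  have h11 : ‖VV F H Y t (-1)‖ ≤ ‖∑ p ∈ S, g p‖ + ‖VV F H Y t (-1) - ∑ p ∈ S, g p‖ := by
    calc ‖VV F H Y t (-1)‖ = ‖∑ p ∈ S, g p + (VV F H Y t (-1) - ∑ p ∈ S, g p)‖ := by
          rw [add_sub_cancel]
      _ ≤ _ := norm_add_le _ _
  linarith

/-- `T` is so large that the errors are negligible -/
def Big (a ℓ : ℝ) : Prop := 1 ≤ ℓ ∧ 1000 * Real.exp ((5 * a + 1) * ℓ - ℓ ^ 2) ≤ 1

lemma big_eventually (a : ℝ) : ∀ᶠ ℓ : ℝ in atTop, Big a ℓ := by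
  have htend : Tendsto (fun x : ℝ => 1000 * Real.exp ((5 * a + 1) * x - x ^ 2)) atTop
      (𝓝 (1000 * 0)) := by
    apply Tendsto.const_mul
    apply Real.tendsto_exp_atBot.comp
    have : (fun x : ℝ => (5 * a + 1) * x - x ^ 2) = fun x : ℝ => x * ((5 * a + 1) - x) := by
      funext x; ring
    rw [this]
    exact tendsto_id.atTop_mul_atBot₀ (tendsto_atBot_add_const_left _ _ tendsto_neg_atTop_atBot)
  rw [mul_zero] at htend
  filter_upwards [htend.eventually (Iio_mem_nhds (show (0 : ℝ) < 1 by norm_num)),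
    eventually_ge_atTop 1] with ℓ h1 h2
  exact ⟨h2, h1.le⟩

/-- the final arithmetic -/
lemma final_abs {a ℓ H w C S eE el el' k1 τ1 τ2 B V1 V2 J : ℝ} (ha : 0 ≤ a) (hb : Big a ℓ)
    (hH : 2 ≤ H) (hC0 : 0 < C) (hC : C ≤ Real.exp (a * ℓ)) (hS0 : 0 ≤ S)
    (hS : S ≤ Real.exp (a * ℓ)) (hE0 : 0 ≤ eE) (hE : eE ≤ Real.exp (a * ℓ)) (hl0 : 0 ≤ el)
    (hl : el ≤ Real.exp (a * ℓ)) (hl0' : 0 ≤ el') (hl' : el' ≤ Real.exp (a * ℓ))
    (hw1 : Real.exp (-(a * ℓ)) ≤ w) (hw2 : w ≤ Real.exp (a * ℓ))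
    (hk0 : 0 ≤ k1) (hk : k1 ≤ 3 * Real.exp (-ℓ ^ 2))
    (hτ10 : 0 ≤ τ1) (hτ1 : τ1 ≤ 20 * H * ℓ * Real.exp (-ℓ ^ 2))
    (hτ20 : 0 ≤ τ2) (hτ2 : τ2 ≤ 20 * H * ℓ * Real.exp (-ℓ ^ 2))
    (hB : B ≤ 6 * Real.exp (3 * (a * ℓ)) * Real.exp (-ℓ ^ 2))
    (hright : w * (2 * H * Real.exp (-1) - 2 * k1) - S * (el * τ1) ≤ V1)
    (hleft : V2 ≤ J + S * (C * eE * el' * τ2))
    (hshift : V1 ≤ V2 + 2 * (B * (1 - -1))) : w * H / 2 ≤ J := by
  obtain ⟨hℓ, hbig⟩ := hb
  set X := Real.exp (-ℓ ^ 2) with hX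
  set A := Real.exp (a * ℓ) with hA
  have hX0 : 0 < X := Real.exp_pos _
  have hA1 : 1 ≤ A := Real.one_le_exp (by positivity)
  have hH0 : 0 < H := by linarith
  have hℓe : ℓ ≤ Real.exp ℓ := by
    have := Real.add_one_le_exp ℓ
    linarith
  have hA3 : Real.exp (3 * (a * ℓ)) = A ^ 3 := by
    rw [hA, ← Real.exp_nat_mul]
    norm_num
  rw [hA3] at hB
  set W := H * ℓ * X * A ^ 4 with hW
  have hA34 : A ^ 3 ≤ A ^ 4 := pow_le_pow_right₀ hA1 (by norm_num)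
  have hA24 : A ^ 2 ≤ A ^ 4 := pow_le_pow_right₀ hA1 (by norm_num)
  have hA14 : A ≤ A ^ 4 := by
    calc A = A ^ 1 := (pow_one A).symm
      _ ≤ A ^ 4 := pow_le_pow_right₀ hA1 (by norm_num)
  have hHℓ : 1 ≤ H * ℓ := by nlinarith
  have hXA : ∀ y : ℝ, 0 ≤ y → y ≤ A ^ 4 → X * y ≤ W := by
    intro y hy0 hy
    rw [hW]
    calc X * y ≤ X * A ^ 4 := by gcongr
      _ = 1 * (X * A ^ 4) := (one_mul _).symm
      _ ≤ (H * ℓ) * (X * A ^ 4) := by
          apply mul_le_mul_of_nonneg_right hHℓ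
          positivity
      _ = _ := by ring
  have hW0 : 0 < W := by positivity
  have hw0 : 0 < w := (Real.exp_pos _).trans_le hw1
  have E1 : w * (2 * k1) ≤ 6 * W := by
    calc w * (2 * k1) ≤ A * (2 * (3 * X)) := by gcongr
      _ = 6 * (X * A) := by ring
      _ ≤ 6 * W := by
          have := hXA A (by linarith) hA14
          linarith
  have E2 : S * (el * τ1) ≤ 20 * W := by
    calc S * (el * τ1) ≤ A * (A * (20 * H * ℓ * X)) := by gcongr
      _ = 20 * (H * ℓ * X * A ^ 2) := by ring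
      _ ≤ 20 * W := by
          rw [hW]
          gcongr
  have E3 : 2 * (B * (1 - -1)) ≤ 24 * W := by
    have := hXA (A ^ 3) (by positivity) hA34
    linarith
  have E4 : S * (C * eE * el' * τ2) ≤ 20 * W := by
    calc S * (C * eE * el' * τ2) ≤ A * (A * A * A * (20 * H * ℓ * X)) := by gcongr
      _ = 20 * W := by rw [hW]; ring
  have hWsmall : 70 * W ≤ 0.07 * (H * w) := by
    have h1 : ℓ * X * A ^ 4 ≤ Real.exp ((5 * a + 1) * ℓ - ℓ ^ 2) * Real.exp (-(a * ℓ)) := by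
      have e1 : Real.exp ((5 * a + 1) * ℓ - ℓ ^ 2) * Real.exp (-(a * ℓ)) =
          Real.exp ℓ * X * A ^ 4 := by
        rw [hX, hA, ← Real.exp_nat_mul, ← Real.exp_add, ← Real.exp_add, ← Real.exp_add]
        congr 1
        push_cast
        ring
      rw [e1]
      gcongr
    have h2 : Real.exp ((5 * a + 1) * ℓ - ℓ ^ 2) ≤ 0.001 := by linarith
    have h3 : ℓ * X * A ^ 4 ≤ 0.001 * w := by
      refine h1.trans ?_
      exact mul_le_mul h2 hw1 (Real.exp_pos _).le (by norm_num)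
    calc 70 * W = 70 * (H * (ℓ * X * A ^ 4)) := by rw [hW]; ring
      _ ≤ 70 * (H * (0.001 * w)) := by
          apply mul_le_mul_of_nonneg_left _ (by norm_num)
          exact mul_le_mul_of_nonneg_left h3 hH0.le
      _ = 0.07 * (H * w) := by ring
  have he27 : Real.exp 1 ≤ 2.7183 := by
    have := Real.exp_one_lt_d9
    linarith
  have hinv : 0.735 ≤ 2 * Real.exp (-1) := by
    rw [Real.exp_neg]
    have h13 : (2.7183 : ℝ)⁻¹ ≤ (Real.exp 1)⁻¹ := inv_anti₀ (Real.exp_pos 1) he27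
    have h14 : (0.735 : ℝ) ≤ 2 * (2.7183 : ℝ)⁻¹ := by norm_num
    linarith
  have hmain : 0.735 * (w * H) ≤ w * (2 * H * Real.exp (-1)) := by
    calc 0.735 * (w * H) ≤ (2 * Real.exp (-1)) * (w * H) := by gcongr
      _ = _ := by ring
  have hsplit : w * (2 * H * Real.exp (-1) - 2 * k1) =
      w * (2 * H * Real.exp (-1)) - w * (2 * k1) := by ring
  rw [hsplit] at hright
  have hqH : 0 ≤ w * H := by positivity
  nlinarith

set_option maxHeartbeats 4000000 in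
/-- **the window inequality** -/
theorem core_abs {a ℓ H : ℝ} (ha : 0 ≤ a) (hb : Big a ℓ) (hH : 2 ≤ H)
    {c : ι → ℂ} {ν : ι → ℝ} {G D : ℂ → ℂ} {C E lam κ η t : ℝ} {i₀ : ι}
    (hC0 : 0 < C) (hC : C ≤ Real.exp (a * ℓ))
    (hsum : Summable fun p => ‖c p‖ * Real.exp (-ν p))
    (hS0 : ∑' p, ‖c p‖ * Real.exp (-ν p) ≤ Real.exp (a * ℓ))
    (hlam : |lam| ≤ a * ℓ) (hE : |E| ≤ a * ℓ)
    (hw1 : Real.exp (-(a * ℓ)) ≤ ‖c i₀‖) (hw2 : ‖c i₀‖ ≤ Real.exp (a * ℓ)) (hi : ν i₀ = lam)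
    (hκ : 0 ≤ κ) (hη : 0 ≤ η) (hκ2 : ℓ ^ 2 ≤ (H - 1) * κ) (hη2 : ℓ ^ 2 ≤ (H - 1) * η)
    (hgap : ∀ p, c p ≠ 0 → p ≠ i₀ → κ ≤ |lam - ν p|)
    (hA : Amp G C E H (2 * H * ℓ) t)
    (hD : ∀ z : ℂ, |z.im - t| ≤ 2 * H * ℓ → DifferentiableAt ℂ D z)
    (hfe : ∀ z : ℂ, |z.im - t| ≤ 2 * H * ℓ → D z = G z * (starRingEnd ℂ) (D (-(starRingEnd ℂ) z)))
    (hser : ∀ v : ℝ, |v| ≤ 2 * H * ℓ → D ⟨1, t + v⟩ =
      ∑' p, c p * cexp (-(ν p : ℂ) * ⟨1, t + v⟩))
    (hbox : ∀ x τ : ℝ, 0 ≤ x → x ≤ 1 → |τ - t| ≤ 2 * H * ℓ → ‖D ⟨x, τ⟩‖ ≤ Real.exp (ℓ ^ 2))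
    (S : Finset ι) (hS1 : ∀ p ∉ S, c p ≠ 0 → η ≤ |ν p + lam - E|)
    (hS2 : ∀ p ∈ S, |ν p + lam - E| ≤ 1) :
    ‖c i₀‖ * H / 2 ≤ C * ∫ v in (-(2 * H * ℓ))..(2 * H * ℓ),
      ‖PQ c ν lam S (t + v)‖ * Real.exp (-(v ^ 2 / H ^ 2)) := by
  have hℓ : 1 ≤ ℓ := hb.1
  have hH0 : 0 < H := by linarith
  set Y := 2 * H * ℓ with hYdef
  have hY0 : 0 ≤ Y := by positivity
  have hHYle : H ≤ Y := by rw [hYdef]; nlinarith
  have hexpn : ∀ c v : ℝ, ‖cexp (((lam : ℝ) : ℂ) * (⟨c, v⟩ : ℂ))‖ = Real.exp (c * lam) :=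
    fun c v => exp_norm _ _ _
  set F : ℂ → ℂ := fun z => D z * cexp (((lam : ℝ) : ℂ) * z) with hF
  have hright := right_abs (t := t) hsum hS0 hH hHYle hi hκ hgap F (by
    intro v hv1 hv2
    rw [hF]
    simp only
    rw [hser v (abs_le.mpr ⟨hv1, hv2⟩), ← tsum_mul_right]
    refine tsum_congr fun p => ?_
    rw [mul_assoc, ← Complex.exp_add]
    congr 2
    push_cast
    ring)
  have hleft := left_abs (t := t) (lam := lam) hsum hS0 hH hY0 hC0.le hη hA S hS1 hS2 F (by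
    intro v hv1 hv2
    have hv : |v| ≤ Y := abs_le.mpr ⟨hv1, hv2⟩
    have e2 : -(starRingEnd ℂ) (⟨-1, t + v⟩ : ℂ) = ⟨1, t + v⟩ := by
      apply Complex.ext <;> simp
    rw [hF]
    simp only
    rw [hfe ⟨-1, t + v⟩ (by simpa using hv), e2, hser v hv, mul_assoc, conj_tsum, ← tsum_mul_right]
    congr 1
    refine tsum_congr fun p => ?_
    rw [map_mul, mul_assoc, ← Complex.exp_conj, ← Complex.exp_add]
    congr 2
    simp only [map_mul, map_neg, conj_ofReal]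
    have e3 : (starRingEnd ℂ) (⟨1, t + v⟩ : ℂ) = -⟨-1, t + v⟩ := by
      apply Complex.ext <;> simp
    rw [e3]
    push_cast
    ring)
  -- the shift
  set X := Real.exp (-ℓ ^ 2) with hXdef
  set B : ℝ := (2 * Real.exp (3 * (a * ℓ))) * (Real.exp (ℓ ^ 2) * Real.exp (1 - Y ^ 2 / H ^ 2))
    with hB
  have haℓ : 0 ≤ a * ℓ := by positivity
  have hE3 : Real.exp (3 * (a * ℓ)) = Real.exp (a * ℓ) * Real.exp (a * ℓ) * Real.exp (a * ℓ) := by
    rw [← Real.exp_add, ← Real.exp_add]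
    congr 1
    ring
  have hA1 : 1 ≤ Real.exp (a * ℓ) := Real.one_le_exp haℓ
  have hmulabs : ∀ c y : ℝ, |c| ≤ 1 → |y| ≤ a * ℓ → Real.exp (c * y) ≤ Real.exp (a * ℓ) := by
    intro c y hc hy
    apply Real.exp_le_exp.mpr
    calc c * y ≤ |c * y| := le_abs_self _
      _ = |c| * |y| := abs_mul _ _
      _ ≤ 1 * (a * ℓ) := mul_le_mul hc hy (abs_nonneg _) (by norm_num)
      _ = a * ℓ := one_mul _
  have hhor : ∀ τ : ℝ, |τ - t| = Y → ∀ c : ℝ, -1 ≤ c → c ≤ 1 →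
      ‖F ⟨c, τ⟩‖ * Real.exp ((c ^ 2 - Y ^ 2) / H ^ 2) ≤ B := by
    intro τ hτt c hc1 hc2
    have hker := ker_edge (H := H) (Y := Y) (c := c) hH0 (abs_le.mpr ⟨by linarith, by linarith⟩)
    have hcabs : |c| ≤ 1 := abs_le.mpr ⟨hc1, hc2⟩
    have hFn : ‖F ⟨c, τ⟩‖ ≤ (2 * Real.exp (3 * (a * ℓ))) * Real.exp (ℓ ^ 2) := by
      rw [hF]
      simp only
      rw [norm_mul, hexpn]
      have hX := Real.exp_pos (ℓ ^ 2)
      have e2 := hmulabs c lam hcabs hlam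
      have hbig1 : Real.exp (a * ℓ) ≤ 2 * Real.exp (3 * (a * ℓ)) := by
        rw [hE3]
        nlinarith [mul_le_mul hA1 hA1 (by norm_num) (by linarith : 0 ≤ Real.exp (a * ℓ))]
      rcases le_or_gt 0 c with hc | hc
      · have e1 := hbox c τ hc hc2 hτt.le
        calc ‖D ⟨c, τ⟩‖ * Real.exp (c * lam) ≤ Real.exp (ℓ ^ 2) * Real.exp (a * ℓ) := by gcongr
          _ = Real.exp (a * ℓ) * Real.exp (ℓ ^ 2) := mul_comm _ _
          _ ≤ _ := by gcongr
      · have e4 : -(starRingEnd ℂ) (⟨c, τ⟩ : ℂ) = ⟨-c, τ⟩ := by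
          apply Complex.ext <;> simp
        have e1 := hbox (-c) τ (by linarith) (by linarith) hτt.le
        have e5 : ‖G ⟨c, τ⟩‖ ≤ Real.exp (a * ℓ) * Real.exp (a * ℓ) := by
          have e6 := hA.bd c (τ - t) (hcabs.trans (by linarith)) hτt.le
          rw [add_sub_cancel] at e6
          refine e6.trans ?_
          have := hmulabs (-c) E (by rwa [abs_neg]) hE
          rw [neg_mul] at this
          exact mul_le_mul hC this (Real.exp_pos _).le (Real.exp_pos _).le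
        rw [hfe _ (by simpa using hτt.le), e4, norm_mul, Complex.norm_conj]
        calc ‖G ⟨c, τ⟩‖ * ‖D ⟨-c, τ⟩‖ * Real.exp (c * lam) ≤
            (Real.exp (a * ℓ) * Real.exp (a * ℓ)) * Real.exp (ℓ ^ 2) * Real.exp (a * ℓ) := by gcongr
          _ = Real.exp (3 * (a * ℓ)) * Real.exp (ℓ ^ 2) := by rw [hE3]; ring
          _ ≤ _ := by
              gcongr
              have := Real.exp_pos (3 * (a * ℓ))
              linarith
    rw [hB]
    calc ‖F ⟨c, τ⟩‖ * Real.exp ((c ^ 2 - Y ^ 2) / H ^ 2) ≤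
        ((2 * Real.exp (3 * (a * ℓ))) * Real.exp (ℓ ^ 2)) * Real.exp (1 - Y ^ 2 / H ^ 2) := by
          gcongr
      _ = _ := by ring
  have hshift : ‖VV F H Y t 1 - VV F H Y t (-1)‖ ≤ 2 * (B * (1 - -1)) := by
    apply shift_le hY0 (by norm_num)
    · intro z hz1 hz2 hz3 hz4
      rw [hF]
      exact (hD z (abs_le.mpr ⟨by linarith, by linarith⟩)).mul (by fun_prop)
    · intro c hc1 hc2
      exact hhor _ (by rw [add_sub_cancel_left, abs_neg, abs_of_nonneg hY0]) c hc1 hc2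
    · intro c hc1 hc2
      exact hhor _ (by rw [add_sub_cancel_left, abs_of_nonneg hY0]) c hc1 hc2
  have htri : ‖VV F H Y t 1‖ ≤ ‖VV F H Y t (-1)‖ + ‖VV F H Y t 1 - VV F H Y t (-1)‖ := by
    calc ‖VV F H Y t 1‖ = ‖VV F H Y t (-1) + (VV F H Y t 1 - VV F H Y t (-1))‖ := by
          rw [add_sub_cancel]
      _ ≤ _ := norm_add_le _ _
  have hkey : Y ^ 2 / H ^ 2 = 4 * ℓ ^ 2 := by
    rw [hYdef]
    field_simp
    ring
  have he3 : Real.exp 1 ≤ 3 := Real.exp_one_lt_three.le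
  have hℓ20 : 0 ≤ ℓ ^ 2 := sq_nonneg ℓ
  have hk1 : Real.exp (1 - Y ^ 2 / H ^ 2) ≤ 3 * X := by
    rw [hkey, sub_eq_add_neg, Real.exp_add]
    apply mul_le_mul he3 _ (Real.exp_pos _).le (by norm_num)
    apply Real.exp_le_exp.mpr
    linarith
  have hk2 : Real.exp (ℓ ^ 2) * Real.exp (1 - Y ^ 2 / H ^ 2) ≤ 3 * X := by
    rw [hkey, ← Real.exp_add, show ℓ ^ 2 + (1 - 4 * ℓ ^ 2) = 1 + (-(3 * ℓ ^ 2)) by ring,
      Real.exp_add]
    apply mul_le_mul he3 _ (Real.exp_pos _).le (by norm_num)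
    apply Real.exp_le_exp.mpr
    linarith
  have htκ : tau H Y κ ≤ 20 * H * ℓ * X := tau_le hH hℓ hκ2
  have htη : tau H Y η ≤ 20 * H * ℓ * X := tau_le hH hℓ hη2
  have htκ0 : 0 ≤ tau H Y κ := by unfold tau; positivity
  have htη0 : 0 ≤ tau H Y η := by unfold tau; positivity
  have hBle : B ≤ 6 * Real.exp (3 * (a * ℓ)) * X := by
    rw [hB]
    calc _ ≤ (2 * Real.exp (3 * (a * ℓ))) * (3 * X) :=
          mul_le_mul_of_nonneg_left hk2 (by positivity)
      _ = _ := by ring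
  have hS00 : 0 ≤ ∑' p, ‖c p‖ * Real.exp (-ν p) := tsum_nonneg fun p => by positivity
  have hmulabs1 : ∀ y : ℝ, |y| ≤ a * ℓ → Real.exp y ≤ Real.exp (a * ℓ) := by
    intro y hy
    exact Real.exp_le_exp.mpr ((le_abs_self y).trans hy)
  exact final_abs ha hb hH hC0 hC (Real.exp_pos (a * ℓ)).le le_rfl (Real.exp_pos E).le
    (hmulabs1 E hE) (Real.exp_pos lam).le (hmulabs1 lam hlam) (Real.exp_pos (-lam)).le
    (hmulabs1 (-lam) (by rwa [abs_neg])) hw1 hw2 (Real.exp_pos _).le hk1 htκ0 htκ htη0 htη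
    hBle hright hleft (htri.trans (by linarith))

end Pool.Agent.T9h53.SG
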