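import Pool.Agent.T9h53.SG.Win

/-! # The measure of the bad heights -/

set_option autoImplicit false
set_option linter.unusedSectionVars false

open Complex Filter Topology Set MeasureTheory

namespace Pool.Agent.T9h53.SG

open Pool.Agent.T9h53.SZ
open Pool.Agent.T9h27.D

/-- the exceptional points -/
def ExcZ (F₁ F₂ : ℂ → ℂ) (α β δ : ℝ) : Set ℂ := {z : ℂ | F₁ (1 / 2 + β * z) = 0 ∧
  analyticOrderAt F₂ (1 / 2 + δ * I + α * z) < analyticOrderAt F₁ (1 / 2 + β * z)}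

/-- the heights far from all exceptional points -/
def BadZ (F₁ F₂ : ℂ → ℂ) (α β δ T W : ℝ) : Set ℝ :=
  {t : ℝ | T < t ∧ t ≤ 2 * T ∧ ∀ z ∈ ExcZ F₁ F₂ α β δ, W < |z.im - t|}

section

variable {M₁ : Type} [CommMonoidWithZero M₁] [NormalizationMonoid M₁]
  [UniqueFactorizationMonoid M₁] [Subsingleton M₁ˣ] [Nontrivial M₁] {N₁ : M₁ →*₀ ℕ} {n₁ : ℕ}
  {M₂ : Type} [CommMonoidWithZero M₂] [NormalizationMonoid M₂]
  [UniqueFactorizationMonoid M₂] [Subsingleton M₂ˣ] [Nontrivial M₂] {N₂ : M₂ →*₀ ℕ} {n₂ : ℕ}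
  {ι₁ ι₂ : Type} [Fintype ι₁] [Fintype ι₂]
  {χ₁ : M₁ →*₀ ℂ} {χ₂ : M₂ →*₀ ℂ} {F₁ F₂ : ℂ → ℂ} {R₁ R₂ : ℝ} {e₁ : ι₁ → ℕ} {e₂ : ι₂ → ℕ}
  {w₁ w₂ : ℂ}

theorem exists_DG (hF₁ : HL N₁ χ₁ F₁ R₁ e₁ w₁) (hF₂ : Differentiable ℂ F₂) {α β : ℝ} (δ : ℝ)
    (hα : 0 < α) (hβ : 0 < β) {t W : ℝ} (hbad : ∀ z ∈ ExcZ F₁ F₂ α β δ, W < |z.im - t|) :
    ∃ D : ℂ → ℂ, (∀ z : ℂ, |z.im - t| < W → AnalyticAt ℂ D z) ∧
      (∀ z : ℂ, |z.im - t| < W → F₂ (1 / 2 + δ * I + α * z) = D z * F₁ (1 / 2 + β * z)) := by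
  set U : Set ℂ := {z : ℂ | |z.im - t| < W} with hU
  have hUo : IsOpen U := by
    have : Continuous fun z : ℂ => |z.im - t| := by fun_prop
    exact isOpen_lt this continuous_const
  have hd1 : Differentiable ℂ (fun w => F₁ (1 / 2 + β * w)) := hF₁.diff.comp (by fun_prop)
  have hd2 : Differentiable ℂ (fun w => F₂ (1 / 2 + δ * I + α * w)) := hF₂.comp (by fun_prop)
  obtain ⟨g, hg1, hg2⟩ := exists_quot (U := U)
    (f := fun w => F₂ (1 / 2 + δ * I + α * w))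
    (h := fun w => F₁ (1 / 2 + β * w)) hUo
    (fun z _ => hd2.analyticAt z) (fun z _ => hd1.analyticAt z)
    (fun z _ => order_ne_topG hF₁ hβ z) (by
      intro z hz
      by_contra hcon
      push Not at hcon
      have e1 : analyticOrderAt (fun w => F₁ (1 / 2 + β * w)) z =
          analyticOrderAt F₁ (1 / 2 + β * z) := by
        have hder : deriv (fun w : ℂ => 1 / 2 + β * w) z = β := by
          have : HasDerivAt (fun w : ℂ => 1 / 2 + β * w) (β * 1) z :=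
            ((hasDerivAt_id z).const_mul (β : ℂ)).const_add _
          rw [this.deriv, mul_one]
        have := analyticOrderAt_comp_of_deriv_ne_zero (f := F₁)
          (g := fun w : ℂ => 1 / 2 + β * w) (z₀ := z) (by fun_prop) (by
            rw [hder]
            exact_mod_cast hβ.ne')
        exact this
      have e2 : analyticOrderAt (fun w => F₂ (1 / 2 + δ * I + α * w))
          z = analyticOrderAt F₂ (1 / 2 + δ * I + α * z) := by
        have hder : deriv (fun w : ℂ => 1 / 2 + δ * I + α * w) z = α := by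
          have : HasDerivAt (fun w : ℂ => 1 / 2 + δ * I + α * w) (α * 1) z :=
            ((hasDerivAt_id z).const_mul (α : ℂ)).const_add _
          rw [this.deriv, mul_one]
        have := analyticOrderAt_comp_of_deriv_ne_zero (f := F₂)
          (g := fun w : ℂ => 1 / 2 + δ * I + α * w) (z₀ := z) (by fun_prop) (by
            rw [hder]
            exact_mod_cast hα.ne')
        exact this
      rw [e1, e2] at hcon
      have h1 := hbad z (by
        refine ⟨?_, hcon⟩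
        by_contra hne
        have han : AnalyticAt ℂ F₁ (1 / 2 + β * z) := hF₁.diff.analyticAt _
        rw [(han.analyticOrderAt_eq_zero).mpr hne] at hcon
        simp at hcon)
      exact absurd (show |z.im - t| < W from hz) (not_lt.mpr h1.le))
  exact ⟨g, fun z hz => hg1 z hz, fun z hz => hg2 z hz⟩

open Classical in
theorem bad_leG (hN₁ : NS N₁ n₁) (hN₂ : NS N₂ n₂) (hF₁ : HL N₁ χ₁ F₁ R₁ e₁ w₁)
    (hF₂ : HL N₂ χ₂ F₂ R₂ e₂ w₂) {α β : ℝ} (δ : ℝ) (hα : 1 ≤ α) (hβ : 1 ≤ β)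
    (hd0 : 0 < dg ι₁ ι₂ α β) (hd1 : dg ι₁ ι₂ α β ≤ 1) :
    ∃ K T₀ : ℝ, 0 < K ∧ 1 ≤ T₀ ∧ ∀ T H X : ℝ, T₀ ≤ T → 2 ≤ H →
      4 * H * (2 * H * Real.log T) ≤ T → 2 * H ^ 2 ≤ T → 6 * (Real.log T) ^ 2 ≤ H →
      (Real.log T) ^ 2 ≤ (H - 1) * Real.log 2 → 1 ≤ X →
      En ι₁ ι₂ R₁ R₂ α β (2 * T) + 1 ≤ Real.log X →
      volume.real (BadZ F₁ F₂ α β δ T (2 * H * Real.log T + 3)) ≤
        K * ((2 * T * (Real.log T) ^ 2 / H) *
          ZQ (cq N₁ N₂ χ₁ χ₂ δ) (nq N₁ N₂ α β) (2 * T * (Real.log T) ^ 2 / H)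
            (UA N₁ N₂ α β X)) := by
  obtain ⟨C, T1, hC, hT1, hcore⟩ := winG hN₁ hN₂ hF₁ hF₂ δ hα hβ hd0 hd1
  refine ⟨80 * C ^ 2 / 1 ^ 2 * (8 / dg ι₁ ι₂ α β + 1), max T1 100, by positivity,
    hT1.trans (le_max_left _ _), ?_⟩
  intro T H X hT hH hHY hHT hH6 hκ2 hX hXE
  have hTT1 : T1 ≤ T := (le_max_left _ _).trans hT
  have hT100 : 100 ≤ T := (le_max_right _ _).trans hT
  have hT0 : 0 < T := by linarith
  set ℓ := Real.log T with hℓdef
  have hℓ : 1 ≤ ℓ := by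
    rw [hℓdef, Real.le_log_iff_exp_le hT0]
    have := Real.exp_one_lt_three
    linarith
  have hH0 : 0 < H := by linarith
  set B := 2 * T * ℓ ^ 2 / H with hB
  have hB0 : 0 < B := by positivity
  have hη : B / T = 2 * ℓ ^ 2 / H := by
    rw [hB]
    field_simp
  have hη0 : 0 ≤ B / T := by positivity
  have hη3 : 3 * (B / T) ≤ 1 := by
    rw [hη, mul_div_assoc', div_le_one hH0]
    linarith
  have hη2 : ℓ ^ 2 ≤ (H - 1) * (B / T) := by
    rw [hη, mul_div_assoc', le_div_iff₀ hH0]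
    nlinarith [sq_nonneg ℓ]
  set Y := 2 * H * ℓ with hY
  have hY0 : 0 ≤ Y := by positivity
  have hEmono : ∀ a b : ℝ, 0 < a → a ≤ b →
      En ι₁ ι₂ R₁ R₂ α β a ≤ En ι₁ ι₂ R₁ R₂ α β b := by
    intro a b ha hab
    have h := En_diff (ι₁ := ι₁) (ι₂ := ι₂) R₁ R₂ α β ha (by linarith : 0 < b)
    have h3 : 0 ≤ Real.log (b / a) := Real.log_nonneg (by rw [le_div_iff₀ ha]; linarith)
    have : 0 ≤ dg ι₁ ι₂ α β * Real.log (b / a) := mul_nonneg hd0.le h3
    linarith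
  refine bad_abs (lam := 0) (E := En ι₁ ι₂ R₁ R₂ α β) (Y := Y) (UA N₁ N₂ α β X) _ ?_ hT0 hH0 hB0 hd0
    hC one_pos hY0 hη3 ?_ ?_ ?_ ?_
  · rintro t ⟨g1, g2, -⟩
    exact ⟨g1, g2⟩
  · intro a t ha hat htB
    have ha0 : 0 < a := by linarith
    rw [En_diff R₁ R₂ α β ha0 (by linarith)]
    have h3 : 0 ≤ Real.log (t / a) := Real.log_nonneg (by rw [le_div_iff₀ ha0]; linarith)
    rw [abs_of_nonneg (mul_nonneg hd0.le h3)]
    have h4 := Real.log_le_sub_one_of_pos (show 0 < t / a from div_pos (by linarith) ha0)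
    have h5 : t / a - 1 ≤ B / T := by
      have : t / a - 1 = (t - a) / a := by field_simp
      rw [this]
      apply div_le_div₀ (by linarith) (by linarith) hT0 ha
    nlinarith
  · intro a b ha hab hb
    have ha0 : 0 < a := by linarith
    have hb0 : 0 < b := by linarith
    rw [En_diff R₁ R₂ α β ha0 hb0]
    have h1 := Real.one_sub_inv_le_log_of_pos (show 0 < b / a by positivity)
    have h2 : 1 - (b / a)⁻¹ = (b - a) / b := by
      rw [inv_div]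
      field_simp
    have h3 : (b - a) / (2 * T) ≤ (b - a) / b :=
      div_le_div_of_nonneg_left (by linarith) hb0 hb
    have h4 : (b - a) / (2 * T) ≤ Real.log (b / a) := by
      rw [h2] at h1
      exact h3.trans h1
    exact (mul_le_mul_of_nonneg_left h4 hd0.le).trans (le_abs_self _)
  · rintro t ⟨ht1, ht2, -⟩ p hp hc
    obtain ⟨p1, p2⟩ := cq_zero δ hc
    have hnu : Real.log X < nq N₁ N₂ α β p := by
      by_contra h0
      push Not at h0
      exact hp ((mem_UA hN₁ hN₂ hα hβ hX).mpr ⟨p1, p2, h0⟩)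
    have h5 := hEmono t (2 * T) (by linarith) ht2
    have h7 := le_abs_self (nq N₁ N₂ α β p + 0 - En ι₁ ι₂ R₁ R₂ α β t)
    linarith
  · rintro t ⟨ht1, ht2, ht3⟩ S hS1 hS2
    obtain ⟨D, hD1, hD2⟩ := exists_DG hF₁ hF₂.diff (α := α) (β := β) δ (by linarith) (by linarith)
      (t := t) (W := Y + 3) ht3
    exact hcore T H (B / T) hTT1 hH hHY hHT hη0 hκ2 hη2 t ht1.le ht2 D hD1 hD2 S hS1 hS2

end

end Pool.Agent.T9h53.SG
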