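import Pool.Agent.T9h53.SG.Abs
import Pool.Agent.T9h53.SZ.Block
import Pool.Agent.T9h53.SZ.FI

/-! # Blocks of heights, general form -/

set_option autoImplicit false

open Complex Filter Topology Set MeasureTheory

namespace Pool.Agent.T9h53.SG

open Pool.Agent.T9h53.SZ

variable {ι : Type} [DecidableEq ι]

/-- the pair sum of a set of frequencies -/
noncomputable def ZQ (c : ι → ℂ) (ν : ι → ℝ) (B : ℝ) (S : Finset ι) : ℝ :=
  ∑ z ∈ S ×ˢ S, ‖c z.1‖ * ‖c z.2‖ * Real.exp (-(B ^ 2 * (ν z.1 - ν z.2) ^ 2 / 4))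

omit [DecidableEq ι] in
lemma ZQ_nonneg (c : ι → ℂ) (ν : ι → ℝ) (B : ℝ) (S : Finset ι) : 0 ≤ ZQ c ν B S :=
  Finset.sum_nonneg fun z _ => by positivity

lemma PQ_mv (c : ι → ℂ) (ν : ι → ℝ) (lam : ℝ) (S : Finset ι) (a v : ℝ) {B : ℝ} (hB : 0 < B) :
    ∫ t in a..(a + B), ‖PQ c ν lam S (t + v)‖ ^ 2 ≤ 5 * B * ZQ c ν B S := by
  have h1 : ∫ t in a..(a + B), ‖PQ c ν lam S (t + v)‖ ^ 2 =
      ∫ u in (a + v)..(a + v + B), ‖PQ c ν lam S u‖ ^ 2 := by
    rw [intervalIntegral.integral_comp_add_right (fun u => ‖PQ c ν lam S u‖ ^ 2)]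
    congr 1
    ring
  rw [h1]
  unfold PQ
  refine (mean_value S (fun p => (starRingEnd ℂ) (c p))
    (fun p => ν p + lam) (a + v) hB).trans (le_of_eq ?_)
  unfold ZQ
  congr 1
  refine Finset.sum_congr rfl fun z _ => ?_
  rw [Complex.norm_conj, Complex.norm_conj, add_sub_add_right_eq_sub]

theorem block_abs {c : ι → ℂ} {ν : ι → ℝ} {lam C H Y B a w : ℝ} (hC : 0 < C) (hH : 0 < H)
    (hY : 0 ≤ Y) (hw : 0 < w) (hB : 0 < B) (S : Finset ι) (G : Set ℝ) (hG : G ⊆ Ioc a (a + B))
    (hcore : ∀ t ∈ G, w * H / 2 ≤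
      C * ∫ v in (-Y)..Y, ‖PQ c ν lam S (t + v)‖ * Real.exp (-(v ^ 2 / H ^ 2))) :
    volume.real G ≤ 80 * C ^ 2 / w ^ 2 * B * ZQ c ν B S := by
  have hPc := PQ_cont c ν lam S
  set f : ℝ → ℝ := fun t => ∫ v in (-Y)..Y, ‖PQ c ν lam S (t + v)‖ ^ 2 *
    Real.exp (-(v ^ 2 / H ^ 2)) with hf
  have hfc : Continuous f := by
    rw [hf]
    apply intervalIntegral.continuous_parametric_intervalIntegral_of_continuous'
    rw [Function.uncurry_def]
    fun_prop
  -- lower bound for f on G
  have hlow : ∀ t ∈ G, H * w ^ 2 / (8 * C ^ 2) ≤ f t := by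
    intro t ht
    have h1 := hcore t ht
    set lm : ℝ := w / (4 * C) with hlm
    have hlm0 : 0 < lm := by positivity
    have h2 : ∫ v in (-Y)..Y, ‖PQ c ν lam S (t + v)‖ * Real.exp (-(v ^ 2 / H ^ 2)) ≤
        ∫ v in (-Y)..Y, (lm / 2 * Real.exp (-(v ^ 2 / H ^ 2)) +
          1 / (2 * lm) * (‖PQ c ν lam S (t + v)‖ ^ 2 * Real.exp (-(v ^ 2 / H ^ 2)))) := by
      apply intervalIntegral.integral_mono_on (by linarith)
      · apply Continuous.intervalIntegrable
        fun_prop
      · apply Continuous.intervalIntegrable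
        fun_prop
      · intro v _
        have h3 : ‖PQ c ν lam S (t + v)‖ ≤ lm / 2 +
            1 / (2 * lm) * ‖PQ c ν lam S (t + v)‖ ^ 2 := by
          have h4 := sq_nonneg (‖PQ c ν lam S (t + v)‖ - lm)
          rw [div_mul_eq_mul_div, one_mul, div_add_div _ _ (by norm_num) (by positivity),
            le_div_iff₀ (by positivity)]
          nlinarith
        have h5 := mul_le_mul_of_nonneg_right h3 (Real.exp_pos (-(v ^ 2 / H ^ 2))).le
        calc _ ≤ _ := h5
          _ = _ := by ring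
    rw [intervalIntegral.integral_add, intervalIntegral.integral_const_mul,
      intervalIntegral.integral_const_mul] at h2
    · have h6 := gauss_le_two hH hY
      have h7 : ∫ v in (-Y)..Y, ‖PQ c ν lam S (t + v)‖ * Real.exp (-(v ^ 2 / H ^ 2)) ≤
          lm / 2 * (2 * H) + 1 / (2 * lm) * f t := by
        refine h2.trans ?_
        gcongr
      have h8 : w * H / 2 ≤ C * (lm / 2 * (2 * H) + 1 / (2 * lm) * f t) :=
        h1.trans (mul_le_mul_of_nonneg_left h7 hC.le)
      have h9 : C * (lm / 2 * (2 * H) + 1 / (2 * lm) * f t) = w * H / 4 +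
          2 * C ^ 2 / w * f t := by
        rw [hlm]
        field_simp
        ring
      rw [h9] at h8
      have h10 : w * H / 4 ≤ 2 * C ^ 2 / w * f t := by linarith
      rw [div_mul_eq_mul_div, le_div_iff₀ hw] at h10
      rw [div_le_iff₀ (by positivity)]
      nlinarith
    · apply Continuous.intervalIntegrable
      fun_prop
    · apply Continuous.intervalIntegrable
      fun_prop
  -- upper bound for the integral
  have hup : ∫ t in a..(a + B), f t ≤ 10 * H * B * ZQ c ν B S := by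
    rw [hf]
    rw [intervalIntegral_intervalIntegral_swap]
    · have h1 : ∀ v : ℝ, ∫ t in a..(a + B), ‖PQ c ν lam S (t + v)‖ ^ 2 *
          Real.exp (-(v ^ 2 / H ^ 2)) ≤ 5 * B * ZQ c ν B S *
            Real.exp (-(v ^ 2 / H ^ 2)) := by
        intro v
        rw [intervalIntegral.integral_mul_const]
        exact mul_le_mul_of_nonneg_right (PQ_mv c ν lam S a v hB) (Real.exp_pos _).le
      have h2 : ∫ v in (-Y)..Y, ∫ t in a..(a + B), ‖PQ c ν lam S (t + v)‖ ^ 2 *
          Real.exp (-(v ^ 2 / H ^ 2)) ≤ ∫ v in (-Y)..Y, 5 * B * ZQ c ν B S *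
            Real.exp (-(v ^ 2 / H ^ 2)) := by
        apply intervalIntegral.integral_mono_on (by linarith)
        · apply Continuous.intervalIntegrable
          apply intervalIntegral.continuous_parametric_intervalIntegral_of_continuous'
          rw [Function.uncurry_def]
          fun_prop
        · apply Continuous.intervalIntegrable
          fun_prop
        · intro v _
          exact h1 v
      refine h2.trans ?_
      rw [intervalIntegral.integral_const_mul]
      have h3 := gauss_le_two hH hY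
      have h4 := ZQ_nonneg c ν B S
      calc 5 * B * ZQ c ν B S * ∫ v in (-Y)..Y, Real.exp (-(v ^ 2 / H ^ 2)) ≤
          5 * B * ZQ c ν B S * (2 * H) := by gcongr
        _ = _ := by ring
    · have hc : Continuous (Function.uncurry fun t v : ℝ => ‖PQ c ν lam S (t + v)‖ ^ 2 *
          Real.exp (-(v ^ 2 / H ^ 2))) := by
        rw [Function.uncurry_def]
        fun_prop
      have hK : IsCompact (Set.uIcc a (a + B) ×ˢ Set.uIcc (-Y) Y) :=
        isCompact_uIcc.prod isCompact_uIcc
      exact (hc.continuousOn.integrableOn_compact hK).mono_set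
        (Set.prod_mono uIoc_subset_uIcc uIoc_subset_uIcc)
  -- Markov
  have hf0 : ∀ t, 0 ≤ f t := by
    intro t
    rw [hf]
    apply intervalIntegral.integral_nonneg (by linarith)
    intro v _
    positivity
  set ε : ℝ := H * w ^ 2 / (8 * C ^ 2) with hε
  have hε0 : 0 < ε := by positivity
  have hM := mul_meas_ge_le_integral_of_nonneg (μ := volume.restrict (Ioc a (a + B))) (f := f)
    (Filter.Eventually.of_forall hf0)
    ((hfc.intervalIntegrable a (a + B)).1) ε
  rw [← intervalIntegral.integral_of_le (by linarith)] at hM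
  have hsub : volume.real G ≤ (volume.restrict (Ioc a (a + B))).real {x | ε ≤ f x} := by
    have hms : MeasurableSet {x | ε ≤ f x} := measurableSet_le measurable_const hfc.measurable
    rw [measureReal_restrict_apply hms]
    apply measureReal_mono
    · intro t ht
      exact ⟨hlow t ht, hG ht⟩
    · exact ((measure_mono inter_subset_right).trans_lt measure_Ioc_lt_top).ne
  have h1 : ε * volume.real G ≤ 10 * H * B * ZQ c ν B S :=
    (mul_le_mul_of_nonneg_left hsub hε0.le).trans (hM.trans hup)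
  rw [hε, div_mul_eq_mul_div, div_le_iff₀ (by positivity)] at h1
  have h2 : (H * w ^ 2) * volume.real G ≤ (H * w ^ 2) * (80 * C ^ 2 / w ^ 2 * B * ZQ c ν B S) := by
    refine h1.trans (le_of_eq ?_)
    field_simp
    ring
  exact le_of_mul_le_mul_left h2 (by positivity)

/-- **the measure of the bad heights**, general form -/
theorem bad_abs {c : ι → ℂ} {ν : ι → ℝ} {lam T H B ρ C w Y : ℝ} {E : ℝ → ℝ} (U : Finset ι)
    (Bad : Set ℝ) (hBad : Bad ⊆ Ioc T (2 * T)) (hT : 0 < T) (hH : 0 < H) (hB : 0 < B)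
    (hρ : 0 < ρ) (hC : 0 < C) (hw : 0 < w) (hY : 0 ≤ Y) (hBT : 3 * (B / T) ≤ 1)
    (hEn : ∀ a t : ℝ, T ≤ a → a ≤ t → t ≤ a + B → |E t - E a| ≤ B / T)
    (hEs : ∀ a b : ℝ, T ≤ a → a ≤ b → b ≤ 2 * T → ρ * ((b - a) / (2 * T)) ≤ |E b - E a|)
    (hU : ∀ t ∈ Bad, ∀ p ∉ U, c p ≠ 0 → 1 ≤ |ν p + lam - E t|)
    (hcore : ∀ t ∈ Bad, ∀ S : Finset ι, (∀ p ∉ S, c p ≠ 0 → B / T ≤ |ν p + lam - E t|) →
      (∀ p ∈ S, |ν p + lam - E t| ≤ 1) → w * H / 2 ≤
      C * ∫ v in (-Y)..Y, ‖PQ c ν lam S (t + v)‖ * Real.exp (-(v ^ 2 / H ^ 2))) :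
    volume.real Bad ≤ 80 * C ^ 2 / w ^ 2 * (8 / ρ + 1) * (B * ZQ c ν B U) := by
  set J := ⌈T / B⌉₊ with hJdef
  have hJ : ((J : ℝ) - 1) * B ≤ T := by
    have h1 : (J : ℝ) < T / B + 1 := Nat.ceil_lt_add_one (by positivity)
    have h2 : ((J : ℝ) - 1) ≤ T / B := by linarith
    calc ((J : ℝ) - 1) * B ≤ T / B * B := mul_le_mul_of_nonneg_right h2 hB.le
      _ = T := by field_simp
  set SB : ℕ → Finset ι := fun j => U.filter (fun p => |ν p + lam - E (T + j * B)| ≤ 2 * (B / T))
    with hSB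
  have hη0 : 0 ≤ B / T := by positivity
  -- each block
  have hblock : ∀ j ∈ Finset.range J,
      volume.real (Bad ∩ Ioc (T + j * B) (T + j * B + B)) ≤
      80 * C ^ 2 / w ^ 2 * B * ZQ c ν B (SB j) := by
    intro j _
    apply block_abs (lam := lam) hC hH hY hw hB _ _ inter_subset_right
    rintro t ⟨ht, ht4, ht5⟩
    have hnear : |E t - E (T + j * B)| ≤ B / T :=
      hEn _ _ (by
        have : (0 : ℝ) ≤ j * B := by positivity
        linarith) ht4.le ht5
    refine hcore t ht _ ?_ ?_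
    · intro p hp hc
      rw [hSB, Finset.mem_filter, not_and_or] at hp
      rcases hp with hp | hp
      · have := hU t ht p hp hc
        linarith
      · push Not at hp
        have h6 : |ν p + lam - E (T + j * B)| ≤ |ν p + lam - E t| + |E t - E (T + j * B)| :=
          abs_sub_le _ _ _
        linarith
    · intro p hp
      rw [hSB, Finset.mem_filter] at hp
      have h6 : |ν p + lam - E t| ≤ |ν p + lam - E (T + j * B)| + |E (T + j * B) - E t| :=
        abs_sub_le _ _ _
      rw [abs_sub_comm (E (T + j * B))] at h6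
      linarith [hp.2]
  -- the cover
  have hcover : Bad ⊆ ⋃ j ∈ Finset.range J, (Bad ∩ Ioc (T + j * B) (T + j * B + B)) := by
    intro t ht
    obtain ⟨ht1, ht2⟩ := hBad ht
    have hpos : 0 < (t - T) / B := div_pos (by linarith) hB
    set m := ⌈(t - T) / B⌉₊ with hm
    have hm1 : 0 < m := Nat.ceil_pos.mpr hpos
    obtain ⟨j, hj⟩ : ∃ j, m = j + 1 := ⟨m - 1, by omega⟩
    have hle : (t - T) / B ≤ m := Nat.le_ceil _
    have hlt : (m : ℝ) < (t - T) / B + 1 := Nat.ceil_lt_add_one hpos.le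
    have hmJ : m ≤ J := by
      apply Nat.ceil_le_ceil
      apply div_le_div_of_nonneg_right _ hB.le
      linarith
    rw [hj] at hle hlt
    push_cast at hle hlt
    rw [mem_iUnion₂]
    refine ⟨j, Finset.mem_range.mpr (by omega), ht, ?_, ?_⟩
    · have h5 : (j : ℝ) < (t - T) / B := by linarith
      rw [lt_div_iff₀ hB] at h5
      linarith
    · rw [div_le_iff₀ hB] at hle
      linarith
  have hvol : volume.real Bad ≤
      ∑ j ∈ Finset.range J, volume.real (Bad ∩ Ioc (T + j * B) (T + j * B + B)) := by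
    refine le_trans (measureReal_mono hcover ?_) (measureReal_biUnion_finset_le _ _)
    refine (lt_of_le_of_lt (measure_biUnion_finset_le _ _) ?_).ne
    rw [ENNReal.sum_lt_top]
    intro j _
    exact (measure_mono inter_subset_right).trans_lt measure_Ioc_lt_top
  refine hvol.trans ((Finset.sum_le_sum hblock).trans ?_)
  rw [← Finset.mul_sum]
  -- spacing
  have hsp : ∀ i ∈ Finset.range J, ∀ j ∈ Finset.range J, i ≠ j →
      1 / (2 * T / (ρ * B)) ≤ |E (T + i * B) - E (T + j * B)| := by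
    have key : ∀ i ∈ Finset.range J, ∀ j ∈ Finset.range J, i < j →
        1 / (2 * T / (ρ * B)) ≤ |E (T + j * B) - E (T + i * B)| := by
      intro i _ j hj hij
      rw [Finset.mem_range] at hj
      have hi0 : (0 : ℝ) ≤ i := Nat.cast_nonneg i
      have hij' : (i : ℝ) + 1 ≤ j := by exact_mod_cast hij
      have hjJ : (j : ℝ) ≤ J - 1 := by
        have : (j : ℝ) + 1 ≤ J := by exact_mod_cast hj
        linarith
      have h4 : (j : ℝ) * B ≤ T := le_trans (by gcongr) hJ
      have h5 := hEs (T + i * B) (T + j * B) (by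
        have : (0 : ℝ) ≤ i * B := by positivity
        linarith) (by
        have : (i : ℝ) * B ≤ j * B := by gcongr
        linarith) (by linarith)
      refine le_trans ?_ h5
      have h6 : 1 / (2 * T / (ρ * B)) = ρ * (B / (2 * T)) := by field_simp
      rw [h6]
      apply mul_le_mul_of_nonneg_left _ hρ.le
      apply div_le_div_of_nonneg_right _ (by positivity)
      nlinarith
    intro i hi j hj hne
    rcases lt_or_gt_of_ne hne with h | h
    · rw [abs_sub_comm]
      exact key i hi j hj h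
    · exact key j hj i hi h
  set wt : ι × ι → ℝ := fun z => ‖c z.1‖ * ‖c z.2‖ *
    Real.exp (-(B ^ 2 * (ν z.1 - ν z.2) ^ 2 / 4)) with hwt
  have hw0 : ∀ z, 0 ≤ wt z := fun z => by rw [hwt]; positivity
  have hs : ∑ j ∈ Finset.range J, ZQ c ν B (SB j) ≤ (8 / ρ + 1) * ZQ c ν B U := by
    have h1 : ∀ j ∈ Finset.range J, ZQ c ν B (SB j) ≤
        ∑ z ∈ U ×ˢ U, if |E (T + j * B) - (ν z.1 + lam)| ≤ 2 * (B / T) then wt z else 0 := by
      intro j _
      rw [← Finset.sum_filter]
      unfold ZQ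
      refine Finset.sum_le_sum_of_subset_of_nonneg ?_ fun z _ _ => hw0 z
      intro z hz
      rw [hSB, Finset.mem_product, Finset.mem_filter, Finset.mem_filter] at hz
      rw [Finset.mem_filter, Finset.mem_product]
      refine ⟨⟨hz.1.1, hz.2.1⟩, ?_⟩
      rw [abs_sub_comm]
      exact hz.1.2
    refine (Finset.sum_le_sum h1).trans ?_
    rw [Finset.sum_comm]
    unfold ZQ
    rw [Finset.mul_sum]
    refine Finset.sum_le_sum fun z _ => ?_
    rw [← Finset.sum_filter, Finset.sum_const, nsmul_eq_mul]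
    have h2 := count_spaced (Finset.range J) (fun j : ℕ => E (T + j * B))
      (c := 2 * T / (ρ * B)) (Δ := 2 * (B / T)) (by positivity) (by positivity)
      hsp (ν z.1 + lam)
    have h3 : 2 * (2 * (B / T)) * (2 * T / (ρ * B)) + 1 = 8 / ρ + 1 := by
      field_simp
      ring
    rw [h3] at h2
    exact mul_le_mul_of_nonneg_right h2 (hw0 z)
  calc 80 * C ^ 2 / w ^ 2 * B * ∑ j ∈ Finset.range J, ZQ c ν B (SB j) ≤
      80 * C ^ 2 / w ^ 2 * B * ((8 / ρ + 1) * ZQ c ν B U) := by gcongr
    _ = _ := by ring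

end Pool.Agent.T9h53.SG
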