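import Pool.Agent.T9h53.SG.Gr
import Pool.Agent.T9h53.SZ.Box

/-! # The quotient is not too large where it is holomorphic -/

set_option autoImplicit false

open Complex Filter Topology Set Metric

namespace Pool.Agent.T9h53.SG

open Pool.Agent.T9h53.SZ

theorem box_bound {F₁ F₂ : ℂ → ℂ} (hd₁ : Differentiable ℂ F₁)
    (hg₁ : ∀ B : ℝ, 0 ≤ B → ∃ C A y₀ : ℝ, 0 < C ∧ 0 < A ∧ 2 ≤ y₀ ∧ ∀ s : ℂ, -B ≤ s.re →
      y₀ ≤ s.im → ‖F₁ s‖ ≤ C * s.im ^ A)
    (hg₂ : ∀ B : ℝ, 0 ≤ B → ∃ C A y₀ : ℝ, 0 < C ∧ 0 < A ∧ 2 ≤ y₀ ∧ ∀ s : ℂ, -B ≤ s.re →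
      y₀ ≤ s.im → ‖F₂ s‖ ≤ C * s.im ^ A)
    (hl₁ : ∃ c : ℝ, 0 < c ∧ ∀ s : ℂ, 3 / 2 ≤ s.re → c ≤ ‖F₁ s‖)
    {α β : ℝ} (δ : ℝ) (hα : 1 ≤ α) (hβ : 1 ≤ β) :
    ∃ T₀ : ℝ, 1 ≤ T₀ ∧ ∀ T : ℝ, T₀ ≤ T → ∀ τ : ℝ, T ≤ τ → τ ≤ 3 * T → ∀ D : ℂ → ℂ,
      (∀ z : ℂ, |z.im - τ| ≤ 2 → AnalyticAt ℂ D z) →
      (∀ z : ℂ, |z.im - τ| ≤ 2 → F₂ (1 / 2 + δ * I + α * z) = D z * F₁ (1 / 2 + β * z)) →
      ∀ x : ℝ, 0 ≤ x → x ≤ 1 → ‖D ⟨x, τ⟩‖ ≤ Real.exp ((Real.log T) ^ 2) := by
  obtain ⟨C1, A1, y1, hC1, hA1, hy1, hg1⟩ := hg₁ β (by linarith)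
  obtain ⟨C2, A2, y2, hC2, hA2, hy2, hg2⟩ := hg₂ α (by linarith)
  obtain ⟨c, hc, hlow⟩ := hl₁
  have hα0 : 0 < α := by linarith
  have hβ0 : 0 < β := by linarith
  set K : ℝ := |Real.log ((C1 + 1) / c)| + A1 * Real.log (4 * β) + A1 with hK
  have hl4β : 0 ≤ Real.log (4 * β) := Real.log_nonneg (by linarith)
  have hK0 : 0 < K := by positivity
  -- the final inequality
  have hsm := QQ_small (2 * A2) (|Real.log (C2 / c * (4 * α) ^ A2)|) (2 * K) (by positivity)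
  have hsm2 := Real.tendsto_log_atTop.eventually hsm
  obtain ⟨T1, hT1⟩ := eventually_atTop.mp hsm2
  refine ⟨max T1 (10 + |δ| + y1 + y2), by
    have := abs_nonneg δ
    exact le_trans (by linarith) (le_max_right _ _), ?_⟩
  intro T hT τ hτ1 hτ2 D hD hDL x hx0 hx1
  have hδ0 := abs_nonneg δ
  have hT10 : 10 + |δ| + y1 + y2 ≤ T := (le_max_right _ _).trans hT
  have hfin := hT1 T ((le_max_left _ _).trans hT)
  have hδ1 := neg_abs_le δ
  have hδ2 := le_abs_self δ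
  have hτ0 : 0 < τ := by linarith
  have hT0 : 0 < T := by linarith
  have hlogτ1 : 1 ≤ Real.log τ := by
    rw [Real.le_log_iff_exp_le hτ0]
    have := Real.exp_one_lt_three
    linarith
  set ctr : ℂ := ⟨3 / 2, τ⟩ with hctr
  set f : ℂ → ℂ := fun w => F₁ (1 / 2 + β * w) with hf
  have hre : ∀ w : ℂ, ((1 / 2 : ℂ) + β * w).re = 1 / 2 + β * w.re := by intro w; simp
  have him : ∀ w : ℂ, ((1 / 2 : ℂ) + β * w).im = β * w.im := by intro w; simp
  have hfan : AnalyticOnNhd ℂ f (closedBall ctr 1.9) := by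
    have : Differentiable ℂ f := by
      rw [hf]
      exact hd₁.comp (by fun_prop)
    exact fun w _ => this.analyticAt w
  have hball : ∀ w ∈ closedBall ctr 1.9, |w.re - 3 / 2| ≤ 1.9 ∧ |w.im - τ| ≤ 1.9 := by
    intro w hw
    rw [mem_closedBall, dist_eq_norm] at hw
    have h1 := abs_re_le_norm (w - ctr)
    have h2 := abs_im_le_norm (w - ctr)
    rw [sub_re] at h1
    rw [sub_im] at h2
    exact ⟨h1.trans hw, h2.trans hw⟩
  set M : ℝ := (C1 + 1) * (4 * β * τ) ^ A1 with hM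
  have h4βτ : 1 ≤ 4 * β * τ := by nlinarith
  have hpow1 : 1 ≤ (4 * β * τ) ^ A1 := Real.one_le_rpow h4βτ hA1.le
  have hM1 : 1 ≤ M := by rw [hM]; nlinarith
  have hb : ∀ w ∈ closedBall ctr 1.9, ‖f w‖ ≤ M := by
    intro w hw
    obtain ⟨h1, h2⟩ := hball w hw
    obtain ⟨h3, h4⟩ := abs_le.mp h1
    obtain ⟨h5, h6⟩ := abs_le.mp h2
    norm_num at h3 h4 h5 h6
    have h7 := hg1 (1 / 2 + β * w) (by rw [hre]; nlinarith) (by rw [him]; nlinarith)
    rw [him] at h7
    have h8 : (β * w.im) ^ A1 ≤ (4 * β * τ) ^ A1 := by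
      apply Real.rpow_le_rpow _ _ hA1.le
      · have : 0 ≤ w.im := by linarith
        positivity
      · nlinarith
    calc ‖f w‖ ≤ C1 * (β * w.im) ^ A1 := h7
      _ ≤ C1 * (4 * β * τ) ^ A1 := by gcongr
      _ ≤ M := by rw [hM]; nlinarith
  have hctrmem : ctr ∈ closedBall ctr 1.9 := mem_closedBall_self (by norm_num)
  have hcl : c ≤ ‖f ctr‖ := by
    apply hlow
    rw [hre, hctr]
    simp only
    nlinarith
  have hfc0 : 0 < ‖f ctr‖ := lt_of_lt_of_le hc hcl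
  obtain ⟨r, hr1, hr2, hr⟩ := circle_lower (f := f) (c := ctr) hM1 hfan
    (norm_pos_iff.mp hfc0) (hb _ hctrmem) hb
  have hLle : Real.log (M / ‖f ctr‖) ≤ K * Real.log τ := by
    have h1 : Real.log (M / ‖f ctr‖) ≤ Real.log ((C1 + 1) / c * (4 * β * τ) ^ A1) := by
      apply Real.log_le_log (by positivity)
      rw [hM]
      calc (C1 + 1) * (4 * β * τ) ^ A1 / ‖f ctr‖ ≤ (C1 + 1) * (4 * β * τ) ^ A1 / c := by gcongr
        _ = _ := by ring
    rw [Real.log_mul (by positivity) (by positivity), Real.log_rpow (by positivity),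
      Real.log_mul (by positivity) hτ0.ne'] at h1
    have h2 := le_abs_self (Real.log ((C1 + 1) / c))
    have h3 := abs_nonneg (Real.log ((C1 + 1) / c))
    have h4 : A1 * Real.log (4 * β) ≤ A1 * Real.log (4 * β) * Real.log τ := by
      have : 0 ≤ A1 * Real.log (4 * β) := by positivity
      nlinarith
    rw [hK]
    nlinarith
  have hL0 : 0 ≤ Real.log (M / ‖f ctr‖) := by
    apply Real.log_nonneg
    rw [le_div_iff₀ hfc0, one_mul]
    exact hb _ hctrmem
  have hr0 : 0 < r := by linarith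
  -- bound on the sphere
  have hsph : ∀ w ∈ sphere ctr r, ‖D w‖ ≤ C2 * (4 * α * τ) ^ A2 / c *
      Real.exp (QQ (K * Real.log τ)) := by
    intro w hw
    have hwn : ‖w - ctr‖ = r := by rwa [mem_sphere, dist_eq_norm] at hw
    have hwim : |w.im - τ| ≤ 1.6 := by
      have := abs_im_le_norm (w - ctr)
      rw [sub_im, hwn] at this
      exact this.trans hr2
    have hwre : |w.re - 3 / 2| ≤ 1.6 := by
      have := abs_re_le_norm (w - ctr)
      rw [sub_re, hwn] at this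
      exact this.trans hr2
    obtain ⟨hi1, hi2⟩ := abs_le.mp hwim
    obtain ⟨hr1', hr2'⟩ := abs_le.mp hwre
    norm_num at hi1 hi2 hr1' hr2'
    have h1 := hr w hw
    have h2 := hDL w (hwim.trans (by norm_num))
    have hs2re : ((1 / 2 : ℂ) + δ * I + α * w).re = 1 / 2 + α * w.re := by simp
    have hs2im : ((1 / 2 : ℂ) + δ * I + α * w).im = δ + α * w.im := by simp
    have h3 := hg2 (1 / 2 + δ * I + α * w) (by rw [hs2re]; nlinarith)
      (by rw [hs2im]; nlinarith)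
    rw [hs2im] at h3
    have h4 : (δ + α * w.im) ^ A2 ≤ (4 * α * τ) ^ A2 := by
      apply Real.rpow_le_rpow _ _ hA2.le
      · nlinarith
      · nlinarith
    have h5 : QQ (Real.log (M / ‖f ctr‖)) ≤ QQ (K * Real.log τ) := QQ_mono hL0 hLle
    have h6 : c * Real.exp (-QQ (K * Real.log τ)) ≤ ‖F₁ (1 / 2 + β * w)‖ := by
      refine le_trans ?_ h1
      apply mul_le_mul hcl _ (Real.exp_pos _).le (norm_nonneg _)
      apply Real.exp_le_exp.mpr
      linarith
    have h7 : ‖D w‖ * ‖F₁ (1 / 2 + β * w)‖ ≤ C2 * (4 * α * τ) ^ A2 := by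
      rw [← norm_mul, ← h2]
      exact h3.trans (mul_le_mul_of_nonneg_left h4 hC2.le)
    have h8 : ‖D w‖ * (c * Real.exp (-QQ (K * Real.log τ))) ≤ C2 * (4 * α * τ) ^ A2 :=
      (mul_le_mul_of_nonneg_left h6 (norm_nonneg _)).trans h7
    rw [Real.exp_neg] at h8
    have h9 := Real.exp_pos (QQ (K * Real.log τ))
    have h10 : ‖D w‖ = ‖D w‖ * (c * (Real.exp (QQ (K * Real.log τ)))⁻¹) *
        (Real.exp (QQ (K * Real.log τ)) / c) := by
      field_simp
    rw [h10]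
    calc _ ≤ C2 * (4 * α * τ) ^ A2 * (Real.exp (QQ (K * Real.log τ)) / c) := by gcongr
      _ = _ := by ring
  have hz : ‖D ⟨x, τ⟩‖ ≤ C2 * (4 * α * τ) ^ A2 / c * Real.exp (QQ (K * Real.log τ)) := by
    refine Complex.norm_le_of_forall_mem_frontier_norm_le (U := ball ctr r) isBounded_ball ?_ ?_ ?_
    · apply DifferentiableOn.diffContOnCl
      rw [closure_ball ctr hr0.ne']
      intro w hw
      have hwn : ‖w - ctr‖ ≤ r := by rwa [mem_closedBall, dist_eq_norm] at hw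
      have hwim : |w.im - τ| ≤ 2 := by
        have := abs_im_le_norm (w - ctr)
        rw [sub_im] at this
        exact this.trans (hwn.trans (hr2.trans (by norm_num)))
      exact (hD w hwim).differentiableAt.differentiableWithinAt
    · intro w hw
      rw [frontier_ball ctr hr0.ne'] at hw
      exact hsph w hw
    · rw [closure_ball ctr hr0.ne', mem_closedBall, dist_eq_norm]
      have e1 : (⟨x, τ⟩ : ℂ) - ctr = ((x - 3 / 2 : ℝ) : ℂ) := by
        rw [hctr]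
        apply Complex.ext <;> simp
      rw [e1, Complex.norm_real, Real.norm_eq_abs]
      refine le_trans ?_ hr1
      rw [abs_le]
      norm_num
      constructor <;> linarith
  refine hz.trans ?_
  have hlog3 : Real.log τ ≤ 2 * Real.log T := by
    have e1 : Real.log τ ≤ Real.log (T ^ 2) := by
      apply Real.log_le_log hτ0
      calc τ ≤ 3 * T := hτ2
        _ ≤ T * T := mul_le_mul_of_nonneg_right (by linarith) hT0.le
        _ = T ^ 2 := by ring
    rwa [Real.log_pow, Nat.cast_ofNat] at e1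
  have e2 : C2 * (4 * α * τ) ^ A2 / c =
      Real.exp (Real.log (C2 / c * (4 * α) ^ A2) + A2 * Real.log τ) := by
    rw [Real.exp_add, Real.exp_log (by positivity), Real.mul_rpow (by positivity) hτ0.le,
      mul_comm A2, ← Real.rpow_def_of_pos hτ0]
    ring
  rw [e2, ← Real.exp_add]
  apply Real.exp_le_exp.mpr
  have e3 : QQ (K * Real.log τ) ≤ QQ (2 * K * Real.log T) := by
    apply QQ_mono (by positivity)
    calc K * Real.log τ ≤ K * (2 * Real.log T) := mul_le_mul_of_nonneg_left hlog3 hK0.le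
      _ = 2 * K * Real.log T := by ring
  have e4 : A2 * Real.log τ ≤ 2 * A2 * Real.log T := by
    calc A2 * Real.log τ ≤ A2 * (2 * Real.log T) := mul_le_mul_of_nonneg_left hlog3 hA2.le
      _ = 2 * A2 * Real.log T := by ring
  have e5 := le_abs_self (Real.log (C2 / c * (4 * α) ^ A2))
  linarith

end Pool.Agent.T9h53.SG
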