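import Pool.Agent.T9h53.SG.PairG
import Pool.Agent.T9h27.D.Ser
import Pool.Agent.H369R2.S6a

/-! # The coefficients of the quotient -/

set_option autoImplicit false
set_option linter.unusedSectionVars false

open Complex Filter Topology Set

namespace Pool.Agent.T9h53.SG

open Pool.Agent.T9h53.SZ
open Pool.Agent.T9h27.D
open Pool.Agent.N786.D (mob)

section

variable {M : Type} [CommMonoidWithZero M] [NormalizationMonoid M] [UniqueFactorizationMonoid M]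
  [Subsingleton Mˣ] [Nontrivial M] {N : M →*₀ ℕ} {n : ℕ}

lemma NS_countable (h : NS N n) : Countable M := by
  rw [← Set.countable_univ_iff]
  have h1 : (Set.univ : Set M) ⊆ {0} ∪ ⋃ m : ℕ, {a : M | N a = m + 1} := by
    intro a _
    by_cases ha : a = 0
    · exact Or.inl ha
    · right
      rw [mem_iUnion]
      have := h.pos ha
      exact ⟨N a - 1, by show N a = N a - 1 + 1; omega⟩
  refine Set.Countable.mono h1 (Set.Countable.union (Set.countable_singleton _)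
    (Set.countable_iUnion fun m => ?_))
  exact (h.fin_card (Nat.succ_ne_zero m)).1.countable

lemma NS_two_le_ne_one (h : NS N n) {a : M} (ha : a ≠ 0) (h1 : a ≠ 1) : 2 ≤ N a := by
  obtain ⟨p, hp, hpd⟩ := WfDvdMonoid.exists_irreducible_factor
    (fun h' => h1 (by
      obtain ⟨u, hu⟩ := h'
      rw [← hu, Subsingleton.elim u 1, Units.val_one])) ha
  have h2 := h.two_le hp.prime
  have h3 := Nat.le_of_dvd (h.pos ha) (NS.dvd N hpd)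
  omega

lemma LA_low' (h : NS N n) {χ : M →*₀ ℂ} (h1 : ∀ a, ‖χ a‖ ≤ 1) {s : ℂ} (hs : 3 / 2 ≤ s.re) :
    (ZN N + 1)⁻¹ ≤ ‖LA N χ s‖ := by
  have h2 := LI_mul_mob h h1 hs
  have h3 : ‖LA N (fun a => mob a * χ a) s‖ ≤ ZN N := by
    refine LA_le h (by rw [map_zero, mul_zero]) (fun a => ?_) hs
    rw [norm_mul]
    exact mul_le_one₀ (mob_le a) (norm_nonneg _) (h1 a)
  have h4 : ‖LA N χ s‖ * ‖LA N (fun a => mob a * χ a) s‖ = 1 := by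
    rw [← norm_mul, h2, norm_one]
  have h5 := ZN_nonneg N
  rw [inv_le_iff_one_le_mul₀ (by linarith), mul_comm]
  calc (1 : ℝ) = ‖LA N χ s‖ * ‖LA N (fun a => mob a * χ a) s‖ := h4.symm
    _ ≤ ‖LA N χ s‖ * (ZN N + 1) := by gcongr; linarith
    _ = _ := mul_comm _ _

/-- a coefficient of one of the two factors -/
noncomputable def ca (N : M →*₀ ℕ) (g : M → ℂ) (θ : ℝ) (a : M) : ℂ :=
  g a * ((N a : ℕ) : ℂ) ^ (-(1 / 2 + θ * I : ℂ))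

lemma ca_norm_le (h : NS N n) {g : M → ℂ} (g0 : g 0 = 0) (g1 : ∀ a, ‖g a‖ ≤ 1) (θ : ℝ) (a : M) :
    ‖ca N g θ a‖ ≤ 1 / Real.sqrt (N a) := by
  unfold ca
  by_cases ha : a = 0
  · rw [ha, g0, zero_mul, norm_zero]
    positivity
  have hN := h.pos ha
  rw [norm_mul, Complex.norm_natCast_cpow_of_pos hN]
  have e1 : (-(1 / 2 + θ * I : ℂ)).re = -(1 / 2) := by simp
  rw [e1, Real.rpow_neg (by positivity), ← Real.sqrt_eq_rpow, ← one_div]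
  calc ‖g a‖ * (1 / Real.sqrt (N a)) ≤ 1 * (1 / Real.sqrt (N a)) := by
        gcongr
        exact g1 a
    _ = _ := one_mul _

lemma ca_series {g : M → ℂ} (h : NS N n) (g0 : g 0 = 0) (θ γ : ℝ) (z : ℂ) (a : M) :
    g a * ((N a : ℕ) : ℂ) ^ (-(1 / 2 + θ * I + γ * z)) =
      ca N g θ a * cexp (-((γ * Real.log (N a) : ℝ) : ℂ) * z) := by
  unfold ca
  by_cases ha : a = 0
  · rw [ha, g0, zero_mul, zero_mul, zero_mul]
  have hN := h.pos ha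
  have hN0 : ((N a : ℕ) : ℂ) ≠ 0 := by exact_mod_cast hN.ne'
  rw [mul_assoc]
  congr 1
  rw [show (-(1 / 2 + θ * I + γ * z) : ℂ) = -(1 / 2 + θ * I) + -(γ * z) by ring,
    Complex.cpow_add _ _ hN0]
  congr 1
  rw [Complex.cpow_def_of_ne_zero hN0, ← Complex.natCast_log]
  congr 1
  rw [Complex.ofReal_mul]
  ring

lemma ca_summable {g : M → ℂ} (h : NS N n) (g0 : g 0 = 0) (g1 : ∀ a, ‖g a‖ ≤ 1) (θ : ℝ) {γ : ℝ}
    (hγ : 1 ≤ γ) : Summable (fun a => ‖ca N g θ a‖ * Real.exp (-(γ * Real.log (N a)))) ∧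
      ∑' a, ‖ca N g θ a‖ * Real.exp (-(γ * Real.log (N a))) ≤ ZN N := by
  have key : ∀ a, ‖ca N g θ a‖ * Real.exp (-(γ * Real.log (N a))) ≤ (N a : ℝ) ^ (-(3 / 2 : ℝ)) := by
    intro a
    have h1 := ca_norm_le h g0 g1 θ a
    by_cases ha : a = 0
    · unfold ca
      rw [ha, g0, zero_mul, norm_zero, zero_mul]
      positivity
    have hN : (1 : ℝ) ≤ N a := by exact_mod_cast h.pos ha
    have hN0 : (0 : ℝ) < N a := by linarith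
    have h2 : Real.exp (-(γ * Real.log (N a))) ≤ (N a : ℝ) ^ (-1 : ℝ) := by
      rw [Real.rpow_def_of_pos hN0]
      apply Real.exp_le_exp.mpr
      have := Real.log_nonneg hN
      nlinarith
    calc ‖ca N g θ a‖ * Real.exp (-(γ * Real.log (N a))) ≤
        (1 / Real.sqrt (N a)) * (N a : ℝ) ^ (-1 : ℝ) := by gcongr
      _ = (N a : ℝ) ^ (-(1 / 2) : ℝ) * (N a : ℝ) ^ (-1 : ℝ) := by
          congr 1
          rw [Real.rpow_neg hN0.le, ← Real.sqrt_eq_rpow, one_div]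
      _ = (N a : ℝ) ^ (-(3 / 2 : ℝ)) := by
          rw [← Real.rpow_add hN0]
          congr 1
          norm_num
  have hs : Summable (fun a => ‖ca N g θ a‖ * Real.exp (-(γ * Real.log (N a)))) :=
    Summable.of_nonneg_of_le (fun a => by positivity) key h.sm
  exact ⟨hs, hs.tsum_le_tsum key h.sm⟩

/-- **the number of elements of a given norm** -/
theorem NS_card_eps (h : NS N n) {e : ℝ} (he : 0 < e) : ∃ C : ℝ, 1 ≤ C ∧ ∀ (S : Finset M) (m : ℕ),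
    1 ≤ m → (∀ a ∈ S, N a = m) → (S.card : ℝ) ≤ C * (m : ℝ) ^ e := by
  obtain ⟨C, hC, hd⟩ := Pool.Agent.H369R2.divisor_bound (e / (n + 1)) (by positivity)
  refine ⟨max 1 (C ^ n), le_max_left _ _, fun S m hm hS => ?_⟩
  have hm0 : m ≠ 0 := by omega
  obtain ⟨h1, h2⟩ := h.fin_card hm0
  have h3 : ((S : Finset M) : Set M) ⊆ {a : M | N a = m} := fun a ha => hS a ha
  have h4 := Set.ncard_le_ncard h3 h1
  rw [Set.ncard_coe_finset] at h4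
  have hmr : (1 : ℝ) ≤ m := by exact_mod_cast hm
  have h5 : (S.card : ℝ) ≤ (m.divisors.card : ℝ) ^ n := by exact_mod_cast h4.trans h2
  refine h5.trans ?_
  calc (m.divisors.card : ℝ) ^ n ≤ (C * (m : ℝ) ^ (e / (n + 1))) ^ n := by
        gcongr
        exact hd m hm
    _ = C ^ n * (m : ℝ) ^ (e / (n + 1) * n) := by
        rw [mul_pow, ← Real.rpow_natCast ((m : ℝ) ^ (e / (n + 1))) n, ← Real.rpow_mul (by positivity)]
    _ ≤ max 1 (C ^ n) * (m : ℝ) ^ e := by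
        gcongr
        · exact le_max_right _ _
        · rw [div_mul_eq_mul_div, div_le_iff₀ (by positivity)]
          nlinarith

end

section two

variable {M₁ : Type} [CommMonoidWithZero M₁] [NormalizationMonoid M₁]
  [UniqueFactorizationMonoid M₁] [Subsingleton M₁ˣ] [Nontrivial M₁] {N₁ : M₁ →*₀ ℕ} {n₁ : ℕ}
  {M₂ : Type} [CommMonoidWithZero M₂] [NormalizationMonoid M₂]
  [UniqueFactorizationMonoid M₂] [Subsingleton M₂ˣ] [Nontrivial M₂] {N₂ : M₂ →*₀ ℕ} {n₂ : ℕ}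

/-- the coefficients -/
noncomputable def cq (N₁ : M₁ →*₀ ℕ) (N₂ : M₂ →*₀ ℕ) (χ₁ : M₁ →*₀ ℂ) (χ₂ : M₂ →*₀ ℂ) (δ : ℝ)
    (p : M₂ × M₁) : ℂ := ca N₂ χ₂ δ p.1 * ca N₁ (fun a => mob a * χ₁ a) 0 p.2

/-- the logarithms of the frequencies -/
noncomputable def nq (N₁ : M₁ →*₀ ℕ) (N₂ : M₂ →*₀ ℕ) (α β : ℝ) (p : M₂ × M₁) : ℝ :=
  α * Real.log (N₂ p.1) + β * Real.log (N₁ p.2)

lemma mobχ_zero (χ₁ : M₁ →*₀ ℂ) : (fun a => mob a * χ₁ a) 0 = 0 := by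
  simp only [map_zero, mul_zero]

lemma mobχ_le {χ₁ : M₁ →*₀ ℂ} (h1 : ∀ a, ‖χ₁ a‖ ≤ 1) (a : M₁) :
    ‖(fun a => mob a * χ₁ a) a‖ ≤ 1 := by
  simp only [norm_mul]
  exact mul_le_one₀ (mob_le a) (norm_nonneg _) (h1 a)

lemma cq_le (hN₁ : NS N₁ n₁) (hN₂ : NS N₂ n₂) {χ₁ : M₁ →*₀ ℂ} {χ₂ : M₂ →*₀ ℂ}
    (h₁ : ∀ a, ‖χ₁ a‖ ≤ 1) (h₂ : ∀ a, ‖χ₂ a‖ ≤ 1) (δ : ℝ) (p : M₂ × M₁) :
    ‖cq N₁ N₂ χ₁ χ₂ δ p‖ ≤ ww (N₂ p.1, N₁ p.2) := by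
  unfold cq ww
  rw [norm_mul]
  calc _ ≤ (1 / Real.sqrt (N₂ p.1)) * (1 / Real.sqrt (N₁ p.2)) := by
        gcongr
        · exact ca_norm_le hN₂ (map_zero χ₂) h₂ δ p.1
        · exact ca_norm_le hN₁ (mobχ_zero χ₁) (mobχ_le h₁) 0 p.2
    _ = 1 / Real.sqrt ((N₂ p.1 : ℝ) * (N₁ p.2 : ℝ)) := by
        rw [Real.sqrt_mul (by positivity), div_mul_div_comm, one_mul]

lemma cq_zero {χ₁ : M₁ →*₀ ℂ} {χ₂ : M₂ →*₀ ℂ} (δ : ℝ) {p : M₂ × M₁}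
    (hp : cq N₁ N₂ χ₁ χ₂ δ p ≠ 0) : p.1 ≠ 0 ∧ p.2 ≠ 0 := by
  constructor
  · intro h
    apply hp
    unfold cq ca
    rw [h, map_zero, zero_mul, zero_mul]
  · intro h
    apply hp
    unfold cq ca
    rw [h, map_zero]
    simp

lemma cq_one {χ₁ : M₁ →*₀ ℂ} {χ₂ : M₂ →*₀ ℂ} (δ : ℝ) : ‖cq N₁ N₂ χ₁ χ₂ δ (1, 1)‖ = 1 := by
  have hm : mob (1 : M₁) = 1 := by
    unfold mob
    rw [if_pos (by simp)]
    simp
  unfold cq ca
  simp [hm]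

lemma nq_one (α β : ℝ) : nq N₁ N₂ α β (1, 1) = 0 := by
  unfold nq
  simp

lemma nq_gap (hN₁ : NS N₁ n₁) (hN₂ : NS N₂ n₂) {χ₁ : M₁ →*₀ ℂ} {χ₂ : M₂ →*₀ ℂ} (δ : ℝ)
    {α β : ℝ} (hα : 1 ≤ α) (hβ : 1 ≤ β) {p : M₂ × M₁} (hp : cq N₁ N₂ χ₁ χ₂ δ p ≠ 0)
    (hp1 : p ≠ (1, 1)) : Real.log 2 ≤ |0 - nq N₁ N₂ α β p| := by
  obtain ⟨h1, h2⟩ := cq_zero δ hp
  have k1 : (1 : ℝ) ≤ N₂ p.1 := by exact_mod_cast hN₂.pos h1
  have k2 : (1 : ℝ) ≤ N₁ p.2 := by exact_mod_cast hN₁.pos h2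
  have l1 := Real.log_nonneg k1
  have l2 := Real.log_nonneg k2
  rw [zero_sub, abs_neg]
  refine le_trans ?_ (le_abs_self _)
  unfold nq
  by_cases hp2 : p.1 = 1
  · have hp3 : p.2 ≠ 1 := by
      intro h3
      exact hp1 (Prod.ext hp2 h3)
    have h4 : (2 : ℝ) ≤ N₁ p.2 := by exact_mod_cast NS_two_le_ne_one hN₁ h2 hp3
    have h5 := Real.log_le_log (by norm_num) h4
    nlinarith
  · have h4 : (2 : ℝ) ≤ N₂ p.1 := by exact_mod_cast NS_two_le_ne_one hN₂ h1 hp2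
    have h5 := Real.log_le_log (by norm_num) h4
    nlinarith

lemma cq_summable (hN₁ : NS N₁ n₁) (hN₂ : NS N₂ n₂) {χ₁ : M₁ →*₀ ℂ} {χ₂ : M₂ →*₀ ℂ}
    (h₁ : ∀ a, ‖χ₁ a‖ ≤ 1) (h₂ : ∀ a, ‖χ₂ a‖ ≤ 1) (δ : ℝ) {α β : ℝ} (hα : 1 ≤ α) (hβ : 1 ≤ β) :
    Summable (fun p => ‖cq N₁ N₂ χ₁ χ₂ δ p‖ * Real.exp (-nq N₁ N₂ α β p)) ∧
    ∑' p, ‖cq N₁ N₂ χ₁ χ₂ δ p‖ * Real.exp (-nq N₁ N₂ α β p) ≤ ZN N₂ * ZN N₁ := by
  obtain ⟨s1, t1⟩ := ca_summable hN₂ (map_zero χ₂) h₂ δ hα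
  obtain ⟨s2, t2⟩ := ca_summable hN₁ (mobχ_zero χ₁) (mobχ_le h₁) 0 hβ
  have e1 : (fun p : M₂ × M₁ => ‖cq N₁ N₂ χ₁ χ₂ δ p‖ * Real.exp (-nq N₁ N₂ α β p)) = fun p =>
      (‖ca N₂ χ₂ δ p.1‖ * Real.exp (-(α * Real.log (N₂ p.1)))) *
      (‖ca N₁ (fun a => mob a * χ₁ a) 0 p.2‖ * Real.exp (-(β * Real.log (N₁ p.2)))) := by
    funext p
    unfold cq nq
    rw [norm_mul, neg_add, Real.exp_add]
    ring
  rw [e1]
  have hsum := s1.mul_of_nonneg s2 (fun a => by positivity) (fun a => by positivity)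
  refine ⟨hsum, ?_⟩
  rw [← s1.tsum_mul_tsum s2 hsum]
  apply mul_le_mul t1 t2 (tsum_nonneg fun a => by positivity) (ZN_nonneg N₂)

/-- the series of the quotient -/
theorem quot_series (hN₁ : NS N₁ n₁) (hN₂ : NS N₂ n₂) {χ₁ : M₁ →*₀ ℂ} {χ₂ : M₂ →*₀ ℂ}
    (h₁ : ∀ a, ‖χ₁ a‖ ≤ 1) (h₂ : ∀ a, ‖χ₂ a‖ ≤ 1) {F₁ F₂ : ℂ → ℂ}
    (hF₁ : ∀ s : ℂ, 3 / 2 ≤ s.re → F₁ s = LA N₁ χ₁ s)
    (hF₂ : ∀ s : ℂ, 3 / 2 ≤ s.re → F₂ s = LA N₂ χ₂ s) (δ : ℝ) {α β : ℝ} (hα : 1 ≤ α)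
    (hβ : 1 ≤ β) {z : ℂ} (hz : z.re = 1) :
    F₂ (1 / 2 + δ * I + α * z) / F₁ (1 / 2 + β * z) =
      ∑' p, cq N₁ N₂ χ₁ χ₂ δ p * cexp (-(nq N₁ N₂ α β p : ℂ) * z) := by
  have hre2 : 3 / 2 ≤ (1 / 2 + δ * I + α * z : ℂ).re := by
    simp [hz]
    linarith
  have hre1 : 3 / 2 ≤ (1 / 2 + β * z : ℂ).re := by
    simp [hz]
    linarith
  have hre1' : 3 / 2 ≤ (1 / 2 + ((0 : ℝ) : ℂ) * I + β * z : ℂ).re := by
    simp [hz]
    linarith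
  have hinv : (F₁ (1 / 2 + β * z))⁻¹ = LA N₁ (fun a => mob a * χ₁ a) (1 / 2 + β * z) := by
    rw [hF₁ _ hre1]
    exact inv_eq_of_mul_eq_one_right (LI_mul_mob hN₁ h₁ hre1)
  rw [div_eq_mul_inv, hinv, hF₂ _ hre2]
  have e2 : LA N₂ χ₂ (1 / 2 + δ * I + α * z) = ∑' a, ca N₂ χ₂ δ a *
      cexp (-((α * Real.log (N₂ a) : ℝ) : ℂ) * z) := by
    unfold LA
    exact tsum_congr fun a => ca_series hN₂ (map_zero χ₂) δ α z a
  have e1 : LA N₁ (fun a => mob a * χ₁ a) (1 / 2 + β * z) =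
      ∑' a, ca N₁ (fun a => mob a * χ₁ a) 0 a *
      cexp (-((β * Real.log (N₁ a) : ℝ) : ℂ) * z) := by
    unfold LA
    refine tsum_congr fun a => ?_
    rw [← ca_series hN₁ (mobχ_zero χ₁) 0 β z a]
    simp
  have n2 : ∀ a, ‖ca N₂ χ₂ δ a * cexp (-((α * Real.log (N₂ a) : ℝ) : ℂ) * z)‖ =
      ‖ca N₂ χ₂ δ a‖ * Real.exp (-(α * Real.log (N₂ a))) := by
    intro a
    rw [norm_mul, Complex.norm_exp, ← ofReal_neg, re_ofReal_mul, hz, mul_one]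
  have n1 : ∀ a, ‖ca N₁ (fun a => mob a * χ₁ a) 0 a *
      cexp (-((β * Real.log (N₁ a) : ℝ) : ℂ) * z)‖ =
      ‖ca N₁ (fun a => mob a * χ₁ a) 0 a‖ * Real.exp (-(β * Real.log (N₁ a))) := by
    intro a
    rw [norm_mul, Complex.norm_exp, ← ofReal_neg, re_ofReal_mul, hz, mul_one]
  rw [e2, e1]
  rw [tsum_mul_tsum_of_summable_norm
    ((ca_summable hN₂ (map_zero χ₂) h₂ δ hα).1.congr fun a => (n2 a).symm)
    ((ca_summable hN₁ (mobχ_zero χ₁) (mobχ_le h₁) 0 hβ).1.congr fun a => (n1 a).symm)]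
  refine tsum_congr fun p => ?_
  unfold cq nq
  rw [show ca N₂ χ₂ δ p.1 * cexp (-((α * Real.log (N₂ p.1) : ℝ) : ℂ) * z) *
    (ca N₁ (fun a => mob a * χ₁ a) 0 p.2 * cexp (-((β * Real.log (N₁ p.2) : ℝ) : ℂ) * z)) =
    (ca N₂ χ₂ δ p.1 * ca N₁ (fun a => mob a * χ₁ a) 0 p.2) *
    (cexp (-((α * Real.log (N₂ p.1) : ℝ) : ℂ) * z) *
      cexp (-((β * Real.log (N₁ p.2) : ℝ) : ℂ) * z)) by ring, ← Complex.exp_add]
  congr 2
  push_cast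
  ring

end two

end Pool.Agent.T9h53.SG
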