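import Pool.Agent.T9h53.SZ.GG
import Pool.Agent.Y773.HK.Defs

/-! # The factor of the functional equation in degree `n` -/

set_option autoImplicit false

open Complex Filter Topology Set

namespace Pool.Agent.T9h53.SG

open Pool.Agent.T9h53.SZ
open Pool.Agent.Y773 (FEd)

section one

variable {ι : Type} [Fintype ι]

/-- the gamma factor -/
noncomputable abbrev GR (R : ℝ) (e : ι → ℕ) (s : ℂ) : ℂ := Pool.Agent.Y773.GG R e s

/-- the factor of the functional equation -/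
noncomputable def XF (R : ℝ) (e : ι → ℕ) (w : ℂ) (s : ℂ) : ℂ := w * GR R e (1 - s) / GR R e s

lemma GR_ne_zero {R : ℝ} (hR : 0 < R) (e : ι → ℕ) {s : ℂ} (hs : s.im ≠ 0) : GR R e s ≠ 0 := by
  show (R : ℂ) ^ (s / 2) * ∏ i, Gammaℝ (s + e i) ≠ 0
  refine mul_ne_zero ?_ (Finset.prod_ne_zero_iff.mpr fun i _ => ?_)
  · rw [Complex.cpow_def_of_ne_zero (by exact_mod_cast hR.ne')]
    exact exp_ne_zero _
  · exact H370.DL.Gammaℝ_ne_zero_of_im (by simpa using hs)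

lemma GR_conj {R : ℝ} (hR : 0 < R) (e : ι → ℕ) (s : ℂ) :
    (starRingEnd ℂ) (GR R e s) = GR R e ((starRingEnd ℂ) s) := by
  show (starRingEnd ℂ) ((R : ℂ) ^ (s / 2) * ∏ i, Gammaℝ (s + e i)) =
    (R : ℂ) ^ ((starRingEnd ℂ) s / 2) * ∏ i, Gammaℝ ((starRingEnd ℂ) s + e i)
  have hconj : ∀ z : ℂ, (starRingEnd ℂ) (Gammaℝ z) = Gammaℝ ((starRingEnd ℂ) z) := by
    intro z
    rw [Complex.Gammaℝ_def, Complex.Gammaℝ_def, map_mul]
    congr 1
    · rw [Complex.cpow_def_of_ne_zero (by exact_mod_cast Real.pi_ne_zero),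
        Complex.cpow_def_of_ne_zero (by exact_mod_cast Real.pi_ne_zero), ← Complex.exp_conj,
        map_mul, ← Complex.ofReal_log Real.pi_pos.le, conj_ofReal, map_div₀, map_neg, map_ofNat]
    · rw [show (starRingEnd ℂ) z / 2 = (starRingEnd ℂ) (z / 2) by rw [map_div₀, map_ofNat],
        Gamma_conj]
  rw [map_mul, map_prod]
  congr 1
  · rw [Complex.cpow_def_of_ne_zero (by exact_mod_cast hR.ne'),
      Complex.cpow_def_of_ne_zero (by exact_mod_cast hR.ne'), ← Complex.exp_conj,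
      map_mul, ← Complex.ofReal_log hR.le, conj_ofReal, map_div₀, map_ofNat]
  · refine Finset.prod_congr rfl fun i _ => ?_
    rw [hconj, map_add, map_natCast]

lemma XF_ne_zero {R : ℝ} (hR : 0 < R) (e : ι → ℕ) {w : ℂ} (hw : ‖w‖ = 1) {s : ℂ}
    (hs : s.im ≠ 0) : XF R e w s ≠ 0 := by
  unfold XF
  refine div_ne_zero (mul_ne_zero ?_ (GR_ne_zero hR e ?_)) (GR_ne_zero hR e hs)
  · intro h
    rw [h, norm_zero] at hw
    exact zero_ne_one hw
  · simpa using hs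

lemma func_eq {R : ℝ} (hR : 0 < R) {e : ι → ℕ} {F : ℂ → ℂ} {w : ℂ}
    (h : ∀ s : ℂ, s.im ≠ 0 → Pool.Agent.Y773.GG R e s * F s =
      w * (starRingEnd ℂ) (Pool.Agent.Y773.GG R e (1 - (starRingEnd ℂ) s) *
        F (1 - (starRingEnd ℂ) s))) {s : ℂ} (hs : s.im ≠ 0) :
    F s = XF R e w s * (starRingEnd ℂ) (F (1 - (starRingEnd ℂ) s)) := by
  have h1 := h s hs
  have h2 : (starRingEnd ℂ) (GR R e (1 - (starRingEnd ℂ) s)) = GR R e (1 - s) := by
    rw [GR_conj hR]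
    congr 1
    simp
  have h3 := GR_ne_zero hR e hs
  rw [map_mul] at h1
  unfold XF
  rw [div_mul_eq_mul_div, eq_div_iff h3, mul_assoc, ← h2, ← h1, mul_comm]

lemma GR_analytic {R : ℝ} (hR : 0 < R) (e : ι → ℕ) {s : ℂ} (hs : s.im ≠ 0) :
    AnalyticAt ℂ (GR R e) s := by
  have h1 : AnalyticAt ℂ (fun s : ℂ => (R : ℂ) ^ (s / 2)) s := by
    have : (fun s : ℂ => (R : ℂ) ^ (s / 2)) = fun s : ℂ => cexp (Complex.log R * (s / 2)) := by
      funext z
      rw [Complex.cpow_def_of_ne_zero (by exact_mod_cast hR.ne')]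
    rw [this]
    fun_prop
  have h2 : ∀ i : ι, AnalyticAt ℂ (fun s : ℂ => Gammaℝ (s + e i)) s := by
    intro i
    exact AnalyticAt.fun_comp (f := fun s : ℂ => s + e i) (g := Gammaℝ)
      (H370.DL.analyticAt_Gammaℝ (by simpa using hs)) (by fun_prop)
  have h3 : AnalyticAt ℂ (fun s : ℂ => ∏ i, Gammaℝ (s + e i)) s :=
    Finset.analyticAt_fun_prod _ fun i _ => h2 i
  exact h1.mul h3

lemma XF_analytic {R : ℝ} (hR : 0 < R) (e : ι → ℕ) (w : ℂ) {s : ℂ} (hs : s.im ≠ 0) :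
    AnalyticAt ℂ (XF R e w) s := by
  unfold XF
  refine AnalyticAt.div ?_ (GR_analytic hR e hs) (GR_ne_zero hR e hs)
  refine analyticAt_const.mul ?_
  exact AnalyticAt.fun_comp (f := fun s : ℂ => 1 - s) (g := GR R e)
    (GR_analytic hR e (by simpa using hs)) (by fun_prop)

/-- the logarithm of the analytic conductor -/
noncomputable def lc (ι : Type) [Fintype ι] (R y : ℝ) : ℝ :=
  Real.log R + Fintype.card ι * Real.log (y / (2 * Real.pi))

lemma GR_log {R : ℝ} (hR : 0 < R) (e : ι → ℕ) {x y : ℝ} (hy : 0 < y) :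
    Real.log ‖GR R e (⟨x, y⟩ : ℂ)‖ = x / 2 * Real.log R +
      ∑ i, (-((x + e i) / 2) * Real.log Real.pi + gphi (y / 2) ((x + e i) / 2) +
        (x + e i) / 2 * Real.log (y / 2)) := by
  have h1 : ‖((R : ℂ)) ^ ((⟨x, y⟩ : ℂ) / 2)‖ = R ^ (x / 2) := by
    rw [Complex.norm_cpow_eq_rpow_re_of_pos hR]
    congr 1
    simp
  have h2 : ∀ i : ι, (⟨x, y⟩ : ℂ) + e i = ⟨x + e i, y⟩ := by
    intro i
    apply Complex.ext <;> simp
  have h3 : ∀ i : ι, 0 < ‖Gammaℝ ((⟨x, y⟩ : ℂ) + e i)‖ := by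
    intro i
    exact norm_pos_iff.mpr (H370.DL.Gammaℝ_ne_zero_of_im (by simpa using hy.ne'))
  show Real.log ‖(R : ℂ) ^ ((⟨x, y⟩ : ℂ) / 2) * ∏ i, Gammaℝ ((⟨x, y⟩ : ℂ) + e i)‖ = _
  rw [norm_mul, h1, norm_prod, Real.log_mul (Real.rpow_pos_of_pos hR _).ne'
    (Finset.prod_ne_zero_iff.mpr fun i _ => (h3 i).ne'), Real.log_rpow hR,
    Real.log_prod (fun i _ => (h3 i).ne')]
  congr 1
  refine Finset.sum_congr rfl fun i _ => ?_
  rw [h2, Gammaℝ_log hy]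

/-- the size of the factor in the functional equation in wide regions -/
theorem XF_size {R : ℝ} (hR : 0 < R) (e : ι → ℕ) (he : ∀ i, e i ≤ 1) {w : ℂ} (hw : ‖w‖ = 1) :
    ∃ C : ℝ, 0 ≤ C ∧ ∀ y X : ℝ, 2 ≤ y → 2 ≤ X →
    X ^ 3 ≤ (y / 2) ^ 2 → ∀ x : ℝ, |x| ≤ X →
    |Real.log ‖XF R e w (⟨1 / 2 + x, y⟩ : ℂ)‖ + x * lc ι R y| ≤ C := by
  obtain ⟨C, hC0, hC⟩ := gphi_main
  refine ⟨Fintype.card ι * (2 * C), by positivity, ?_⟩
  intro y X hy hX hXy x hx
  obtain ⟨hx1, hx2⟩ := abs_le.mp hx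
  have hy0 : 0 < y := by linarith
  have hs2 : 1 - (⟨1 / 2 + x, y⟩ : ℂ) = (starRingEnd ℂ) ⟨1 / 2 - x, y⟩ := by
    apply Complex.ext
    · simp
      ring
    · simp
  have hg1 : 0 < ‖GR R e (⟨1 / 2 + x, y⟩ : ℂ)‖ :=
    norm_pos_iff.mpr (GR_ne_zero hR e (by simpa using hy0.ne'))
  have hg2 : 0 < ‖GR R e (⟨1 / 2 - x, y⟩ : ℂ)‖ :=
    norm_pos_iff.mpr (GR_ne_zero hR e (by simpa using hy0.ne'))
  have h1 : Real.log ‖XF R e w (⟨1 / 2 + x, y⟩ : ℂ)‖ =
      Real.log ‖GR R e (⟨1 / 2 - x, y⟩ : ℂ)‖ - Real.log ‖GR R e (⟨1 / 2 + x, y⟩ : ℂ)‖ := by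
    unfold XF
    rw [hs2, norm_div, norm_mul, hw, one_mul, ← GR_conj hR, Complex.norm_conj,
      Real.log_div hg2.ne' hg1.ne']
  have hterm : ∀ i : ι, |(gphi (y / 2) ((1 / 2 - x + e i) / 2) - gphi (y / 2) 1) -
      (gphi (y / 2) ((1 / 2 + x + e i) / 2) - gphi (y / 2) 1)| ≤ 2 * C := by
    intro i
    have he1 : (e i : ℝ) ≤ 1 := by exact_mod_cast he i
    have he0 : (0 : ℝ) ≤ e i := Nat.cast_nonneg _
    have h2 := hC (y / 2) X (by linarith) hX hXy ((1 / 2 - x + e i) / 2)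
      (abs_le.mpr ⟨by linarith, by linarith⟩)
    have h3 := hC (y / 2) X (by linarith) hX hXy ((1 / 2 + x + e i) / 2)
      (abs_le.mpr ⟨by linarith, by linarith⟩)
    refine (abs_sub _ _).trans ?_
    linarith
  have h4 : Real.log (y / (2 * Real.pi)) = Real.log (y / 2) - Real.log Real.pi := by
    rw [show y / (2 * Real.pi) = (y / 2) / Real.pi by field_simp,
      Real.log_div (by positivity) Real.pi_pos.ne']
  have h5 : Real.log ‖XF R e w (⟨1 / 2 + x, y⟩ : ℂ)‖ + x * lc ι R y =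
      ∑ i, ((gphi (y / 2) ((1 / 2 - x + e i) / 2) - gphi (y / 2) 1) -
        (gphi (y / 2) ((1 / 2 + x + e i) / 2) - gphi (y / 2) 1)) := by
    unfold lc
    rw [h1, GR_log hR e hy0, GR_log hR e hy0, h4, ← Finset.card_univ, Finset.cast_card,
      Finset.sum_mul, mul_add, Finset.mul_sum]
    have : ∀ (a b c d f g : ℝ), a + b - (c + d) + (f + g) = (a - c + f) + (b - d + g) := by
      intros; ring
    rw [this, ← Finset.sum_sub_distrib, ← Finset.sum_add_distrib]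
    have h6 : (1 / 2 - x) / 2 * Real.log R - (1 / 2 + x) / 2 * Real.log R + x * Real.log R = 0 := by
      ring
    rw [h6, zero_add]
    refine Finset.sum_congr rfl fun i _ => ?_
    ring
  rw [h5]
  refine (Finset.abs_sum_le_sum_abs _ _).trans ?_
  refine (Finset.sum_le_sum fun i _ => hterm i).trans ?_
  rw [Finset.sum_const, nsmul_eq_mul, Finset.card_univ]

end one

end Pool.Agent.T9h53.SG
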