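import Pool.Agent.T9h53.SG.FE

/-! # The factor of the functional equation of the quotient -/

set_option autoImplicit false

open Complex Filter Topology Set

namespace Pool.Agent.T9h53.SG

open Pool.Agent.T9h53.SZ
open Pool.Agent.Y773 (FEd)

variable {ι₁ ι₂ : Type} [Fintype ι₁] [Fintype ι₂]

/-- the factor of the functional equation of `F₂(1/2 + iδ + αz) / F₁(1/2 + βz)` -/
noncomputable def GQ (R₁ : ℝ) (e₁ : ι₁ → ℕ) (w₁ : ℂ) (R₂ : ℝ) (e₂ : ι₂ → ℕ) (w₂ : ℂ) (α β δ : ℝ)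
    (z : ℂ) : ℂ := XF R₂ e₂ w₂ (1 / 2 + δ * I + α * z) / XF R₁ e₁ w₁ (1 / 2 + β * z)

/-- the constant in the phase derivative -/
noncomputable def cE (ι₁ ι₂ : Type) [Fintype ι₁] [Fintype ι₂] (R₁ R₂ α β : ℝ) : ℝ :=
  α * (Real.log R₂ + Fintype.card ι₂ * Real.log (α / (2 * Real.pi))) -
    β * (Real.log R₁ + Fintype.card ι₁ * Real.log (β / (2 * Real.pi)))

/-- the degree of the quotient -/
noncomputable def dg (ι₁ ι₂ : Type) [Fintype ι₁] [Fintype ι₂] (α β : ℝ) : ℝ :=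
  α * Fintype.card ι₂ - β * Fintype.card ι₁

/-- the logarithm of the length of the dual sum at height `t` -/
noncomputable def En (ι₁ ι₂ : Type) [Fintype ι₁] [Fintype ι₂] (R₁ R₂ α β t : ℝ) : ℝ :=
  dg ι₁ ι₂ α β * Real.log t + cE ι₁ ι₂ R₁ R₂ α β

theorem GQ_size {R₁ R₂ : ℝ} (hR₁ : 0 < R₁) (hR₂ : 0 < R₂) (e₁ : ι₁ → ℕ) (e₂ : ι₂ → ℕ)
    (he₁ : ∀ i, e₁ i ≤ 1) (he₂ : ∀ i, e₂ i ≤ 1) {w₁ w₂ : ℂ} (hw₁ : ‖w₁‖ = 1) (hw₂ : ‖w₂‖ = 1)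
    {α β : ℝ} (δ : ℝ) (hα : 1 ≤ α) (hβ : 1 ≤ β) :
    ∃ C t₀ : ℝ, 0 ≤ C ∧ 1 ≤ t₀ ∧ ∀ t X : ℝ, t₀ ≤ t → 2 ≤ X → X ^ 2 ≤ t → ∀ σ : ℝ, |σ| ≤ X →
      |Real.log ‖GQ R₁ e₁ w₁ R₂ e₂ w₂ α β δ ⟨σ, t⟩‖ + σ * En ι₁ ι₂ R₁ R₂ α β t| ≤ C := by
  obtain ⟨C1, hC1, hX1⟩ := XF_size hR₁ e₁ he₁ hw₁
  obtain ⟨C2, hC2, hX2⟩ := XF_size hR₂ e₂ he₂ hw₂
  set m : ℝ := max α β with hm
  have hm1 : 1 ≤ m := hα.trans (le_max_left _ _)
  have hαm : α ≤ m := le_max_left _ _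
  have hβm : β ≤ m := le_max_right _ _
  set n₂ : ℝ := (Fintype.card ι₂ : ℝ) with hn₂
  set n₁ : ℝ := (Fintype.card ι₁ : ℝ) with hn₁
  have hn₂0 : 0 ≤ n₂ := Nat.cast_nonneg _
  refine ⟨C1 + C2 + 2 * n₂ * |δ|, 256 * m ^ 6 + 4 * |δ| + 4, by positivity, by
    have : 0 ≤ 256 * m ^ 6 + 4 * |δ| := by positivity
    linarith, ?_⟩
  intro t X ht hX hXt σ hσ
  have hδ1 := neg_abs_le δ
  have hδ2 := le_abs_self δ
  have hδ0 := abs_nonneg δ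
  have hm6 : 1 ≤ m ^ 6 := one_le_pow₀ hm1
  have ht1 : 4 ≤ t := by linarith
  have ht2 : 256 * m ^ 6 ≤ t := by linarith
  have ht3 : 4 * |δ| ≤ t := by linarith
  have ht0 : 0 < t := by linarith
  have hα0 : 0 < α := by linarith
  have hβ0 : 0 < β := by linarith
  have hαt : t ≤ α * t := by nlinarith
  have hβt : t ≤ β * t := by nlinarith
  have hy : t / 2 ≤ δ + α * t := by linarith
  have hy0 : 0 < δ + α * t := by linarith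
  -- the cube condition
  have hcube : (m * X) ^ 3 ≤ (t / 4) ^ 2 := by
    have h1 : X ^ 6 ≤ t ^ 3 := by
      calc X ^ 6 = (X ^ 2) ^ 3 := by ring
        _ ≤ t ^ 3 := pow_le_pow_left₀ (by positivity) hXt 3
    have h2 : ((m * X) ^ 3) ^ 2 ≤ ((t / 4) ^ 2) ^ 2 := by
      calc ((m * X) ^ 3) ^ 2 = m ^ 6 * X ^ 6 := by ring
        _ ≤ m ^ 6 * t ^ 3 := by gcongr
        _ ≤ (t / 256) * t ^ 3 := by
            gcongr
            linarith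
        _ = ((t / 4) ^ 2) ^ 2 := by ring
    exact (pow_le_pow_iff_left₀ (by positivity) (by positivity) two_ne_zero).mp h2
  have hmX2 : 2 ≤ m * X := by nlinarith
  have hβσ : |β * σ| ≤ m * X := by
    rw [abs_mul, abs_of_pos hβ0]
    exact mul_le_mul hβm hσ (abs_nonneg _) (by linarith)
  have hασ : |α * σ| ≤ m * X := by
    rw [abs_mul, abs_of_pos hα0]
    exact mul_le_mul hαm hσ (abs_nonneg _) (by linarith)
  have e1 := hX1 (β * t) (m * X) (by linarith) hmX2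
    (hcube.trans (pow_le_pow_left₀ (by positivity) (by linarith) 2)) (β * σ) hβσ
  have e2 := hX2 (δ + α * t) (m * X) (by linarith) hmX2
    (hcube.trans (pow_le_pow_left₀ (by positivity) (by linarith) 2)) (α * σ) hασ
  have hs1 : (1 / 2 : ℂ) + β * (⟨σ, t⟩ : ℂ) = ⟨1 / 2 + β * σ, β * t⟩ := by
    apply Complex.ext <;> simp
  have hs2 : (1 / 2 : ℂ) + δ * I + α * (⟨σ, t⟩ : ℂ) = ⟨1 / 2 + α * σ, δ + α * t⟩ := by
    apply Complex.ext <;> simp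
  have hn1 : 0 < ‖XF R₁ e₁ w₁ (⟨1 / 2 + β * σ, β * t⟩ : ℂ)‖ :=
    norm_pos_iff.mpr (XF_ne_zero hR₁ e₁ hw₁ (by
      have : β * t ≠ 0 := by positivity
      simpa using this))
  have hn2 : 0 < ‖XF R₂ e₂ w₂ (⟨1 / 2 + α * σ, δ + α * t⟩ : ℂ)‖ :=
    norm_pos_iff.mpr (XF_ne_zero hR₂ e₂ hw₂ (by simpa using hy0.ne'))
  have hG : Real.log ‖GQ R₁ e₁ w₁ R₂ e₂ w₂ α β δ ⟨σ, t⟩‖ =
      Real.log ‖XF R₂ e₂ w₂ (⟨1 / 2 + α * σ, δ + α * t⟩ : ℂ)‖ -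
        Real.log ‖XF R₁ e₁ w₁ (⟨1 / 2 + β * σ, β * t⟩ : ℂ)‖ := by
    unfold GQ
    rw [hs1, hs2, norm_div, Real.log_div hn2.ne' hn1.ne']
  have hpi := Real.pi_pos
  have hl1 : lc ι₁ R₁ (β * t) = Real.log R₁ + n₁ * (Real.log (β / (2 * Real.pi)) + Real.log t) := by
    unfold lc
    rw [show β * t / (2 * Real.pi) = β / (2 * Real.pi) * t by ring,
      Real.log_mul (by positivity) ht0.ne']
  have hu : |δ / (α * t)| ≤ 1 / 2 := by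
    rw [abs_div, abs_of_pos (by positivity : 0 < α * t), div_le_iff₀ (by positivity)]
    nlinarith [abs_nonneg δ]
  have hl2 : lc ι₂ R₂ (δ + α * t) = Real.log R₂ +
      n₂ * (Real.log (α / (2 * Real.pi)) + Real.log t + Real.log (1 + δ / (α * t))) := by
    obtain ⟨h5, h6⟩ := abs_le.mp hu
    unfold lc
    rw [show (δ + α * t) / (2 * Real.pi) =
      (α / (2 * Real.pi)) * t * (1 + δ / (α * t)) by field_simp; ring,
      Real.log_mul (by positivity) (by linarith), Real.log_mul (by positivity) ht0.ne']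
  have hlog := log_one_add_abs hu
  have hmain : Real.log ‖GQ R₁ e₁ w₁ R₂ e₂ w₂ α β δ ⟨σ, t⟩‖ + σ * En ι₁ ι₂ R₁ R₂ α β t =
      (Real.log ‖XF R₂ e₂ w₂ (⟨1 / 2 + α * σ, δ + α * t⟩ : ℂ)‖ +
        α * σ * lc ι₂ R₂ (δ + α * t)) -
      (Real.log ‖XF R₁ e₁ w₁ (⟨1 / 2 + β * σ, β * t⟩ : ℂ)‖ + β * σ * lc ι₁ R₁ (β * t)) -
      α * σ * (n₂ * Real.log (1 + δ / (α * t))) := by
    rw [hG, hl1, hl2]
    unfold En dg cE
    ring
  rw [hmain]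
  refine (abs_sub _ _).trans (add_le_add ((abs_sub _ _).trans (by linarith)) ?_)
  rw [abs_mul, abs_mul, abs_mul, abs_of_pos hα0, abs_of_nonneg hn₂0]
  have hXt' : X ≤ t := by nlinarith
  calc α * |σ| * (n₂ * |Real.log (1 + δ / (α * t))|) ≤ α * X * (n₂ * (2 * |δ / (α * t)|)) := by
        gcongr
    _ = 2 * n₂ * |δ| * (X / t) := by
        rw [abs_div, abs_of_pos (by positivity : 0 < α * t)]
        field_simp
    _ ≤ 2 * n₂ * |δ| * 1 := by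
        apply mul_le_mul_of_nonneg_left _ (by positivity)
        rw [div_le_one (by positivity)]
        exact hXt'
    _ = 2 * n₂ * |δ| := mul_one _

/-- the functional equation of the quotient -/
lemma quot_fe {R₁ R₂ : ℝ} (hR₁ : 0 < R₁) (hR₂ : 0 < R₂) {e₁ : ι₁ → ℕ} {e₂ : ι₂ → ℕ}
    {w₁ w₂ : ℂ} {F₁ F₂ : ℂ → ℂ}
    (h₁ : ∀ s : ℂ, s.im ≠ 0 → F₁ s = XF R₁ e₁ w₁ s * (starRingEnd ℂ) (F₁ (1 - (starRingEnd ℂ) s)))
    (h₂ : ∀ s : ℂ, s.im ≠ 0 → F₂ s = XF R₂ e₂ w₂ s * (starRingEnd ℂ) (F₂ (1 - (starRingEnd ℂ) s)))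
    (α β δ : ℝ) {z : ℂ} (hz : β * z.im ≠ 0) (hz2 : δ + α * z.im ≠ 0) :
    F₂ (1 / 2 + δ * I + α * z) / F₁ (1 / 2 + β * z) =
    GQ R₁ e₁ w₁ R₂ e₂ w₂ α β δ z * (starRingEnd ℂ)
      (F₂ (1 / 2 + δ * I + α * (-(starRingEnd ℂ) z)) / F₁ (1 / 2 + β * (-(starRingEnd ℂ) z))) := by
  have _ := hR₁
  have _ := hR₂
  rw [h₂ (1 / 2 + δ * I + α * z) (by simpa using hz2), h₁ (1 / 2 + β * z) (by simpa using hz)]
  have e1 : (1 : ℂ) - (starRingEnd ℂ) (1 / 2 + β * z) = 1 / 2 + β * (-(starRingEnd ℂ) z) := by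
    simp only [map_add, map_div₀, map_one, map_ofNat, map_mul, conj_ofReal]
    ring
  have e2 : (1 : ℂ) - (starRingEnd ℂ) (1 / 2 + δ * I + α * z) =
      1 / 2 + δ * I + α * (-(starRingEnd ℂ) z) := by
    simp only [map_add, map_div₀, map_one, map_ofNat, map_mul, conj_ofReal, conj_I]
    ring
  unfold GQ
  rw [e1, e2, map_div₀]
  ring

end Pool.Agent.T9h53.SG
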