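import Pool.Agent.T9h53.SG.GQ

/-! # Growth to the left of the critical line -/

set_option autoImplicit false

open Complex Filter Topology Set

namespace Pool.Agent.T9h53.SG

open Pool.Agent.T9h53.SZ

variable {ι : Type} [Fintype ι]

theorem growth_left {R : ℝ} (hR : 0 < R) (e : ι → ℕ) (he : ∀ i, e i ≤ 1) {w : ℂ} (hw : ‖w‖ = 1)
    {F : ℂ → ℂ}
    (hfe : ∀ s : ℂ, s.im ≠ 0 → F s = XF R e w s * (starRingEnd ℂ) (F (1 - (starRingEnd ℂ) s)))
    (hgr : ∃ C A : ℝ, 0 < C ∧ 0 < A ∧ ∀ s : ℂ, 1 / 2 ≤ s.re → 1 ≤ s.im → ‖F s‖ ≤ C * s.im ^ A)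
    (B : ℝ) (hB : 0 ≤ B) :
    ∃ C A y₀ : ℝ, 0 < C ∧ 0 < A ∧ 2 ≤ y₀ ∧ ∀ s : ℂ, -B ≤ s.re → y₀ ≤ s.im →
      ‖F s‖ ≤ C * s.im ^ A := by
  obtain ⟨C, A, hC, hA, hgr⟩ := hgr
  obtain ⟨C1, hC1, hX⟩ := XF_size hR e he hw
  set n : ℝ := (Fintype.card ι : ℝ) with hn
  have hn0 : 0 ≤ n := Nat.cast_nonneg _
  set K : ℝ := Real.exp (C1 + (B + 1) * |Real.log R|) with hK
  have hK0 : 0 < K := Real.exp_pos _
  have hK1 : 1 ≤ K := Real.one_le_exp (by positivity)
  refine ⟨K * C, A + (B + 1) * n, 2 * (B + 2) ^ 2, by positivity, by positivity, by nlinarith, ?_⟩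
  intro s hs1 hs2
  have hy2 : 2 ≤ s.im := by nlinarith
  have hy0 : 0 < s.im := by linarith
  have hy1 : 1 ≤ s.im := by linarith
  have hlogy : 0 ≤ Real.log s.im := Real.log_nonneg hy1
  have hpow : s.im ^ A ≤ s.im ^ (A + (B + 1) * n) := by
    apply Real.rpow_le_rpow_of_exponent_le hy1
    have : 0 ≤ (B + 1) * n := by positivity
    linarith
  rcases le_or_gt (1 / 2) s.re with h | h
  · have h1 := hgr s h hy1
    calc ‖F s‖ ≤ C * s.im ^ A := h1
      _ ≤ C * s.im ^ (A + (B + 1) * n) := by gcongr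
      _ = 1 * C * s.im ^ (A + (B + 1) * n) := by ring
      _ ≤ K * C * s.im ^ (A + (B + 1) * n) := by gcongr
  · have hx : |s.re - 1 / 2| ≤ B + 2 := abs_le.mpr ⟨by linarith, by linarith⟩
    have h1 := hX s.im (B + 2) hy2 (by linarith) (by
      have h2 : (B + 2) ^ 2 ≤ s.im / 2 := by linarith
      have h3 : (B + 2) ^ 3 ≤ ((B + 2) ^ 2) ^ 2 := by
        have : ((B + 2) ^ 2) ^ 2 = (B + 2) ^ 3 * (B + 2) := by ring
        rw [this]
        have h4 : 0 ≤ (B + 2) ^ 3 := by positivity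
        nlinarith
      exact h3.trans (pow_le_pow_left₀ (by positivity) h2 2)) (s.re - 1 / 2) hx
    have hs : (⟨1 / 2 + (s.re - 1 / 2), s.im⟩ : ℂ) = s := by
      apply Complex.ext
      · simp
      · simp
    rw [hs] at h1
    have hXpos : 0 < ‖XF R e w s‖ := norm_pos_iff.mpr (XF_ne_zero hR e hw hy0.ne')
    have hlc : lc ι R s.im ≤ |Real.log R| + n * Real.log s.im := by
      unfold lc
      have h2 : Real.log (s.im / (2 * Real.pi)) ≤ Real.log s.im := by
        apply Real.log_le_log (by positivity)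
        rw [div_le_iff₀ (by positivity)]
        have := Real.pi_gt_three
        nlinarith
      have h3 := le_abs_self (Real.log R)
      have h4 : n * Real.log (s.im / (2 * Real.pi)) ≤ n * Real.log s.im :=
        mul_le_mul_of_nonneg_left h2 hn0
      linarith
    have h2 : ‖XF R e w s‖ ≤ K * s.im ^ ((B + 1) * n) := by
      rw [← Real.exp_log hXpos, hK, Real.rpow_def_of_pos hy0, ← Real.exp_add]
      apply Real.exp_le_exp.mpr
      have h3 := (abs_le.mp h1).2
      have h4 : -(s.re - 1 / 2) * lc ι R s.im ≤ (B + 1) * (|Real.log R| + n * Real.log s.im) := by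
        have h5 : 0 ≤ |Real.log R| + n * Real.log s.im := by positivity
        calc -(s.re - 1 / 2) * lc ι R s.im ≤ -(s.re - 1 / 2) * (|Real.log R| + n * Real.log s.im) :=
              mul_le_mul_of_nonneg_left hlc (by linarith)
          _ ≤ (B + 1) * (|Real.log R| + n * Real.log s.im) :=
              mul_le_mul_of_nonneg_right (by linarith) h5
      nlinarith
    have h3 := hgr (1 - (starRingEnd ℂ) s) (by simp; linarith) (by simpa using hy1)
    have h4 : (1 - (starRingEnd ℂ) s).im = s.im := by simp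
    rw [h4] at h3
    rw [hfe s hy0.ne', norm_mul, Complex.norm_conj]
    calc ‖XF R e w s‖ * ‖F (1 - (starRingEnd ℂ) s)‖ ≤
        (K * s.im ^ ((B + 1) * n)) * (C * s.im ^ A) := by gcongr
      _ = K * C * s.im ^ (A + (B + 1) * n) := by
          rw [Real.rpow_add hy0]
          ring

end Pool.Agent.T9h53.SG
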