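import Pool.Agent.T9h53.SG.BadG
import Pool.Agent.T9h53.SZ.Meas

/-! # The measure of the bad heights: final form -/

set_option autoImplicit false
set_option linter.unusedSectionVars false

open Complex Filter Topology Set MeasureTheory

namespace Pool.Agent.T9h53.SG

open Pool.Agent.T9h53.SZ
open Pool.Agent.T9h27.D

/-- the logarithmic factors -/
lemma logs_le {X ℓ : ℝ} (hX : 1 ≤ X) (hℓ : 1 ≤ ℓ) (hXℓ : Real.log X ≤ ℓ) :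
    ((Nat.log 2 ⌊X⌋₊ + 1 : ℕ) : ℝ) ≤ 3 * ℓ ∧ 0 ≤ 1 + Real.log (2 * X) ∧
      1 + Real.log (2 * X) ≤ 3 * ℓ := by
  have hX0 : 0 < X := by linarith
  refine ⟨?_, ?_, ?_⟩
  · push_cast
    have e1 : (Nat.log 2 ⌊X⌋₊ : ℝ) ≤ Real.logb 2 ⌊X⌋₊ := Real.natLog_le_logb _ _
    have e2 : Real.logb 2 ⌊X⌋₊ ≤ 2 * Real.log X := by
      unfold Real.logb
      have e3 : Real.log ((⌊X⌋₊ : ℕ) : ℝ) ≤ Real.log X := by
        apply Real.log_le_log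
        · exact_mod_cast Nat.floor_pos.mpr hX
        · exact Nat.floor_le hX0.le
      have e4 := log_two_half
      have e5 : 0 ≤ Real.log X := Real.log_nonneg hX
      rw [div_le_iff₀ (by linarith)]
      nlinarith
    linarith
  · have : 0 ≤ Real.log (2 * X) := Real.log_nonneg (by linarith)
    linarith
  · rw [Real.log_mul (by norm_num) hX0.ne']
    have := Real.log_two_lt_d9
    linarith

/-- the arithmetic -/
lemma meas_arith {K0 K ℓ X B Z P Q : ℝ} {L : ℝ} (hK0 : 0 < K0) (hK : 1 ≤ K) (hℓ : 1 ≤ ℓ)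
    (hX : 1 ≤ X) (hP : 1 ≤ P) (hL0 : 0 ≤ L) (hL : L ≤ 3 * ℓ) {l2 : ℝ} (hl0 : 0 ≤ l2)
    (hl : l2 ≤ 3 * ℓ) (hB : 0 < B)
    (hZ : Z ≤ K * P * (L ^ 4 * (128 * (4 * ℓ / B) * X + 4 * l2 ^ 2) +
      X ^ 4 * Real.exp (-(B ^ 2 * (4 * ℓ / B) ^ 2 / 4)))) (hXe : Real.log X ≤ ℓ)
    (hXQ : X ≤ ℓ * Q) (hBQ : B ≤ 2 * ℓ ^ 2 * Q) :
    K0 * (B * Z) ≤ (K0 * K * 100000) * ℓ ^ 8 * P * Q := by
  have hX0 : 0 < X := by linarith
  have hQ0 : 0 ≤ Q := by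
    by_contra h
    push Not at h
    nlinarith
  have hexp : X ^ 4 * Real.exp (-(B ^ 2 * (4 * ℓ / B) ^ 2 / 4)) ≤ 1 := by
    have e1 : B ^ 2 * (4 * ℓ / B) ^ 2 / 4 = 4 * ℓ ^ 2 := by
      field_simp
    rw [e1]
    have e2 : X ^ 4 = Real.exp (4 * Real.log X) := by
      rw [show (4 : ℝ) * Real.log X = ((4 : ℕ) : ℝ) * Real.log X by norm_num, Real.exp_nat_mul,
        Real.exp_log hX0]
    rw [e2, ← Real.exp_add, Real.exp_le_one_iff]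
    nlinarith
  have h1 : B * Z ≤ K * P * (81 * ℓ ^ 4 * (512 * ℓ * X + 36 * ℓ ^ 2 * B) + B) := by
    have e3 : L ^ 4 ≤ 81 * ℓ ^ 4 := by
      calc L ^ 4 ≤ (3 * ℓ) ^ 4 := pow_le_pow_left₀ hL0 hL 4
        _ = 81 * ℓ ^ 4 := by ring
    have e4 : l2 ^ 2 ≤ 9 * ℓ ^ 2 := by
      calc l2 ^ 2 ≤ (3 * ℓ) ^ 2 := pow_le_pow_left₀ hl0 hl 2
        _ = 9 * ℓ ^ 2 := by ring
    calc B * Z ≤ B * (K * P * (L ^ 4 * (128 * (4 * ℓ / B) * X + 4 * l2 ^ 2) +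
          X ^ 4 * Real.exp (-(B ^ 2 * (4 * ℓ / B) ^ 2 / 4)))) := by gcongr
      _ ≤ B * (K * P * (81 * ℓ ^ 4 * (128 * (4 * ℓ / B) * X + 4 * (9 * ℓ ^ 2)) + 1)) := by gcongr
      _ = K * P * (81 * ℓ ^ 4 * (512 * ℓ * X + 36 * ℓ ^ 2 * B) + B) := by
          field_simp
          ring
  have hℓ6 : ℓ ^ 6 ≤ ℓ ^ 8 := pow_le_pow_right₀ hℓ (by norm_num)
  have hℓ2 : ℓ ^ 2 ≤ ℓ ^ 8 := pow_le_pow_right₀ hℓ (by norm_num)
  have h2 : 81 * ℓ ^ 4 * (512 * ℓ * X + 36 * ℓ ^ 2 * B) + B ≤ 100000 * ℓ ^ 8 * Q := by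
    calc 81 * ℓ ^ 4 * (512 * ℓ * X + 36 * ℓ ^ 2 * B) + B ≤
        81 * ℓ ^ 4 * (512 * ℓ * (ℓ * Q) + 36 * ℓ ^ 2 * (2 * ℓ ^ 2 * Q)) + 2 * ℓ ^ 2 * Q := by gcongr
      _ = (41472 * ℓ ^ 6 + 5832 * ℓ ^ 8 + 2 * ℓ ^ 2) * Q := by ring
      _ ≤ (100000 * ℓ ^ 8) * Q := by
          apply mul_le_mul_of_nonneg_right _ hQ0
          have : 0 ≤ ℓ ^ 8 := by positivity
          linarith
  calc K0 * (B * Z) ≤ K0 * (K * P * (100000 * ℓ ^ 8 * Q)) := by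
        apply mul_le_mul_of_nonneg_left _ hK0.le
        exact h1.trans (mul_le_mul_of_nonneg_left h2 (by positivity))
    _ = _ := by ring

section

variable {M₁ : Type} [CommMonoidWithZero M₁] [NormalizationMonoid M₁]
  [UniqueFactorizationMonoid M₁] [Subsingleton M₁ˣ] [Nontrivial M₁] {N₁ : M₁ →*₀ ℕ} {n₁ : ℕ}
  {M₂ : Type} [CommMonoidWithZero M₂] [NormalizationMonoid M₂]
  [UniqueFactorizationMonoid M₂] [Subsingleton M₂ˣ] [Nontrivial M₂] {N₂ : M₂ →*₀ ℕ} {n₂ : ℕ}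
  {ι₁ ι₂ : Type} [Fintype ι₁] [Fintype ι₂]
  {χ₁ : M₁ →*₀ ℂ} {χ₂ : M₂ →*₀ ℂ} {F₁ F₂ : ℂ → ℂ} {R₁ R₂ : ℝ} {e₁ : ι₁ → ℕ} {e₂ : ι₂ → ℕ}
  {w₁ w₂ : ℂ}

lemma badZ_mono {F₁ F₂ : ℂ → ℂ} {α β δ T W W' : ℝ} (h : W ≤ W') :
    volume.real (BadZ F₁ F₂ α β δ T W') ≤ volume.real (BadZ F₁ F₂ α β δ T W) := by
  have hsub : BadZ F₁ F₂ α β δ T W' ⊆ BadZ F₁ F₂ α β δ T W := by
    rintro t ⟨g1, g2, g3⟩
    exact ⟨g1, g2, fun ρ hρ => lt_of_le_of_lt h (g3 ρ hρ)⟩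
  have hfin : volume (BadZ F₁ F₂ α β δ T W) ≠ ⊤ := by
    refine (lt_of_le_of_lt (measure_mono (t := Ioc T (2 * T)) ?_) measure_Ioc_lt_top).ne
    rintro t ⟨g1, g2, -⟩
    exact ⟨g1, g2⟩
  exact measureReal_mono hsub hfin

theorem meas_G (hN₁ : NS N₁ n₁) (hN₂ : NS N₂ n₂) (hF₁ : HL N₁ χ₁ F₁ R₁ e₁ w₁)
    (hF₂ : HL N₂ χ₂ F₂ R₂ e₂ w₂) {α β : ℝ} (δ : ℝ) (hα : 1 ≤ α) (hβ : 1 ≤ β)
    (hd0 : 0 < dg ι₁ ι₂ α β) (hd1 : dg ι₁ ι₂ α β < 1) {ε : ℝ} (hε : 0 < ε) :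
    ∃ η : ℝ, 0 < η ∧ ∀ᶠ T : ℝ in atTop,
      volume.real (BadZ F₁ F₂ α β δ T (T ^ ε)) ≤ T ^ (1 - η) := by
  set d := dg ι₁ ι₂ α β with hd
  set s : ℝ := min ε (min (1 - d) (1 / 4)) / 2 with hs
  have hmin : 0 < min ε (min (1 - d) (1 / 4)) := lt_min hε (lt_min (by linarith) (by norm_num))
  have hs0 : 0 < s := by rw [hs]; linarith
  have hs1 : 2 * s ≤ ε := by
    have := min_le_left ε (min (1 - d) (1 / 4))
    rw [hs]
    linarith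
  have hs2 : 2 * s ≤ 1 - d := by
    have := (min_le_right ε (min (1 - d) (1 / 4))).trans (min_le_left _ _)
    rw [hs]
    linarith
  have hs3 : 2 * s ≤ 1 / 4 := by
    have := (min_le_right ε (min (1 - d) (1 / 4))).trans (min_le_right _ _)
    rw [hs]
    linarith
  obtain ⟨K0, T1, hK0, hT1, hbad⟩ := bad_leG hN₁ hN₂ hF₁ hF₂ δ hα hβ hd0 hd1.le
  obtain ⟨K, hK, hZQ⟩ := ZQ_UA hN₁ hN₂ hF₁.le1 hF₂.le1 δ hα hβ (e := s / 16) (by positivity)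
  refine ⟨s / 2, by positivity, ?_⟩
  set c1 : ℝ := d * Real.log 2 + cE ι₁ ι₂ R₁ R₂ α β + 1 with hc1
  filter_upwards [eventually_ge_atTop T1, eventually_ge_atTop (Real.exp 1),
    Real.tendsto_log_atTop.eventually_ge_atTop (Real.exp c1),
    (Real.tendsto_log_atTop.const_mul_atTop hd0).eventually_ge_atTop (-c1),
    ev_pow_log 1 8 (s := 1 / 4) (by norm_num), ev_pow_log 2 6 (s := s) hs0,
    ev_pow_log 1 5 (s := s) hs0, ev_pow_log 1 1 (s := 1 - d) (by linarith),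
    ev_pow_log 8 (K0 * K * 100000) (s := s / 4) (by positivity)] with T hTT1 hTe hc hdc k1 k2 k3 k4 k5
  have hT0 : 0 < T := (Real.exp_pos 1).trans_le hTe
  have hT1' : 1 ≤ T := (Real.one_le_exp (by norm_num)).trans hTe
  set ℓ := Real.log T with hℓdef
  have hℓ : 1 ≤ ℓ := by rwa [hℓdef, Real.le_log_iff_exp_le hT0]
  have hrp : ∀ {x y : ℝ}, x ≤ y → T ^ x ≤ T ^ y := fun h =>
    Real.rpow_le_rpow_of_exponent_le hT1' h
  rw [pow_one] at k1 k3 k4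
  rw [one_mul] at k4
  set H := T ^ s with hH
  have hH1 : 5 ≤ H := le_trans (by linarith) k3
  have hH0 : 0 < H := by linarith
  have hHH : H * H = T ^ (2 * s) := by
    rw [hH, ← Real.rpow_add hT0]
    congr 1
    ring
  have hHH4 : H * H ≤ T ^ (1 / 4 : ℝ) := by
    rw [hHH]
    exact hrp hs3
  have hT14 : T ^ (1 / 4 : ℝ) * T ^ (1 / 4 : ℝ) ≤ T := by
    rw [← Real.rpow_add hT0]
    calc T ^ (1 / 4 + 1 / 4 : ℝ) ≤ T ^ (1 : ℝ) := hrp (by norm_num)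
      _ = T := Real.rpow_one T
  have hT14' : 1 ≤ T ^ (1 / 4 : ℝ) := Real.one_le_rpow hT1' (by norm_num)
  set X : ℝ := Real.exp (En ι₁ ι₂ R₁ R₂ α β (2 * T) + 1) with hX
  have hEn : En ι₁ ι₂ R₁ R₂ α β (2 * T) + 1 = d * ℓ + c1 := by
    unfold En
    rw [Real.log_mul (by norm_num) hT0.ne', ← hd, ← hℓdef, hc1]
    ring
  have hX1 : 1 ≤ X := by
    rw [hX, hEn]
    apply Real.one_le_exp
    linarith
  have hlogX : Real.log X = En ι₁ ι₂ R₁ R₂ α β (2 * T) + 1 := by rw [hX, Real.log_exp]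
  have hXT : X ≤ ℓ * T ^ d := by
    rw [hX, hEn, Real.exp_add, mul_comm d ℓ, hℓdef, ← Real.rpow_def_of_pos hT0, mul_comm]
    gcongr
  have hXT1 : X ≤ T := by
    calc X ≤ ℓ * T ^ d := hXT
      _ ≤ T ^ (1 - d) * T ^ d := by gcongr
      _ = T := by
          rw [← Real.rpow_add hT0]
          norm_num
  have hlX : Real.log X ≤ ℓ := Real.log_le_log (by linarith) hXT1
  have hmain := hbad T H X hTT1 (by linarith) (by
      calc 4 * H * (2 * H * ℓ) = 8 * ℓ * (H * H) := by ring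
        _ ≤ T ^ (1 / 4 : ℝ) * T ^ (1 / 4 : ℝ) := by gcongr
        _ ≤ T := hT14) (by
      calc 2 * H ^ 2 = 2 * (H * H) := by ring
        _ ≤ T ^ (1 / 4 : ℝ) * T ^ (1 / 4 : ℝ) := by
            apply mul_le_mul _ hHH4 (by positivity) (by positivity)
            linarith
        _ ≤ T := hT14) k2 (by
      have := Real.log_two_gt_d9
      nlinarith) hX1 hlogX.ge
  have hwin : 2 * H * ℓ + 3 ≤ T ^ ε := by
    calc 2 * H * ℓ + 3 ≤ H * (5 * ℓ) := by nlinarith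
      _ ≤ H * H := by gcongr
      _ = T ^ (2 * s) := hHH
      _ ≤ T ^ ε := hrp hs1
  refine (badZ_mono hwin).trans (hmain.trans ?_)
  set B := 2 * T * ℓ ^ 2 / H with hB
  have hB0 : 0 < B := by positivity
  obtain ⟨hL, hl0, hl⟩ := logs_le hX1 hℓ hlX
  have hP1 : 1 ≤ X ^ (2 * (s / 16)) := Real.one_le_rpow hX1 (by positivity)
  have hXQ : X ≤ ℓ * T ^ (1 - s) := by
    refine hXT.trans ?_
    have : T ^ d ≤ T ^ (1 - s) := hrp (by linarith)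
    gcongr
  have hBQ : B ≤ 2 * ℓ ^ 2 * T ^ (1 - s) := by
    rw [hB, hH, Real.rpow_sub hT0, Real.rpow_one]
    apply le_of_eq
    ring
  have hfin := meas_arith (K0 := K0) (K := K) (ℓ := ℓ) (X := X) (B := B)
    (Q := T ^ (1 - s)) hK0 hK hℓ hX1 hP1 (Nat.cast_nonneg (Nat.log 2 ⌊X⌋₊ + 1)) hL hl0 hl hB0
    (hZQ X (4 * ℓ / B) B hX1 (by positivity)) hlX hXQ hBQ
  refine hfin.trans ?_
  have hP2 : X ^ (2 * (s / 16)) ≤ T ^ (s / 8) := by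
    calc X ^ (2 * (s / 16)) ≤ T ^ (2 * (s / 16)) := by gcongr
      _ = T ^ (s / 8) := by congr 1; ring
  calc (K0 * K * 100000) * ℓ ^ 8 * X ^ (2 * (s / 16)) * T ^ (1 - s) ≤
      T ^ (s / 4) * T ^ (s / 8) * T ^ (1 - s) := by gcongr
    _ = T ^ (1 - 5 * s / 8) := by
        rw [← Real.rpow_add hT0, ← Real.rpow_add hT0]
        congr 1
        ring
    _ ≤ T ^ (1 - s / 2) := hrp (by linarith)

end

end Pool.Agent.T9h53.SG
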