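import Pool.Agent.T9h53.SZ.PairSum

/-! # The sum over near pairs with two real exponents -/

set_option autoImplicit false

open Finset

namespace Pool.Agent.T9h53.SG

open Pool.Agent.T9h53.SZ

/-- the near quadruples in a dyadic box -/
noncomputable def quad2 (α β Δ : ℝ) (M M' N N' : ℕ) : Finset ((ℕ × ℕ) × (ℕ × ℕ)) :=
  ((Finset.Ico 1 (2 * M) ×ˢ Finset.Ico 1 (2 * M')) ×ˢ
    (Finset.Ico 1 (2 * N) ×ˢ Finset.Ico 1 (2 * N'))).filter (fun z =>
      |α * (Real.log z.1.1 - Real.log z.1.2) + β * (Real.log z.2.1 - Real.log z.2.2)| ≤ Δ)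

theorem quad2_card {α β Δ : ℝ} (hα : 1 ≤ α) (hβ : 1 ≤ β) (hΔ : 0 ≤ Δ) {M M' N N' : ℕ}
    (hM : 1 ≤ M) (hM' : 1 ≤ M') (hN : 1 ≤ N) (hN' : 1 ≤ N') :
    ((quad2 α β Δ M M' N N').card : ℝ) ≤ 128 * Δ * ((M : ℝ) * M' * (N * N')) +
      4 * Real.sqrt ((M : ℝ) * M' * (N * N')) *
        ((1 + Real.log (2 * M)) * (1 + Real.log (2 * N))) := by
  classical
  have hα0 : 0 < α := by linarith
  have hβ0 : 0 < β := by linarith
  rcases le_total β α with h | h
  · have h1 : quad2 α β Δ M M' N N' ⊆ quad (α / β) Δ M M' N N' := by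
      intro z hz
      unfold quad2 at hz
      unfold quad
      rw [Finset.mem_filter] at hz ⊢
      refine ⟨hz.1, ?_⟩
      have e1 : α / β * (Real.log z.1.1 - Real.log z.1.2) + (Real.log z.2.1 - Real.log z.2.2) =
          (α * (Real.log z.1.1 - Real.log z.1.2) + β * (Real.log z.2.1 - Real.log z.2.2)) / β := by
        field_simp
      rw [e1, abs_div, abs_of_pos hβ0, div_le_iff₀ hβ0]
      nlinarith [hz.2]
    have h2 : ((quad2 α β Δ M M' N N').card : ℝ) ≤ (quad (α / β) Δ M M' N N').card := by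
      exact_mod_cast Finset.card_le_card h1
    exact h2.trans (quad_card (by rw [le_div_iff₀ hβ0]; linarith) hΔ hM hM' hN hN')
  · have h2 : ((quad2 α β Δ M M' N N').card : ℝ) ≤ (quad (β / α) Δ N N' M M').card := by
      have : (quad2 α β Δ M M' N N').card ≤ (quad (β / α) Δ N N' M M').card := by
        refine Finset.card_le_card_of_injOn (fun z => (z.2, z.1)) ?_ ?_
        · intro z hz
          unfold quad2 at hz
          unfold quad
          rw [Finset.mem_coe, Finset.mem_filter, Finset.mem_product] at hz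
          rw [Finset.mem_coe, Finset.mem_filter, Finset.mem_product]
          refine ⟨⟨hz.1.2, hz.1.1⟩, ?_⟩
          simp only
          have e1 : β / α * (Real.log z.2.1 - Real.log z.2.2) +
              (Real.log z.1.1 - Real.log z.1.2) =
              (α * (Real.log z.1.1 - Real.log z.1.2) +
                β * (Real.log z.2.1 - Real.log z.2.2)) / α := by
            field_simp
            ring
          rw [e1, abs_div, abs_of_pos hα0, div_le_iff₀ hα0]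
          nlinarith [hz.2]
        · intro z _ w _ hzw
          simp only [Prod.mk.injEq] at hzw
          exact Prod.ext hzw.2 hzw.1
      exact_mod_cast this
    refine h2.trans ((quad_card (by rw [le_div_iff₀ hα0]; linarith) hΔ hN hN' hM hM').trans
      (le_of_eq ?_))
    rw [show (N : ℝ) * N' * (M * M') = (M : ℝ) * M' * (N * N') by ring]
    ring

/-- the logarithm of the frequency -/
noncomputable def nu2 (α β : ℝ) (p : ℕ × ℕ) : ℝ := α * Real.log p.1 + β * Real.log p.2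

/-- the set of the frequencies up to `X` -/
noncomputable def UU2 (α β X : ℝ) : Finset (ℕ × ℕ) :=
  (Finset.Icc 1 ⌊X⌋₊ ×ˢ Finset.Icc 1 ⌊X⌋₊).filter (fun p => nu2 α β p ≤ Real.log X)

lemma prod_le_of_nu2 {α β X : ℝ} (hα : 1 ≤ α) (hβ : 1 ≤ β) (hX : 0 < X) {m n : ℕ} (hm : 1 ≤ m)
    (hn : 1 ≤ n) (h : nu2 α β (m, n) ≤ Real.log X) : (m : ℝ) * n ≤ X := by
  have hm0 : (0 : ℝ) < m := by exact_mod_cast hm
  have hn0 : (0 : ℝ) < n := by exact_mod_cast hn
  have hlm : 0 ≤ Real.log m := Real.log_nonneg (by exact_mod_cast hm)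
  have hln : 0 ≤ Real.log n := Real.log_nonneg (by exact_mod_cast hn)
  rw [← Real.log_le_log_iff (by positivity) hX, Real.log_mul hm0.ne' hn0.ne']
  refine le_trans ?_ h
  unfold nu2
  nlinarith

set_option maxHeartbeats 1000000 in
theorem pair_sum2 {α β X Δ : ℝ} (hα : 1 ≤ α) (hβ : 1 ≤ β) (hX : 1 ≤ X) (hΔ : 0 ≤ Δ) :
    ∑ z ∈ (UU2 α β X ×ˢ UU2 α β X).filter (fun z => |nu2 α β z.1 - nu2 α β z.2| ≤ Δ),
        ww z.1 * ww z.2 ≤
      ((Nat.log 2 ⌊X⌋₊ + 1 : ℕ) : ℝ) ^ 4 * (128 * Δ * X + 4 * (1 + Real.log (2 * X)) ^ 2) := by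
  classical
  have hX0 : 0 < X := by linarith
  set L := Nat.log 2 ⌊X⌋₊ + 1 with hL
  set R := (Finset.range L ×ˢ Finset.range L) ×ˢ (Finset.range L ×ˢ Finset.range L) with hR
  set Sn := (UU2 α β X ×ˢ UU2 α β X).filter (fun z => |nu2 α β z.1 - nu2 α β z.2| ≤ Δ) with hSn
  set g : (ℕ × ℕ) × (ℕ × ℕ) → (ℕ × ℕ) × (ℕ × ℕ) := fun z =>
    ((Nat.log 2 z.1.1, Nat.log 2 z.1.2), (Nat.log 2 z.2.1, Nat.log 2 z.2.2)) with hg
  have hmem : ∀ p ∈ UU2 α β X, (1 ≤ p.1 ∧ 1 ≤ p.2) ∧ (p.1 ≤ ⌊X⌋₊ ∧ p.2 ≤ ⌊X⌋₊) ∧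
      nu2 α β p ≤ Real.log X := by
    intro p hp
    unfold UU2 at hp
    rw [Finset.mem_filter, Finset.mem_product, Finset.mem_Icc, Finset.mem_Icc] at hp
    exact ⟨⟨hp.1.1.1, hp.1.2.1⟩, ⟨hp.1.1.2, hp.1.2.2⟩, hp.2⟩
  have hmaps : ∀ z ∈ Sn, g z ∈ R := by
    intro z hz
    rw [hSn, Finset.mem_filter, Finset.mem_product] at hz
    obtain ⟨⟨hz1, hz2⟩, -⟩ := hz
    obtain ⟨-, ⟨a1, a2⟩, -⟩ := hmem _ hz1
    obtain ⟨-, ⟨b1, b2⟩, -⟩ := hmem _ hz2
    rw [hR, hg]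
    simp only [Finset.mem_product, Finset.mem_range, hL]
    exact ⟨⟨Nat.lt_succ_of_le (Nat.log_mono_right a1), Nat.lt_succ_of_le (Nat.log_mono_right a2)⟩,
      Nat.lt_succ_of_le (Nat.log_mono_right b1), Nat.lt_succ_of_le (Nat.log_mono_right b2)⟩
  rw [← Finset.sum_fiberwise_of_maps_to hmaps]
  have hbox : ∀ y ∈ R, ∑ z ∈ Sn with g z = y, ww z.1 * ww z.2 ≤
      128 * Δ * X + 4 * (1 + Real.log (2 * X)) ^ 2 := by
    rintro ⟨⟨u, v⟩, ⟨u', v'⟩⟩ hy
    have hRHS : 0 ≤ 128 * Δ * X + 4 * (1 + Real.log (2 * X)) ^ 2 := by positivity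
    rcases (Sn.filter (fun z => g z = ((u, v), (u', v')))).eq_empty_or_nonempty with he | ⟨z0, hz0⟩
    · rw [he, Finset.sum_empty]
      exact hRHS
    -- sizes
    have hsize : ∀ z ∈ Sn.filter (fun z => g z = ((u, v), (u', v'))),
        (2 ^ u ≤ z.1.1 ∧ z.1.1 < 2 * 2 ^ u) ∧ (2 ^ v ≤ z.1.2 ∧ z.1.2 < 2 * 2 ^ v) ∧
        (2 ^ u' ≤ z.2.1 ∧ z.2.1 < 2 * 2 ^ u') ∧ (2 ^ v' ≤ z.2.2 ∧ z.2.2 < 2 * 2 ^ v') ∧
        nu2 α β z.1 ≤ Real.log X ∧ nu2 α β z.2 ≤ Real.log X ∧ |nu2 α β z.1 - nu2 α β z.2| ≤ Δ := by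
      intro z hz
      rw [Finset.mem_filter, hSn, Finset.mem_filter, Finset.mem_product] at hz
      obtain ⟨⟨⟨hz1, hz2⟩, hz3⟩, hz4⟩ := hz
      obtain ⟨⟨a1, a2⟩, -, a3⟩ := hmem _ hz1
      obtain ⟨⟨b1, b2⟩, -, b3⟩ := hmem _ hz2
      rw [hg] at hz4
      simp only [Prod.mk.injEq] at hz4
      obtain ⟨⟨g1, g2⟩, g3, g4⟩ := hz4
      have key : ∀ m k : ℕ, 1 ≤ m → Nat.log 2 m = k → 2 ^ k ≤ m ∧ m < 2 * 2 ^ k := by
        intro m k hm hk
        constructor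
        · rw [← hk]
          exact Nat.pow_log_le_self 2 (by omega)
        · have := Nat.lt_pow_succ_log_self (b := 2) (by norm_num) m
          rw [hk, pow_succ] at this
          omega
      exact ⟨key _ _ a1 g1, key _ _ a2 g2, key _ _ b1 g3, key _ _ b2 g4, a3, b3, hz3⟩
    have h2pos : ∀ k : ℕ, (1 : ℝ) ≤ 2 ^ k := fun k => one_le_pow₀ (by norm_num)
    obtain ⟨⟨s1, -⟩, ⟨s2, -⟩, ⟨s3, -⟩, ⟨s4, -⟩, s5, s6, -⟩ := hsize z0 hz0
    have hone : ∀ k m : ℕ, 2 ^ k ≤ m → 1 ≤ m := fun k m h => le_trans (Nat.one_le_two_pow) h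
    have huv : (2 : ℝ) ^ u * 2 ^ v ≤ X := by
      have h1 := prod_le_of_nu2 hα hβ hX0 (hone _ _ s1) (hone _ _ s2) (by simpa using s5)
      have t1 : (2 : ℝ) ^ u ≤ z0.1.1 := by exact_mod_cast s1
      have t2 : (2 : ℝ) ^ v ≤ z0.1.2 := by exact_mod_cast s2
      refine le_trans ?_ h1
      gcongr
    have huv' : (2 : ℝ) ^ u' * 2 ^ v' ≤ X := by
      have h1 := prod_le_of_nu2 hα hβ hX0 (hone _ _ s3) (hone _ _ s4) (by simpa using s6)
      have t1 : (2 : ℝ) ^ u' ≤ z0.2.1 := by exact_mod_cast s3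
      have t2 : (2 : ℝ) ^ v' ≤ z0.2.2 := by exact_mod_cast s4
      refine le_trans ?_ h1
      gcongr
    set P : ℝ := (2 : ℝ) ^ u * 2 ^ u' * (2 ^ v * 2 ^ v') with hP
    have hP0 : 0 < P := by positivity
    have hPX : P ≤ X ^ 2 := by
      calc P = (2 ^ u * 2 ^ v) * (2 ^ u' * 2 ^ v') := by rw [hP]; ring
        _ ≤ X * X := by gcongr
        _ = X ^ 2 := by ring
    have hsP : Real.sqrt P ≤ X := by
      rw [show X = Real.sqrt (X ^ 2) by rw [Real.sqrt_sq hX0.le]]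
      exact Real.sqrt_le_sqrt hPX
    have hsP0 : 0 < Real.sqrt P := Real.sqrt_pos.mpr hP0
    have hwle : ∀ z ∈ Sn.filter (fun z => g z = ((u, v), (u', v'))),
        ww z.1 * ww z.2 ≤ 1 / Real.sqrt P := by
      intro z hz
      obtain ⟨⟨r1, -⟩, ⟨r2, -⟩, ⟨r3, -⟩, ⟨r4, -⟩, -, -, -⟩ := hsize z hz
      have t1 : (2 : ℝ) ^ u ≤ z.1.1 := by exact_mod_cast r1
      have t2 : (2 : ℝ) ^ v ≤ z.1.2 := by exact_mod_cast r2
      have t3 : (2 : ℝ) ^ u' ≤ z.2.1 := by exact_mod_cast r3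
      have t4 : (2 : ℝ) ^ v' ≤ z.2.2 := by exact_mod_cast r4
      have e1 : ww z.1 * ww z.2 =
          1 / Real.sqrt (((z.1.1 : ℝ) * z.1.2) * ((z.2.1 : ℝ) * z.2.2)) := by
        unfold ww
        rw [div_mul_div_comm, one_mul, ← Real.sqrt_mul (by positivity)]
      rw [e1]
      apply one_div_le_one_div_of_le hsP0
      apply Real.sqrt_le_sqrt
      calc P = (2 ^ u * 2 ^ v) * (2 ^ u' * 2 ^ v') := by rw [hP]; ring
        _ ≤ _ := by gcongr
    have hcount : ((Sn.filter (fun z => g z = ((u, v), (u', v')))).card : ℝ) ≤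
        (quad2 α β Δ (2 ^ u) (2 ^ u') (2 ^ v) (2 ^ v')).card := by
      have : (Sn.filter (fun z => g z = ((u, v), (u', v')))).card ≤
          (quad2 α β Δ (2 ^ u) (2 ^ u') (2 ^ v) (2 ^ v')).card := by
        refine Finset.card_le_card_of_injOn (fun z => ((z.1.1, z.2.1), (z.1.2, z.2.2))) ?_ ?_
        · intro z hz
          have hz' := hsize z (by simpa using hz)
          obtain ⟨⟨r1, r1'⟩, ⟨r2, r2'⟩, ⟨r3, r3'⟩, ⟨r4, r4'⟩, -, -, r7⟩ := hz'
          unfold quad2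
          simp only [Finset.coe_filter, Set.mem_ofPred_eq, Finset.mem_product, Finset.mem_Ico]
          refine ⟨⟨⟨⟨hone _ _ r1, r1'⟩, hone _ _ r3, r3'⟩, ⟨hone _ _ r2, r2'⟩, hone _ _ r4, r4'⟩, ?_⟩
          refine le_trans (le_of_eq ?_) r7
          congr 1
          unfold nu2
          ring
        · intro z _ w _ hzw
          simp only [Prod.mk.injEq] at hzw
          obtain ⟨⟨k1, k2⟩, k3, k4⟩ := hzw
          exact Prod.ext (Prod.ext k1 k3) (Prod.ext k2 k4)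
      exact_mod_cast this
    have hq := quad2_card (M := 2 ^ u) (M' := 2 ^ u') (N := 2 ^ v) (N' := 2 ^ v') hα hβ hΔ
      Nat.one_le_two_pow Nat.one_le_two_pow Nat.one_le_two_pow Nat.one_le_two_pow
    push_cast at hq
    rw [← hP] at hq
    have hu2 : (2 : ℝ) ^ u ≤ X := by
      have := h2pos v
      nlinarith [h2pos u]
    have hv2 : (2 : ℝ) ^ v ≤ X := by
      have := h2pos u
      nlinarith [h2pos v]
    have hlog : ∀ k : ℕ, (2 : ℝ) ^ k ≤ X → 1 + Real.log (2 * 2 ^ k) ≤ 1 + Real.log (2 * X) := by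
      intro k hk
      have := Real.log_le_log (show (0 : ℝ) < 2 * 2 ^ k by positivity)
        (show (2 : ℝ) * 2 ^ k ≤ 2 * X by linarith)
      linarith
    have hlog0 : ∀ k : ℕ, 0 ≤ 1 + Real.log (2 * (2 : ℝ) ^ k) := by
      intro k
      have : 0 ≤ Real.log (2 * (2 : ℝ) ^ k) := Real.log_nonneg (by linarith [h2pos k])
      linarith
    calc ∑ z ∈ Sn with g z = ((u, v), (u', v')), ww z.1 * ww z.2 ≤
        ∑ z ∈ Sn with g z = ((u, v), (u', v')), 1 / Real.sqrt P := Finset.sum_le_sum hwle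
      _ = ((Sn.filter (fun z => g z = ((u, v), (u', v')))).card : ℝ) * (1 / Real.sqrt P) := by
          rw [Finset.sum_const, nsmul_eq_mul]
      _ ≤ (128 * Δ * P + 4 * Real.sqrt P *
          ((1 + Real.log (2 * 2 ^ u)) * (1 + Real.log (2 * 2 ^ v)))) * (1 / Real.sqrt P) := by
          apply mul_le_mul_of_nonneg_right (hcount.trans hq) (by positivity)
      _ = 128 * Δ * Real.sqrt P +
          4 * ((1 + Real.log (2 * 2 ^ u)) * (1 + Real.log (2 * 2 ^ v))) := by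
          have hsq := Real.mul_self_sqrt hP0.le
          field_simp
          linear_combination (-128 * Δ) * hsq
      _ ≤ 128 * Δ * X + 4 * ((1 + Real.log (2 * X)) * (1 + Real.log (2 * X))) := by
          have := mul_le_mul (hlog u hu2) (hlog v hv2) (hlog0 v) ((hlog0 u).trans (hlog u hu2))
          gcongr
      _ = _ := by ring
  refine (Finset.sum_le_sum hbox).trans ?_
  rw [Finset.sum_const, nsmul_eq_mul, hR, Finset.card_product, Finset.card_product,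
    Finset.card_range]
  push_cast
  apply le_of_eq
  ring

/-- pushing a sum forward -/
lemma sum_push {α β : Type} [DecidableEq β] (Z : Finset α) (W : Finset β)
    (Φ : α → β) (hΦ : ∀ z ∈ Z, Φ z ∈ W) (f : β → ℝ) (hf : ∀ w, 0 ≤ f w) {K : ℝ}
    (hK : ∀ w ∈ W, ((Z.filter (fun z => Φ z = w)).card : ℝ) ≤ K) :
    ∑ z ∈ Z, f (Φ z) ≤ K * ∑ w ∈ W, f w := by
  rw [← Finset.sum_fiberwise_of_maps_to hΦ, Finset.mul_sum]
  refine Finset.sum_le_sum fun w hw => ?_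
  have h1 : ∑ z ∈ Z with Φ z = w, f (Φ z) = ∑ z ∈ Z with Φ z = w, f w :=
    Finset.sum_congr rfl fun z hz => by rw [(Finset.mem_filter.mp hz).2]
  rw [h1, Finset.sum_const, nsmul_eq_mul]
  exact mul_le_mul_of_nonneg_right (hK w hw) (hf w)

end Pool.Agent.T9h53.SG
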