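import Pool.Agent.T9h53.SG.ZU
import Pool.Agent.T9h53.SG.BoxG

/-! # The window inequality for the quotient of two L-functions -/

set_option autoImplicit false
set_option linter.unusedSectionVars false

open Complex Filter Topology Set MeasureTheory

namespace Pool.Agent.T9h53.SG

open Pool.Agent.T9h53.SZ
open Pool.Agent.T9h27.D

/-- the analytic data of an L-function -/
structure HL {M : Type} [CommMonoidWithZero M] (N : M →*₀ ℕ) (χ : M →*₀ ℂ) (F : ℂ → ℂ)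
    {ι : Type} [Fintype ι] (R : ℝ) (e : ι → ℕ) (w : ℂ) : Prop where
  diff : Differentiable ℂ F
  le1 : ∀ a, ‖χ a‖ ≤ 1
  ser : ∀ s : ℂ, 3 / 2 ≤ s.re → F s = LA N χ s
  hR : 0 < R
  he : ∀ i, e i ≤ 1
  hw : ‖w‖ = 1
  fe : ∀ s : ℂ, s.im ≠ 0 → F s = XF R e w s * (starRingEnd ℂ) (F (1 - (starRingEnd ℂ) s))
  gr : ∃ C A : ℝ, 0 < C ∧ 0 < A ∧ ∀ s : ℂ, 1 / 2 ≤ s.re → 1 ≤ s.im → ‖F s‖ ≤ C * s.im ^ A
  nz : ∀ s : ℂ, 1 ≤ s.re → F s ≠ 0

section amp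

variable {ι₁ ι₂ : Type} [Fintype ι₁] [Fintype ι₂]

lemma GQ_analytic {R₁ R₂ : ℝ} (hR₁ : 0 < R₁) (hR₂ : 0 < R₂) (e₁ : ι₁ → ℕ) (e₂ : ι₂ → ℕ)
    {w₁ w₂ : ℂ} (hw₁ : ‖w₁‖ = 1) (α β δ : ℝ) {z : ℂ} (hz : β * z.im ≠ 0)
    (hz2 : δ + α * z.im ≠ 0) : AnalyticAt ℂ (GQ R₁ e₁ w₁ R₂ e₂ w₂ α β δ) z := by
  have e1 : AnalyticAt ℂ (fun z : ℂ => XF R₂ e₂ w₂ (1 / 2 + δ * I + α * z)) z :=
    AnalyticAt.fun_comp (f := fun z : ℂ => 1 / 2 + δ * I + α * z) (g := XF R₂ e₂ w₂)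
      (XF_analytic hR₂ e₂ w₂ (by simpa using hz2)) (by fun_prop)
  have e2 : AnalyticAt ℂ (fun z : ℂ => XF R₁ e₁ w₁ (1 / 2 + β * z)) z :=
    AnalyticAt.fun_comp (f := fun z : ℂ => 1 / 2 + β * z) (g := XF R₁ e₁ w₁)
      (XF_analytic hR₁ e₁ w₁ (by simpa using hz)) (by fun_prop)
  exact e1.div e2 (XF_ne_zero hR₁ e₁ hw₁ (by simpa using hz))

lemma En_diff (R₁ R₂ α β : ℝ) {a b : ℝ} (ha : 0 < a) (hb : 0 < b) :
    En ι₁ ι₂ R₁ R₂ α β b - En ι₁ ι₂ R₁ R₂ α β a = dg ι₁ ι₂ α β * Real.log (b / a) := by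
  unfold En
  rw [Real.log_div hb.ne' ha.ne']
  ring

theorem amp_GQ {R₁ R₂ : ℝ} (hR₁ : 0 < R₁) (hR₂ : 0 < R₂) (e₁ : ι₁ → ℕ) (e₂ : ι₂ → ℕ)
    (he₁ : ∀ i, e₁ i ≤ 1) (he₂ : ∀ i, e₂ i ≤ 1) {w₁ w₂ : ℂ} (hw₁ : ‖w₁‖ = 1) (hw₂ : ‖w₂‖ = 1)
    {α β : ℝ} (δ : ℝ) (hα : 1 ≤ α) (hβ : 1 ≤ β) (hd0 : 0 < dg ι₁ ι₂ α β)
    (hd1 : dg ι₁ ι₂ α β ≤ 1) :
    ∃ C T₀ : ℝ, 0 < C ∧ 1 ≤ T₀ ∧ ∀ T H Y : ℝ, T₀ ≤ T → 2 ≤ H → 0 ≤ Y → 4 * H * Y ≤ T →
      2 * H ^ 2 ≤ T → ∀ t : ℝ, T ≤ t → t ≤ 2 * T →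
      Amp (GQ R₁ e₁ w₁ R₂ e₂ w₂ α β δ) C (En ι₁ ι₂ R₁ R₂ α β t) H Y t := by
  obtain ⟨C, t₀, hC, ht₀, h⟩ := GQ_size hR₁ hR₂ e₁ e₂ he₁ he₂ hw₁ hw₂ δ hα hβ
  refine ⟨Real.exp (C + 1), max (2 * t₀) (2 * |δ| + 2), Real.exp_pos _, by
    refine le_trans ?_ (le_max_left _ _); linarith, ?_⟩
  intro T H Y hT hH hY hHY hHT t ht1 ht2
  have hT1 : 2 * t₀ ≤ T := (le_max_left _ _).trans hT
  have hT2 : 2 * |δ| + 2 ≤ T := (le_max_right _ _).trans hT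
  have hδ := neg_abs_le δ
  have hY8 : 8 * Y ≤ T := by nlinarith
  have hT0 : 0 < T := by linarith
  have ht0 : 0 < t := by linarith
  constructor
  · intro z hz1 hz2
    obtain ⟨h3, h4⟩ := abs_le.mp hz2
    have h5 : 0 < z.im := by linarith
    have h6 : 0 < δ + α * z.im := by nlinarith
    have h7 : 0 < β * z.im := by positivity
    exact (GQ_analytic hR₁ hR₂ e₁ e₂ hw₁ α β δ h7.ne' h6.ne').differentiableAt
  · intro σ v hσ hv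
    obtain ⟨h3, h4⟩ := abs_le.mp hv
    have h5 : T / 2 ≤ t + v := by linarith
    have h6 := h (t + v) H (by linarith) hH (by linarith) σ hσ
    have h7 : Real.log ‖GQ R₁ e₁ w₁ R₂ e₂ w₂ α β δ ⟨σ, t + v⟩‖ ≤
        C - σ * En ι₁ ι₂ R₁ R₂ α β (t + v) := by
      have := (abs_le.mp h6).2
      linarith
    have h8 : |σ * (En ι₁ ι₂ R₁ R₂ α β (t + v) - En ι₁ ι₂ R₁ R₂ α β t)| ≤ 1 := by
      have e1 : En ι₁ ι₂ R₁ R₂ α β (t + v) - En ι₁ ι₂ R₁ R₂ α β t =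
          dg ι₁ ι₂ α β * Real.log (1 + v / t) := by
        rw [En_diff R₁ R₂ α β ht0 (by linarith)]
        congr 2
        field_simp
      have hvt : |v / t| ≤ Y / T := by
        rw [abs_div, abs_of_pos ht0]
        exact div_le_div₀ hY hv hT0 ht1
      have hYT : Y / T ≤ 1 / 8 := by
        rw [div_le_iff₀ hT0]
        linarith
      have e2 := log_one_add_abs (u := v / t) (by linarith)
      rw [e1, abs_mul, abs_mul, abs_of_pos hd0]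
      calc |σ| * (dg ι₁ ι₂ α β * |Real.log (1 + v / t)|) ≤ H * (1 * (2 * (Y / T))) := by
            gcongr
            linarith
        _ = (2 * H * Y) / T := by ring
        _ ≤ 1 := by
            rw [div_le_one hT0]
            nlinarith
    have h9 := (abs_le.mp h8).1
    have hG : 0 < ‖GQ R₁ e₁ w₁ R₂ e₂ w₂ α β δ ⟨σ, t + v⟩‖ := by
      apply norm_pos_iff.mpr
      unfold GQ
      have e3 : 0 < δ + α * (t + v) := by nlinarith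
      have e5 : 0 < β * (t + v) := mul_pos (by linarith) (by linarith)
      apply div_ne_zero
      · exact XF_ne_zero hR₂ e₂ hw₂ (by simpa using e3.ne')
      · refine XF_ne_zero hR₁ e₁ hw₁ ?_
        have : ((1 / 2 : ℂ) + β * (⟨σ, t + v⟩ : ℂ)).im = β * (t + v) := by simp
        rw [this]
        exact e5.ne'
    rw [← Real.exp_log hG, ← Real.exp_add]
    apply Real.exp_le_exp.mpr
    have e4 : σ * (En ι₁ ι₂ R₁ R₂ α β (t + v) - En ι₁ ι₂ R₁ R₂ α β t) =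
        σ * En ι₁ ι₂ R₁ R₂ α β (t + v) - σ * En ι₁ ι₂ R₁ R₂ α β t := by ring
    rw [e4] at h9
    linarith

end amp

section quot

variable {M₁ : Type} [CommMonoidWithZero M₁] [NormalizationMonoid M₁]
  [UniqueFactorizationMonoid M₁] [Subsingleton M₁ˣ] [Nontrivial M₁] {N₁ : M₁ →*₀ ℕ} {n₁ : ℕ}
  {M₂ : Type} [CommMonoidWithZero M₂] [NormalizationMonoid M₂]
  [UniqueFactorizationMonoid M₂] [Subsingleton M₂ˣ] [Nontrivial M₂] {N₂ : M₂ →*₀ ℕ} {n₂ : ℕ}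
  {ι₁ ι₂ : Type} [Fintype ι₁] [Fintype ι₂]
  {χ₁ : M₁ →*₀ ℂ} {χ₂ : M₂ →*₀ ℂ} {F₁ F₂ : ℂ → ℂ} {R₁ R₂ : ℝ} {e₁ : ι₁ → ℕ} {e₂ : ι₂ → ℕ}
  {w₁ w₂ : ℂ}

/-- the functional equation of the continued quotient -/
theorem D_feG (hF₁ : HL N₁ χ₁ F₁ R₁ e₁ w₁) (hF₂ : HL N₂ χ₂ F₂ R₂ e₂ w₂) (α β δ : ℝ) (D : ℂ → ℂ)
    {U : Set ℂ} (hU : IsOpen U)
    (hpos : ∀ z ∈ U, 0 < β * z.im ∧ 0 < δ + α * z.im)
    (hsym : ∀ z ∈ U, -(starRingEnd ℂ) z ∈ U)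
    (hD : ∀ z ∈ U, AnalyticAt ℂ D z)
    (hDL : ∀ z ∈ U, F₂ (1 / 2 + δ * I + α * z) = D z * F₁ (1 / 2 + β * z))
    (hne : ∀ z ∈ U, ∀ᶠ w in 𝓝 z, w ≠ z → F₁ (1 / 2 + β * w) ≠ 0) :
    ∀ z ∈ U, D z = GQ R₁ e₁ w₁ R₂ e₂ w₂ α β δ z * (starRingEnd ℂ) (D (-(starRingEnd ℂ) z)) := by
  have key : ∀ z ∈ U, F₁ (1 / 2 + β * z) ≠ 0 →
      D z = GQ R₁ e₁ w₁ R₂ e₂ w₂ α β δ z * (starRingEnd ℂ) (D (-(starRingEnd ℂ) z)) := by
    intro z hz hnz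
    obtain ⟨p1, p2⟩ := hpos z hz
    have e1 : D z = F₂ (1 / 2 + δ * I + α * z) / F₁ (1 / 2 + β * z) := by
      rw [hDL z hz, mul_div_cancel_right₀ _ hnz]
    have hnz' : F₁ (1 / 2 + β * (-(starRingEnd ℂ) z)) ≠ 0 := by
      intro h0
      apply hnz
      have e2 : (1 : ℂ) - (starRingEnd ℂ) (1 / 2 + β * z) = 1 / 2 + β * (-(starRingEnd ℂ) z) := by
        simp only [map_add, map_div₀, map_one, map_ofNat, map_mul, conj_ofReal]
        ring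
      rw [hF₁.fe (1 / 2 + β * z) (by simpa using p1.ne'), e2, h0]
      simp
    have e3 : D (-(starRingEnd ℂ) z) = F₂ (1 / 2 + δ * I + α * (-(starRingEnd ℂ) z)) /
        F₁ (1 / 2 + β * (-(starRingEnd ℂ) z)) := by
      rw [hDL _ (hsym z hz), mul_div_cancel_right₀ _ hnz']
    rw [e1, e3]
    exact quot_fe hF₁.hR hF₂.hR hF₁.fe hF₂.fe α β δ p1.ne' p2.ne'
  intro z hz
  obtain ⟨p1, p2⟩ := hpos z hz
  have hc1 : ContinuousAt D z := (hD z hz).continuousAt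
  have hc2 : ContinuousAt (fun w => GQ R₁ e₁ w₁ R₂ e₂ w₂ α β δ w *
      (starRingEnd ℂ) (D (-(starRingEnd ℂ) w))) z := by
    have e1 : ContinuousAt (GQ R₁ e₁ w₁ R₂ e₂ w₂ α β δ) z :=
      (GQ_analytic hF₁.hR hF₂.hR e₁ e₂ hF₁.hw α β δ p1.ne' p2.ne').continuousAt
    have e2 : ContinuousAt (fun w : ℂ => -(starRingEnd ℂ) w) z := by fun_prop
    have e3 : ContinuousAt D (-(starRingEnd ℂ) z) := (hD _ (hsym z hz)).continuousAt
    have e4 : ContinuousAt (fun w : ℂ => D (-(starRingEnd ℂ) w)) z :=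
      ContinuousAt.comp (f := fun w : ℂ => -(starRingEnd ℂ) w) (g := D) e3 e2
    have e5 : ContinuousAt (fun w : ℂ => (starRingEnd ℂ) (D (-(starRingEnd ℂ) w))) z :=
      (Complex.continuous_conj.continuousAt).comp e4
    exact e1.mul e5
  have hev : ∀ᶠ w in 𝓝[≠] z, D w = GQ R₁ e₁ w₁ R₂ e₂ w₂ α β δ w *
      (starRingEnd ℂ) (D (-(starRingEnd ℂ) w)) := by
    rw [eventually_nhdsWithin_iff]
    filter_upwards [hne z hz, hU.mem_nhds hz] with w h1 h2 h3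
    exact key w h2 (h1 h3)
  have t1 : Tendsto D (𝓝[≠] z) (𝓝 (D z)) := hc1.tendsto.mono_left nhdsWithin_le_nhds
  have t2 := hc2.tendsto.mono_left (nhdsWithin_le_nhds (a := z) (s := {z}ᶜ))
  exact tendsto_nhds_unique_of_eventuallyEq t1 t2 hev

lemma order_ne_topG (hF₁ : HL N₁ χ₁ F₁ R₁ e₁ w₁) {β : ℝ} (hβ : 0 < β) (z : ℂ) :
    analyticOrderAt (fun w => F₁ (1 / 2 + β * w)) z ≠ ⊤ := by
  have hd : Differentiable ℂ (fun w => F₁ (1 / 2 + β * w)) := hF₁.diff.comp (by fun_prop)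
  refine H370.Loc.order_ne_top (K := univ) isPreconnected_univ (fun w _ => hd.analyticAt w)
    (c := ((1 / β : ℝ) : ℂ)) (mem_univ _) ?_ (mem_univ _)
  apply hF₁.nz
  have hβ0 : (β : ℂ) ≠ 0 := by exact_mod_cast hβ.ne'
  push_cast
  rw [mul_one_div_cancel hβ0]
  norm_num

lemma F₁_isolatedG (hF₁ : HL N₁ χ₁ F₁ R₁ e₁ w₁) {β : ℝ} (hβ : 0 < β) (z : ℂ) :
    ∀ᶠ w in 𝓝 z, w ≠ z → F₁ (1 / 2 + β * w) ≠ 0 := by
  have hd : Differentiable ℂ (fun w => F₁ (1 / 2 + β * w)) := hF₁.diff.comp (by fun_prop)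
  obtain ⟨φ, -, -, h3⟩ := local_quot (hd.analyticAt z) (hd.analyticAt z) (order_ne_topG hF₁ hβ z)
    le_rfl
  exact h3

open Classical in
set_option maxHeartbeats 1000000 in
/-- **the window inequality** -/
theorem winG (hN₁ : NS N₁ n₁) (hN₂ : NS N₂ n₂) (hF₁ : HL N₁ χ₁ F₁ R₁ e₁ w₁)
    (hF₂ : HL N₂ χ₂ F₂ R₂ e₂ w₂) {α β : ℝ} (δ : ℝ) (hα : 1 ≤ α) (hβ : 1 ≤ β)
    (hd0 : 0 < dg ι₁ ι₂ α β) (hd1 : dg ι₁ ι₂ α β ≤ 1) :
    ∃ C T₀ : ℝ, 0 < C ∧ 1 ≤ T₀ ∧ ∀ T H η : ℝ, T₀ ≤ T → 2 ≤ H →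
      4 * H * (2 * H * Real.log T) ≤ T → 2 * H ^ 2 ≤ T → 0 ≤ η →
      (Real.log T) ^ 2 ≤ (H - 1) * Real.log 2 → (Real.log T) ^ 2 ≤ (H - 1) * η →
      ∀ t : ℝ, T ≤ t → t ≤ 2 * T → ∀ D : ℂ → ℂ,
      (∀ z : ℂ, |z.im - t| < 2 * H * Real.log T + 3 → AnalyticAt ℂ D z) →
      (∀ z : ℂ, |z.im - t| < 2 * H * Real.log T + 3 →
        F₂ (1 / 2 + δ * I + α * z) = D z * F₁ (1 / 2 + β * z)) →
      ∀ S : Finset (M₂ × M₁), (∀ p ∉ S, cq N₁ N₂ χ₁ χ₂ δ p ≠ 0 →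
        η ≤ |nq N₁ N₂ α β p + 0 - En ι₁ ι₂ R₁ R₂ α β t|) →
      (∀ p ∈ S, |nq N₁ N₂ α β p + 0 - En ι₁ ι₂ R₁ R₂ α β t| ≤ 1) →
      1 * H / 2 ≤ C * ∫ v in (-(2 * H * Real.log T))..(2 * H * Real.log T),
        ‖PQ (cq N₁ N₂ χ₁ χ₂ δ) (nq N₁ N₂ α β) 0 S (t + v)‖ * Real.exp (-(v ^ 2 / H ^ 2)) := by
  haveI := NS_countable hN₁
  haveI := NS_countable hN₂
  obtain ⟨C, T1, hC, hT1, hAmp⟩ := amp_GQ hF₁.hR hF₂.hR e₁ e₂ hF₁.he hF₂.he hF₁.hw hF₂.hw δ hα hβ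
    hd0 hd1
  obtain ⟨T2, hT2, hBox⟩ := box_bound (F₁ := F₁) (F₂ := F₂) hF₁.diff
    (growth_left hF₁.hR e₁ hF₁.he hF₁.hw hF₁.fe hF₁.gr)
    (growth_left hF₂.hR e₂ hF₂.he hF₂.hw hF₂.fe hF₂.gr)
    ⟨(ZN N₁ + 1)⁻¹, inv_pos.mpr (by have := ZN_nonneg N₁; linarith), fun s hs => by
      rw [hF₁.ser s hs]
      exact LA_low' hN₁ hF₁.le1 hs⟩ δ hα hβ
  set a : ℝ := 2 + |cE ι₁ ι₂ R₁ R₂ α β| + |Real.log C| + |Real.log (ZN N₂ * ZN N₁ + 1)| with ha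
  have ha0 : 0 ≤ a := by positivity
  obtain ⟨T3, hT3⟩ := eventually_atTop.mp (Real.tendsto_log_atTop.eventually (big_eventually a))
  refine ⟨C, max T1 (max (2 * T2) (max T3 (max 100 (4 * |δ| + 4)))), hC,
    hT1.trans (le_max_left _ _), ?_⟩
  intro T H η hT hH hHY hHT hη hκ2 hη2 t ht1 ht2 D hDa hDL S hS1 hS2
  have hTT1 : T1 ≤ T := (le_max_left _ _).trans hT
  have hTT2 : 2 * T2 ≤ T := (le_max_left _ _).trans ((le_max_right _ _).trans hT)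
  have hTT3 : T3 ≤ T :=
    (le_max_left _ _).trans ((le_max_right _ _).trans ((le_max_right _ _).trans hT))
  have hTT4 : max 100 (4 * |δ| + 4) ≤ T :=
    (le_max_right _ _).trans ((le_max_right _ _).trans ((le_max_right _ _).trans hT))
  have hT100 : 100 ≤ T := (le_max_left _ _).trans hTT4
  have hTδ : 4 * |δ| + 4 ≤ T := (le_max_right _ _).trans hTT4
  have hδ := neg_abs_le δ
  have hT0 : 0 < T := by linarith
  have hbig := hT3 T hTT3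
  set ℓ := Real.log T with hℓdef
  have hℓ : 1 ≤ ℓ := hbig.1
  set Y := 2 * H * ℓ with hYdef
  have hH0 : 0 < H := by linarith
  have hY0 : 0 ≤ Y := by positivity
  have hY8 : 8 * Y ≤ T := by nlinarith
  have hA := hAmp T H Y hTT1 hH hY0 hHY hHT t ht1 ht2
  have hlt : ∀ u : ℝ, |u - t| < Y + 3 → T / 2 < u := by
    intro u hu
    have := (abs_lt.mp hu).1
    have hY4 : 4 ≤ Y := by rw [hYdef]; nlinarith
    linarith
  -- the open set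
  set U : Set ℂ := {z : ℂ | |z.im - t| < Y + 3} with hU
  have hUo : IsOpen U := by
    have : Continuous fun z : ℂ => |z.im - t| := by fun_prop
    exact isOpen_lt this continuous_const
  have hfe := D_feG hF₁ hF₂ α β δ D hUo (fun z hz => by
      have h3 := hlt z.im hz
      constructor
      · have : 0 < z.im := by linarith
        positivity
      · nlinarith) (fun z hz => by
      have : (-(starRingEnd ℂ) z).im = z.im := by simp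
      rw [hU, mem_ofPred_eq, this]
      exact hz) (fun z hz => hDa z hz) (fun z hz => hDL z hz) (fun z _ =>
      F₁_isolatedG hF₁ (by linarith) z)
  have hin : ∀ z : ℂ, |z.im - t| ≤ Y → z ∈ U := by
    intro z hz
    rw [hU, mem_ofPred_eq]
    linarith
  have hcE := abs_nonneg (cE ι₁ ι₂ R₁ R₂ α β)
  have hlC := abs_nonneg (Real.log C)
  have hlZ := abs_nonneg (Real.log (ZN N₂ * ZN N₁ + 1))
  have hZ0 : 0 ≤ ZN N₂ * ZN N₁ := mul_nonneg (ZN_nonneg N₂) (ZN_nonneg N₁)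
  have haℓ : a ≤ a * ℓ := by nlinarith
  obtain ⟨hsum, hsum2⟩ := cq_summable hN₁ hN₂ hF₁.le1 hF₂.le1 δ hα hβ
  have hone : ‖cq N₁ N₂ χ₁ χ₂ δ (1, 1)‖ = 1 := cq_one δ
  have hcore := core_abs (a := a) (ℓ := ℓ) (H := H) ha0 hbig hH
    (c := cq N₁ N₂ χ₁ χ₂ δ) (ν := nq N₁ N₂ α β) (G := GQ R₁ e₁ w₁ R₂ e₂ w₂ α β δ) (D := D)
    (C := C) (E := En ι₁ ι₂ R₁ R₂ α β t) (lam := 0) (κ := Real.log 2) (η := η) (t := t)
    (i₀ := (1, 1)) hC (by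
      rw [← Real.exp_log hC]
      apply Real.exp_le_exp.mpr
      refine le_trans ?_ haℓ
      have := le_abs_self (Real.log C)
      rw [ha]
      linarith) hsum (by
      refine hsum2.trans ?_
      have h1 : 0 < ZN N₂ * ZN N₁ + 1 := by linarith
      calc ZN N₂ * ZN N₁ ≤ ZN N₂ * ZN N₁ + 1 := by linarith
        _ = Real.exp (Real.log (ZN N₂ * ZN N₁ + 1)) := (Real.exp_log h1).symm
        _ ≤ Real.exp (a * ℓ) := by
            apply Real.exp_le_exp.mpr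
            refine le_trans ?_ haℓ
            have := le_abs_self (Real.log (ZN N₂ * ZN N₁ + 1))
            rw [ha]
            linarith) (by rw [abs_zero]; positivity) (by
      have hlogt : 0 ≤ Real.log t := Real.log_nonneg (by linarith)
      have hlogt2 : Real.log t ≤ 2 * ℓ := by
        have e1 : Real.log t ≤ Real.log (T * T) := Real.log_le_log (by linarith) (by nlinarith)
        rw [Real.log_mul hT0.ne' hT0.ne'] at e1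
        linarith
      unfold En
      calc |dg ι₁ ι₂ α β * Real.log t + cE ι₁ ι₂ R₁ R₂ α β| ≤
          |dg ι₁ ι₂ α β * Real.log t| + |cE ι₁ ι₂ R₁ R₂ α β| := abs_add_le _ _
        _ ≤ 2 * ℓ + |cE ι₁ ι₂ R₁ R₂ α β| * ℓ := by
            rw [abs_mul, abs_of_pos hd0, abs_of_nonneg hlogt]
            nlinarith
        _ ≤ a * ℓ := by
            rw [ha]
            nlinarith) (by
      rw [hone, Real.exp_le_one_iff]
      have : 0 ≤ a * ℓ := by positivity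
      linarith) (by
      rw [hone]
      exact Real.one_le_exp (by positivity)) (nq_one α β) (Real.log_nonneg (by norm_num)) hη
      hκ2 hη2 (fun p hp hp1 => nq_gap hN₁ hN₂ δ hα hβ hp hp1) hA
      (fun z hz => (hDa z (hin z hz)).differentiableAt)
      (fun z hz => hfe z (hin z hz)) (by
      intro v hv
      have hz : (⟨1, t + v⟩ : ℂ) ∈ U := hin _ (by simpa using hv)
      have hL1 : F₁ (1 / 2 + β * (⟨1, t + v⟩ : ℂ)) ≠ 0 := by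
        apply hF₁.nz
        simp
        linarith
      have e1 : D ⟨1, t + v⟩ = F₂ (1 / 2 + δ * I + α * ⟨1, t + v⟩) /
          F₁ (1 / 2 + β * ⟨1, t + v⟩) := by
        rw [hDL _ hz, mul_div_cancel_right₀ _ hL1]
      rw [e1]
      exact quot_series hN₁ hN₂ hF₁.le1 hF₂.le1 hF₁.ser hF₂.ser δ hα hβ rfl) (by
      intro x τ hx0 hx1 hτ
      obtain ⟨g1, g2⟩ := abs_le.mp hτ
      have hin2 : ∀ z : ℂ, |z.im - τ| ≤ 2 → |z.im - t| < Y + 3 := by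
        intro z hz
        calc |z.im - t| ≤ |z.im - τ| + |τ - t| := abs_sub_le _ _ _
          _ < Y + 3 := by linarith
      have e1 := hBox (7 / 8 * T) (by linarith) τ (by linarith) (by linarith) D
        (fun z hz => hDa z (hin2 z hz)) (fun z hz => hDL z (hin2 z hz)) x hx0 hx1
      refine e1.trans (Real.exp_le_exp.mpr ?_)
      have e2 : 0 ≤ Real.log (7 / 8 * T) := Real.log_nonneg (by linarith)
      have e3 : Real.log (7 / 8 * T) ≤ ℓ := Real.log_le_log (by linarith) (by linarith)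
      exact pow_le_pow_left₀ e2 e3 2) S hS1 hS2
  rw [hone] at hcore
  exact hcore

end quot

end Pool.Agent.T9h53.SG
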