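import Pool.Agent.T9h53.SG.Cf
import Pool.Agent.T9h53.SG.BlockG

/-! # The pair sum over ideals -/

set_option autoImplicit false
set_option linter.unusedSectionVars false

open Complex Filter Topology Set

namespace Pool.Agent.T9h53.SG

open Pool.Agent.T9h53.SZ
open Pool.Agent.T9h27.D

variable {M₁ : Type} [CommMonoidWithZero M₁] [NormalizationMonoid M₁]
  [UniqueFactorizationMonoid M₁] [Subsingleton M₁ˣ] [Nontrivial M₁] {N₁ : M₁ →*₀ ℕ} {n₁ : ℕ}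
  {M₂ : Type} [CommMonoidWithZero M₂] [NormalizationMonoid M₂]
  [UniqueFactorizationMonoid M₂] [Subsingleton M₂ˣ] [Nontrivial M₂] {N₂ : M₂ →*₀ ℕ} {n₂ : ℕ}

/-- the pairs with frequency up to `X` -/
noncomputable def UA (N₁ : M₁ →*₀ ℕ) (N₂ : M₂ →*₀ ℕ) (α β X : ℝ) : Finset (M₂ × M₁) :=
  (SI N₂ ⌊X⌋₊ ×ˢ SI N₁ ⌊X⌋₊).filter (fun p => nq N₁ N₂ α β p ≤ Real.log X)

/-- the pair of norms -/
def nm (N₁ : M₁ →*₀ ℕ) (N₂ : M₂ →*₀ ℕ) (p : M₂ × M₁) : ℕ × ℕ := (N₂ p.1, N₁ p.2)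

lemma mem_UA (hN₁ : NS N₁ n₁) (hN₂ : NS N₂ n₂) {α β X : ℝ} (hα : 1 ≤ α) (hβ : 1 ≤ β)
    (hX : 1 ≤ X) {p : M₂ × M₁} :
    p ∈ UA N₁ N₂ α β X ↔ p.1 ≠ 0 ∧ p.2 ≠ 0 ∧ nq N₁ N₂ α β p ≤ Real.log X := by
  unfold UA
  rw [Finset.mem_filter, Finset.mem_product]
  constructor
  · rintro ⟨⟨h1, h2⟩, h3⟩
    exact ⟨hN₂.SI_ne h1, hN₁.SI_ne h2, h3⟩
  · rintro ⟨h1, h2, h3⟩
    have k1 := hN₂.pos h1
    have k2 := hN₁.pos h2
    have h4 : ((N₂ p.1 : ℕ) : ℝ) * (N₁ p.2 : ℕ) ≤ X :=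
      prod_le_of_nu2 hα hβ (by linarith) k1 k2 h3
    have g1 : (1 : ℝ) ≤ N₂ p.1 := by exact_mod_cast k1
    have g2 : (1 : ℝ) ≤ N₁ p.2 := by exact_mod_cast k2
    refine ⟨⟨hN₂.SI_of h1 (Nat.le_floor ?_), hN₁.SI_of h2 (Nat.le_floor ?_)⟩, h3⟩
    · nlinarith
    · nlinarith

lemma nm_mem (hN₁ : NS N₁ n₁) (hN₂ : NS N₂ n₂) {α β X : ℝ} {p : M₂ × M₁}
    (hp : p ∈ UA N₁ N₂ α β X) : nm N₁ N₂ p ∈ UU2 α β X := by
  unfold UA at hp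
  rw [Finset.mem_filter, Finset.mem_product] at hp
  unfold UU2 nm
  rw [Finset.mem_filter, Finset.mem_product, Finset.mem_Icc, Finset.mem_Icc]
  exact ⟨⟨hN₂.mem_SI.mp hp.1.1, hN₁.mem_SI.mp hp.1.2⟩, hp.2⟩

open Classical in
/-- the fibers of the pair of norms -/
theorem fiber_card (hN₁ : NS N₁ n₁) (hN₂ : NS N₂ n₂) {α β : ℝ} (hα : 1 ≤ α) (hβ : 1 ≤ β) {e : ℝ}
    (he : 0 < e) : ∃ K : ℝ, 1 ≤ K ∧ ∀ X : ℝ, 1 ≤ X → ∀ w ∈ UU2 α β X,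
      (((UA N₁ N₂ α β X).filter (fun p => nm N₁ N₂ p = w)).card : ℝ) ≤ K * X ^ e := by
  obtain ⟨C1, hC1, h1⟩ := NS_card_eps hN₁ he
  obtain ⟨C2, hC2, h2⟩ := NS_card_eps hN₂ he
  refine ⟨C2 * C1, by nlinarith, fun X hX w hw => ?_⟩
  unfold UU2 at hw
  rw [Finset.mem_filter, Finset.mem_product, Finset.mem_Icc, Finset.mem_Icc] at hw
  obtain ⟨⟨⟨w1, -⟩, w2, -⟩, w3⟩ := hw
  have hprod := prod_le_of_nu2 hα hβ (by linarith : 0 < X) w1 w2 w3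
  have hsub : (UA N₁ N₂ α β X).filter (fun p => nm N₁ N₂ p = w) ⊆
      ((SI N₂ ⌊X⌋₊).filter (fun a => N₂ a = w.1)) ×ˢ
        ((SI N₁ ⌊X⌋₊).filter (fun a => N₁ a = w.2)) := by
    intro p hp
    rw [Finset.mem_filter] at hp
    obtain ⟨hp1, hp2⟩ := hp
    unfold UA at hp1
    rw [Finset.mem_filter, Finset.mem_product] at hp1
    rw [Finset.mem_product, Finset.mem_filter, Finset.mem_filter]
    unfold nm at hp2
    rw [← hp2]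
    exact ⟨⟨hp1.1.1, rfl⟩, hp1.1.2, rfl⟩
  have hcard := Finset.card_le_card hsub
  rw [Finset.card_product] at hcard
  have e1 := h2 ((SI N₂ ⌊X⌋₊).filter (fun a => N₂ a = w.1)) w.1 w1
    (fun a ha => (Finset.mem_filter.mp ha).2)
  have e2 := h1 ((SI N₁ ⌊X⌋₊).filter (fun a => N₁ a = w.2)) w.2 w2
    (fun a ha => (Finset.mem_filter.mp ha).2)
  calc (((UA N₁ N₂ α β X).filter (fun p => nm N₁ N₂ p = w)).card : ℝ) ≤
      (((SI N₂ ⌊X⌋₊).filter (fun a => N₂ a = w.1)).card : ℝ) *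
        (((SI N₁ ⌊X⌋₊).filter (fun a => N₁ a = w.2)).card : ℝ) := by exact_mod_cast hcard
    _ ≤ (C2 * (w.1 : ℝ) ^ e) * (C1 * (w.2 : ℝ) ^ e) := by gcongr
    _ = C2 * C1 * ((w.1 : ℝ) * w.2) ^ e := by
        rw [Real.mul_rpow (by positivity) (by positivity)]
        ring
    _ ≤ C2 * C1 * X ^ e := by gcongr

open Classical in
theorem ZQ_UA (hN₁ : NS N₁ n₁) (hN₂ : NS N₂ n₂) {χ₁ : M₁ →*₀ ℂ} {χ₂ : M₂ →*₀ ℂ}
    (h₁ : ∀ a, ‖χ₁ a‖ ≤ 1) (h₂ : ∀ a, ‖χ₂ a‖ ≤ 1) (δ : ℝ) {α β : ℝ} (hα : 1 ≤ α) (hβ : 1 ≤ β)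
    {e : ℝ} (he : 0 < e) : ∃ K : ℝ, 1 ≤ K ∧ ∀ X Δ B : ℝ, 1 ≤ X → 0 ≤ Δ →
      ZQ (cq N₁ N₂ χ₁ χ₂ δ) (nq N₁ N₂ α β) B (UA N₁ N₂ α β X) ≤
        K * X ^ (2 * e) * (((Nat.log 2 ⌊X⌋₊ + 1 : ℕ) : ℝ) ^ 4 *
          (128 * Δ * X + 4 * (1 + Real.log (2 * X)) ^ 2) +
          X ^ 4 * Real.exp (-(B ^ 2 * Δ ^ 2 / 4))) := by
  obtain ⟨K, hK, hfib⟩ := fiber_card hN₁ hN₂ hα hβ he
  refine ⟨K ^ 2, one_le_pow₀ hK, fun X Δ B hX hΔ => ?_⟩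
  have hX0 : 0 < X := by linarith
  have hXe : 1 ≤ X ^ e := Real.one_le_rpow hX he.le
  have hX2e : X ^ (2 * e) = X ^ e * X ^ e := by
    rw [← Real.rpow_add hX0]
    congr 1
    ring
  set U := UA N₁ N₂ α β X with hU
  set W := UU2 α β X with hW
  have hmemU : ∀ p ∈ U, nm N₁ N₂ p ∈ W := fun p hp => nm_mem hN₁ hN₂ hp
  have hww1 : ∀ p ∈ W, ww p ≤ 1 := by
    intro p hp
    rw [hW] at hp
    unfold UU2 at hp
    rw [Finset.mem_filter, Finset.mem_product, Finset.mem_Icc, Finset.mem_Icc] at hp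
    have e1 : (1 : ℝ) ≤ p.1 := by exact_mod_cast hp.1.1.1
    have e2 : (1 : ℝ) ≤ p.2 := by exact_mod_cast hp.1.2.1
    have e3 : (1 : ℝ) ≤ (p.1 : ℝ) * p.2 := by nlinarith
    unfold ww
    rw [div_le_one (by positivity), Real.le_sqrt' one_pos]
    linarith
  have hcw : ∀ p, ‖cq N₁ N₂ χ₁ χ₂ δ p‖ ≤ ww (nm N₁ N₂ p) := fun p =>
    cq_le hN₁ hN₂ h₁ h₂ δ p
  have hnn : ∀ p, nq N₁ N₂ α β p = nu2 α β (nm N₁ N₂ p) := fun p => rfl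
  -- the cardinality of `U`
  have hcardW : (W.card : ℝ) ≤ X ^ 2 := by
    have h : W.card ≤ ⌊X⌋₊ * ⌊X⌋₊ := by
      rw [hW]
      unfold UU2
      refine (Finset.card_filter_le _ _).trans ?_
      rw [Finset.card_product, Nat.card_Icc]
      simp
    have h2 : (⌊X⌋₊ : ℝ) ≤ X := Nat.floor_le (by linarith)
    have h3 : (W.card : ℝ) ≤ (⌊X⌋₊ : ℝ) * ⌊X⌋₊ := by exact_mod_cast h
    calc (W.card : ℝ) ≤ (⌊X⌋₊ : ℝ) * ⌊X⌋₊ := h3
      _ ≤ X * X := by gcongr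
      _ = X ^ 2 := by ring
  have hcardU : (U.card : ℝ) ≤ K * X ^ e * X ^ 2 := by
    have h3 := sum_push U W (nm N₁ N₂) hmemU (fun _ => 1) (fun _ => zero_le_one)
      (hfib X hX)
    simp only [Finset.sum_const, nsmul_eq_mul, mul_one] at h3
    refine h3.trans ?_
    gcongr
  unfold ZQ
  rw [← Finset.sum_filter_add_sum_filter_not (U ×ˢ U)
    (fun z => |nq N₁ N₂ α β z.1 - nq N₁ N₂ α β z.2| ≤ Δ), mul_add]
  refine add_le_add ?_ ?_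
  · have h3 : ∑ z ∈ (U ×ˢ U) with |nq N₁ N₂ α β z.1 - nq N₁ N₂ α β z.2| ≤ Δ,
        ‖cq N₁ N₂ χ₁ χ₂ δ z.1‖ * ‖cq N₁ N₂ χ₁ χ₂ δ z.2‖ *
          Real.exp (-(B ^ 2 * (nq N₁ N₂ α β z.1 - nq N₁ N₂ α β z.2) ^ 2 / 4)) ≤
        ∑ z ∈ (U ×ˢ U) with |nq N₁ N₂ α β z.1 - nq N₁ N₂ α β z.2| ≤ Δ,
          (fun w : (ℕ × ℕ) × (ℕ × ℕ) => ww w.1 * ww w.2)
            ((fun z : (M₂ × M₁) × (M₂ × M₁) => (nm N₁ N₂ z.1, nm N₁ N₂ z.2)) z) := by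
      refine Finset.sum_le_sum fun z _ => ?_
      have e3 : Real.exp (-(B ^ 2 * (nq N₁ N₂ α β z.1 - nq N₁ N₂ α β z.2) ^ 2 / 4)) ≤ 1 := by
        rw [Real.exp_le_one_iff]
        have : 0 ≤ B ^ 2 * (nq N₁ N₂ α β z.1 - nq N₁ N₂ α β z.2) ^ 2 / 4 := by positivity
        linarith
      have g1 := ww_nonneg (nm N₁ N₂ z.1)
      have g2 := ww_nonneg (nm N₁ N₂ z.2)
      have g3 := mul_nonneg g1 g2
      calc _ ≤ ww (nm N₁ N₂ z.1) * ww (nm N₁ N₂ z.2) * 1 := by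
            gcongr
            · exact hcw z.1
            · exact hcw z.2
        _ = _ := mul_one _
    refine h3.trans ?_
    have h4 := sum_push ((U ×ˢ U).filter (fun z => |nq N₁ N₂ α β z.1 - nq N₁ N₂ α β z.2| ≤ Δ))
      ((W ×ˢ W).filter (fun z => |nu2 α β z.1 - nu2 α β z.2| ≤ Δ))
      (fun z : (M₂ × M₁) × (M₂ × M₁) => (nm N₁ N₂ z.1, nm N₁ N₂ z.2)) (by
        intro z hz
        rw [Finset.mem_filter, Finset.mem_product] at hz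
        rw [Finset.mem_filter, Finset.mem_product]
        exact ⟨⟨hmemU _ hz.1.1, hmemU _ hz.1.2⟩, hz.2⟩)
      (fun w : (ℕ × ℕ) × (ℕ × ℕ) => ww w.1 * ww w.2)
      (fun w => mul_nonneg (ww_nonneg _) (ww_nonneg _)) (K := (K * X ^ e) * (K * X ^ e)) (by
        intro w hw
        rw [Finset.mem_filter, Finset.mem_product] at hw
        have hsub : ((U ×ˢ U).filter (fun z => |nq N₁ N₂ α β z.1 - nq N₁ N₂ α β z.2| ≤ Δ)).filter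
            (fun z => (nm N₁ N₂ z.1, nm N₁ N₂ z.2) = w) ⊆
            (U.filter (fun p => nm N₁ N₂ p = w.1)) ×ˢ (U.filter (fun p => nm N₁ N₂ p = w.2)) := by
          intro z hz
          rw [Finset.mem_filter, Finset.mem_filter, Finset.mem_product] at hz
          rw [Finset.mem_product, Finset.mem_filter, Finset.mem_filter]
          obtain ⟨⟨⟨z1, z2⟩, -⟩, z3⟩ := hz
          rw [← z3]
          exact ⟨⟨z1, rfl⟩, z2, rfl⟩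
        have hc := Finset.card_le_card hsub
        rw [Finset.card_product] at hc
        calc _ ≤ ((U.filter (fun p => nm N₁ N₂ p = w.1)).card : ℝ) *
              ((U.filter (fun p => nm N₁ N₂ p = w.2)).card : ℝ) := by exact_mod_cast hc
          _ ≤ _ := by
            gcongr
            · exact hfib X hX _ hw.1.1
            · exact hfib X hX _ hw.1.2)
    refine h4.trans ?_
    have h5 := pair_sum2 (α := α) (β := β) (X := X) (Δ := Δ) hα hβ hX hΔ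
    calc (K * X ^ e) * (K * X ^ e) * _ ≤ (K * X ^ e) * (K * X ^ e) *
        (((Nat.log 2 ⌊X⌋₊ + 1 : ℕ) : ℝ) ^ 4 *
          (128 * Δ * X + 4 * (1 + Real.log (2 * X)) ^ 2)) := by gcongr
      _ = _ := by rw [hX2e]; ring
  · calc ∑ z ∈ (U ×ˢ U) with ¬|nq N₁ N₂ α β z.1 - nq N₁ N₂ α β z.2| ≤ Δ,
          ‖cq N₁ N₂ χ₁ χ₂ δ z.1‖ * ‖cq N₁ N₂ χ₁ χ₂ δ z.2‖ *
          Real.exp (-(B ^ 2 * (nq N₁ N₂ α β z.1 - nq N₁ N₂ α β z.2) ^ 2 / 4)) ≤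
        ∑ z ∈ (U ×ˢ U) with ¬|nq N₁ N₂ α β z.1 - nq N₁ N₂ α β z.2| ≤ Δ,
          Real.exp (-(B ^ 2 * Δ ^ 2 / 4)) := by
          refine Finset.sum_le_sum fun z hz => ?_
          rw [Finset.mem_filter, Finset.mem_product] at hz
          obtain ⟨⟨hz1, hz2⟩, hz3⟩ := hz
          have e1 := (hcw z.1).trans (hww1 _ (hmemU _ hz1))
          have e2 := (hcw z.2).trans (hww1 _ (hmemU _ hz2))
          have e3 : Real.exp (-(B ^ 2 * (nq N₁ N₂ α β z.1 - nq N₁ N₂ α β z.2) ^ 2 / 4)) ≤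
              Real.exp (-(B ^ 2 * Δ ^ 2 / 4)) := by
            apply Real.exp_le_exp.mpr
            push Not at hz3
            have h5 : Δ ^ 2 ≤ (nq N₁ N₂ α β z.1 - nq N₁ N₂ α β z.2) ^ 2 := by
              rw [← sq_abs (nq N₁ N₂ α β z.1 - nq N₁ N₂ α β z.2)]
              exact pow_le_pow_left₀ hΔ hz3.le 2
            have h6 : B ^ 2 * Δ ^ 2 ≤ B ^ 2 * (nq N₁ N₂ α β z.1 - nq N₁ N₂ α β z.2) ^ 2 :=
              mul_le_mul_of_nonneg_left h5 (sq_nonneg B)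
            linarith
          calc _ ≤ 1 * 1 * Real.exp (-(B ^ 2 * Δ ^ 2 / 4)) := by gcongr
            _ = _ := by ring
      _ = (((U ×ˢ U).filter (fun z => ¬|nq N₁ N₂ α β z.1 - nq N₁ N₂ α β z.2| ≤ Δ)).card : ℝ) *
          Real.exp (-(B ^ 2 * Δ ^ 2 / 4)) := by rw [Finset.sum_const, nsmul_eq_mul]
      _ ≤ K ^ 2 * X ^ (2 * e) * X ^ 4 * Real.exp (-(B ^ 2 * Δ ^ 2 / 4)) := by
          apply mul_le_mul_of_nonneg_right _ (Real.exp_pos _).le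
          have h2 : ((U ×ˢ U).filter
              (fun z => ¬|nq N₁ N₂ α β z.1 - nq N₁ N₂ α β z.2| ≤ Δ)).card ≤
              U.card * U.card := by
            rw [← Finset.card_product]
            exact Finset.card_filter_le _ _
          have h3 : (((U ×ˢ U).filter
              (fun z => ¬|nq N₁ N₂ α β z.1 - nq N₁ N₂ α β z.2| ≤ Δ)).card : ℝ) ≤
              (U.card : ℝ) * U.card := by exact_mod_cast h2
          calc _ ≤ _ := h3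
            _ ≤ (K * X ^ e * X ^ 2) * (K * X ^ e * X ^ 2) := by gcongr
            _ = K ^ 2 * X ^ (2 * e) * X ^ 4 := by rw [hX2e]; ring
      _ = _ := by ring

end Pool.Agent.T9h53.SG
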